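import Pool.Agent.Lib_helper66.DHJMain

set_option autoImplicit false

open Finset Function Combinatorics
open scoped BigOperators

namespace Pool.Agent.LibH66

/-! ### The inductive step -/

lemma pull_compl {α ι : Type} (b : α) (E : Set (ι → α)) : pull b Eᶜ = (pull b E)ᶜ := rfl

/-- The density of a line-free set, split along the atoms of finitely many insensitive sets. -/
lemma lineFree_atoms {α : Type} [Fintype α] [DecidableEq α] [Nonempty α]
    (hα : ∀ M, DensSub α M) (d : ℝ) (hd0 : 0 ≤ d)
    (hd : ∀ γ : ℝ, 0 < γ → ∃ N : ℕ, ∀ (ι : Type) [Fintype ι] [DecidableEq ι],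
      N ≤ Fintype.card ι → ∀ A : Set (ι → Option α), LineFree A → dens A ≤ d + γ)
    (γ : ℝ) (hγ : 0 < γ) :
    ∃ N : ℕ, ∀ (ι : Type) [Fintype ι] [DecidableEq ι], N ≤ Fintype.card ι →
      ∀ A : Set (ι → Option α), LineFree A → ∀ E : α → Set (ι → α),
        dens A ≤ d + γ + dens (A ∩ interPull univ E) - d * dens (interPull univ E) := by
  classical
  obtain ⟨N, hN⟩ := lineFree_interPull hα d hd0 hd univ
    (γ / (2 ^ Fintype.card α)) (by positivity)
  refine ⟨N, fun ι _ _ hι A hA E => ?_⟩
  -- signs
  let Es : (α → Bool) → α → Set (ι → α) := fun σ a => if σ a then E a else (E a)ᶜ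
  have hmem : ∀ (σ : α → Bool) (w : ι → Option α),
      w ∈ interPull univ (Es σ) ↔ σ = fun a => decide (w ∈ pull a (E a)) := by
    intro σ w
    simp only [interPull, Finset.mem_univ, true_implies, Set.mem_ofPred_eq]
    constructor
    · intro h
      funext a
      have := h a
      simp only [Es] at this
      by_cases hσ : σ a = true
      · rw [if_pos hσ] at this
        simp [hσ, this]
      · rw [if_neg hσ, pull_compl] at this
        have h' : w ∉ pull a (E a) := this
        simp [h', hσ]
    · intro h a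
      simp only [Es]
      by_cases hw : w ∈ pull a (E a)
      · have : σ a = true := by rw [h]; simp [hw]
        rw [if_pos this]
        exact hw
      · have : ¬ σ a = true := by rw [h]; simp [hw]
        rw [if_neg this, pull_compl]
        exact hw
  let f : (ι → Option α) → ℝ := fun w => A.indicator (1 : (ι → Option α) → ℝ) w - d
  have hsum : ∀ w, f w = ∑ σ : α → Bool, (interPull univ (Es σ)).indicator f w := by
    intro w
    rw [Finset.sum_eq_single (fun a => decide (w ∈ pull a (E a)))]
    · rw [Set.indicator_of_mem ((hmem _ w).2 rfl)]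
    · intro σ _ hσ
      rw [Set.indicator_of_notMem (fun h => hσ ((hmem _ w).1 h))]
    · simp
  have h1 : dens A - d = ∑ σ : α → Bool,
      𝔼 w : ι → Option α, (interPull univ (Es σ)).indicator f w := by
    rw [← expect_sum_comm, ← expect_congr rfl fun w _ => hsum w]
    simp only [f]
    rw [expect_sub_distrib, Fintype.expect_const]
    rfl
  have hEs1 : Es (fun _ => true) = E := by
    funext a
    simp [Es]
  have h2 : ∑ σ : α → Bool, 𝔼 w : ι → Option α, (interPull univ (Es σ)).indicator f w
      ≤ (𝔼 w : ι → Option α, (interPull univ E).indicator f w) + γ := by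
    rw [← Finset.add_sum_erase _ _ (mem_univ (fun _ : α => true)), hEs1]
    gcongr
    have h3 : ∑ σ ∈ univ.erase (fun _ : α => true),
        𝔼 w : ι → Option α, (interPull univ (Es σ)).indicator f w
        ≤ ∑ σ ∈ (univ : Finset (α → Bool)).erase (fun _ : α => true), γ / (2 ^ Fintype.card α) :=
      Finset.sum_le_sum fun σ _ => hN ι hι A hA (Es σ)
    refine h3.trans ?_
    rw [sum_const, nsmul_eq_mul]
    have h4 : (#((univ : Finset (α → Bool)).erase (fun _ : α => true)) : ℝ)
        ≤ 2 ^ Fintype.card α := by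
      have : #((univ : Finset (α → Bool)).erase (fun _ : α => true)) ≤ 2 ^ Fintype.card α := by
        refine (Finset.card_erase_le).trans ?_
        simp
      exact_mod_cast this
    calc (#((univ : Finset (α → Bool)).erase (fun _ : α => true)) : ℝ) *
          (γ / 2 ^ Fintype.card α) ≤ 2 ^ Fintype.card α * (γ / 2 ^ Fintype.card α) := by gcongr
      _ = γ := by field_simp
  have h3 : 𝔼 w : ι → Option α, (interPull univ E).indicator f w
      = dens (A ∩ interPull univ E) - d * dens (interPull univ E) := by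
    unfold dens
    rw [mul_expect, ← expect_sub_distrib]
    refine expect_congr rfl fun w _ => ?_
    by_cases hw : w ∈ interPull univ E
    · rw [Set.indicator_of_mem hw, Set.indicator_of_mem hw]
      by_cases hA' : w ∈ A
      · have hAw : w ∈ A ∩ interPull univ E := ⟨hA', hw⟩
        rw [Set.indicator_of_mem hAw]
        simp [f, hA']
      · have hAw : w ∉ A ∩ interPull univ E := fun h => hA' h.1
        rw [Set.indicator_of_notMem hAw]
        simp [f, hA']
    · have hAw : w ∉ A ∩ interPull univ E := fun h => hw h.2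
      rw [Set.indicator_of_notMem hw, Set.indicator_of_notMem hw, Set.indicator_of_notMem hAw]
      simp
  linarith

/-- The letters of the random words: `L ^ 2` copies of every letter and one copy of every
wildcard. -/
abbrev Pat (K : Type) (m L : ℕ) : Type := (K × Fin (L ^ 2)) ⊕ Fin m

/-- Evaluate a random letter. -/
def ev {K : Type} {m L : ℕ} (x : Fin m → K) : Pat K m L → K
  | Sum.inl p => p.1
  | Sum.inr j => x j

lemma card_ev {K : Type} [Fintype K] [DecidableEq K] {m L : ℕ} (x : Fin m → K) (b : K) :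
    #{ω : Pat K m L | ev x ω = b} = L ^ 2 + #{j : Fin m | x j = b} := by
  classical
  have h : ({ω : Pat K m L | ev x ω = b} : Finset (Pat K m L))
      = (({b} : Finset K) ×ˢ (univ : Finset (Fin (L ^ 2)))).disjSum ({j : Fin m | x j = b}) := by
    ext ω
    rw [Finset.mem_filter]
    rcases ω with ⟨c, i⟩ | j
    · simp [ev, eq_comm]
    · simp [ev]
  rw [h, Finset.card_disjSum, Finset.card_product]
  simp

lemma ev_close {K : Type} [Fintype K] [DecidableEq K] [Nonempty K] {m L : ℕ} (hL : 0 < L)
    (x : Fin m → K) (b : K) :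
    |(Fintype.card K : ℝ) * #{ω : Pat K m L | ev x ω = b} / Fintype.card (Pat K m L) - 1|
      ≤ (m : ℝ) / L ^ 2 := by
  have hK : (1 : ℝ) ≤ Fintype.card K := by exact_mod_cast Fintype.card_pos
  have hL' : (0 : ℝ) < L := by exact_mod_cast hL
  have hcard : (Fintype.card (Pat K m L) : ℝ) = Fintype.card K * L ^ 2 + m := by
    simp [Pat]
  rw [card_ev, hcard]
  push_cast
  set n : ℝ := (#{j : Fin m | x j = b} : ℝ) with hn
  have hn0 : 0 ≤ n := by positivity
  have hnm : n ≤ m := by
    have : #{j : Fin m | x j = b} ≤ m := by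
      refine (Finset.card_le_univ _).trans ?_
      simp
    rw [hn]
    exact_mod_cast this
  have hden : (0 : ℝ) < Fintype.card K * L ^ 2 + m := by positivity
  have h1 : (Fintype.card K : ℝ) * (L ^ 2 + n) / (Fintype.card K * L ^ 2 + m) - 1
      = (Fintype.card K * n - m) / (Fintype.card K * L ^ 2 + m) := by
    field_simp
    ring
  rw [h1, abs_div, abs_of_pos hden, div_le_div_iff₀ hden (by positivity)]
  have h2 : |(Fintype.card K : ℝ) * n - m| ≤ Fintype.card K * m := by
    rw [abs_le]
    constructor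
    · nlinarith [Nat.cast_nonneg (α := ℝ) m]
    · nlinarith [Nat.cast_nonneg (α := ℝ) m]
  have h3 : (0 : ℝ) ≤ m := Nat.cast_nonneg m
  calc |(Fintype.card K : ℝ) * n - m| * (L : ℝ) ^ 2
      ≤ ((Fintype.card K : ℝ) * (m : ℝ)) * (L : ℝ) ^ 2 := by gcongr
    _ ≤ (m : ℝ) * ((Fintype.card K : ℝ) * (L : ℝ) ^ 2 + m) := by nlinarith

/-- The choice of the block length. -/
lemma exists_block_length (k m n : ℕ) (ε : ℝ) (hε : 0 < ε) :
    ∃ L : ℕ, 0 < L ∧ √((1 + ((m : ℝ) / L ^ 2) ^ 2) ^ (n * L ^ 3) - 1) ≤ ε ∧
      (n : ℝ) * √(((k : ℝ) * L ^ 2 + m) / (L ^ 3 : ℕ)) ≤ ε := by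
  have h1 : Filter.Tendsto (fun L : ℕ => √(Real.exp ((m : ℝ) ^ 2 * n / L) - 1))
      Filter.atTop (nhds √(Real.exp 0 - 1)) := by
    refine (Real.continuous_sqrt.tendsto _).comp ?_
    refine Filter.Tendsto.sub_const ?_ 1
    refine (Real.continuous_exp.tendsto _).comp ?_
    exact tendsto_const_div_atTop_nhds_zero_nat _
  rw [Real.exp_zero, sub_self, Real.sqrt_zero] at h1
  have h2 : Filter.Tendsto (fun L : ℕ => (n : ℝ) * √((k : ℝ) / L + m / L))
      Filter.atTop (nhds ((n : ℝ) * √(0 + 0))) := by
    refine Filter.Tendsto.const_mul _ ?_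
    refine (Real.continuous_sqrt.tendsto _).comp ?_
    exact (tendsto_const_div_atTop_nhds_zero_nat _).add (tendsto_const_div_atTop_nhds_zero_nat _)
  rw [add_zero, Real.sqrt_zero, mul_zero] at h2
  have h3 := h1.eventually (ge_mem_nhds hε)
  have h4 := h2.eventually (ge_mem_nhds hε)
  obtain ⟨L, ⟨hL1, hL2⟩, hL3⟩ := ((h3.and h4).and (Filter.eventually_gt_atTop 0)).exists
  have hL : (1 : ℝ) ≤ L := by exact_mod_cast hL3
  have hL0 : (0 : ℝ) < L := by linarith
  refine ⟨L, hL3, ?_, ?_⟩
  · refine le_trans (Real.sqrt_le_sqrt ?_) hL1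
    have h5 : (1 + ((m : ℝ) / L ^ 2) ^ 2) ^ (n * L ^ 3)
        ≤ (Real.exp (((m : ℝ) / L ^ 2) ^ 2)) ^ (n * L ^ 3) := by
      gcongr
      rw [add_comm]
      exact Real.add_one_le_exp _
    rw [← Real.exp_nat_mul] at h5
    have h6 : ((n * L ^ 3 : ℕ) : ℝ) * ((m : ℝ) / L ^ 2) ^ 2 = (m : ℝ) ^ 2 * n / L := by
      push_cast
      field_simp
    rw [h6] at h5
    linarith
  · refine le_trans ?_ hL2
    gcongr
    push_cast
    rw [← add_div, div_le_div_iff₀ (by positivity) hL0]
    have h7 : (0 : ℝ) ≤ m := Nat.cast_nonneg m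
    have h8 : (1 : ℝ) ≤ L ^ 2 := one_le_pow₀ hL
    nlinarith [mul_nonneg h7 hL0.le, mul_le_mul_of_nonneg_left h8 (mul_nonneg h7 hL0.le)]

/-- Words that avoid the extra letter are rare. -/
lemma dens_avoid {α : Type} [Fintype α] [DecidableEq α] (n : ℕ) :
    dens {w : Fin n → Option α | ∀ i, w i ≠ none}
      = ((Fintype.card α : ℝ) / (Fintype.card α + 1)) ^ n := by
  classical
  have h1 : dens {w : Fin n → Option α | ∀ i, w i ≠ none}
      = 𝔼 w : Fin n → Option α, ∏ i, (if w i = none then (0 : ℝ) else 1) := by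
    unfold dens
    refine expect_congr rfl fun w _ => ?_
    by_cases hw : ∀ i, w i ≠ none
    · rw [Set.indicator_of_mem (by exact hw)]
      simp [hw]
    · rw [Set.indicator_of_notMem (by exact hw)]
      push Not at hw
      obtain ⟨i, hi⟩ := hw
      symm
      exact Finset.prod_eq_zero (mem_univ i) (by simp [hi])
  rw [h1, expect_prod_pow (fun b : Option α => if b = none then (0 : ℝ) else 1)]
  simp [Fintype.expect_eq_sum_div_card, Fintype.sum_option]

/-- The pattern of a random letter along a line: a constant, or the wildcard. -/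
def pat {α : Type} {m L : ℕ} (ℓ : Line α (Fin m)) : Pat (Option α) m L → Option (Option α)
  | Sum.inl p => some p.1
  | Sum.inr j => (ℓ.idxFun j).map some

lemma pat_getD_none {α : Type} {m L : ℕ} (ℓ : Line α (Fin m)) (ω : Pat (Option α) m L) :
    (pat ℓ ω).getD none = ev ℓ.idxFun ω := by
  rcases ω with p | j
  · rfl
  · simp only [pat, ev]
    cases ℓ.idxFun j <;> rfl

lemma pat_getD_some {α : Type} {m L : ℕ} (ℓ : Line α (Fin m)) (a : α)
    (ω : Pat (Option α) m L) :
    (pat ℓ ω).getD (some a) = ev (fun j => some (ℓ a j)) ω := by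
  rcases ω with p | j
  · rfl
  · simp only [pat, ev, Line.coe_apply]
    cases ℓ.idxFun j <;> rfl

/-- The inductive step of the density Hales-Jewett theorem. -/
theorem densLine_option {α : Type} [Fintype α] [DecidableEq α] [Nonempty α]
    (hα : DensLine α) : DensLine (Option α) := by
  classical
  by_contra hcon
  unfold DensLine at hcon
  push Not at hcon
  obtain ⟨δ, hδ, hcon⟩ := hcon
  -- the extremal density
  set S : Set ℝ := {d | 0 ≤ d ∧ ∃ N : ℕ, ∀ A : Set (Fin N → Option α), LineFree A → dens A ≤ d}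
    with hS
  set d : ℝ := sInf S with hd
  have hSne : S.Nonempty := ⟨1, zero_le_one, 0, fun A _ => dens_le_one A⟩
  have hSbdd : BddBelow S := ⟨0, fun x hx => hx.1⟩
  have hdδ : δ ≤ d := by
    refine le_csInf hSne fun x hx => ?_
    obtain ⟨-, N, hN⟩ := hx
    obtain ⟨A, hA, hA'⟩ := hcon N
    exact (hA'.le).trans (hN A hA)
  have hd0 : 0 < d := hδ.trans_le hdδ
  have hd1 : d ≤ 1 := csInf_le hSbdd ⟨zero_le_one, 0, fun A _ => dens_le_one A⟩
  have hupper : ∀ γ : ℝ, 0 < γ → ∃ N : ℕ, ∀ (ι : Type) [Fintype ι] [DecidableEq ι],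
      N ≤ Fintype.card ι → ∀ A : Set (ι → Option α), LineFree A → dens A ≤ d + γ := by
    intro γ hγ
    obtain ⟨x, ⟨-, N, hN⟩, hx⟩ := exists_lt_of_csInf_lt hSne (by linarith : sInf S < d + γ)
    refine ⟨N, fun ι _ _ hι A hA => ?_⟩
    exact (lineFree_bound_mono (ι₀ := Fin N) (by simpa using hι) x hN A hA).trans hx.le
  have hlower : ∀ (γ : ℝ), 0 < γ → ∀ N : ℕ,
      ∃ A : Set (Fin N → Option α), LineFree A ∧ d - γ < dens A := by
    intro γ hγ N
    by_contra h
    push Not at h
    by_cases hγd : 0 ≤ d - γ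
    · have : d ≤ d - γ := csInf_le hSbdd ⟨hγd, N, h⟩
      linarith
    · push Not at hγd
      have h1 : LineFree (∅ : Set (Fin N → Option α)) := fun l => ⟨none, Set.notMem_empty _⟩
      have h2 := h ∅ h1
      have h3 : dens (∅ : Set (Fin N → Option α)) = 0 := by simp [dens]
      linarith
  -- parameters
  obtain ⟨m, hm⟩ := hα (d / 4) (by linarith)
  have hfin : Finite (Line α (Fin m)) :=
    Finite.of_injective (fun l : Line α (Fin m) => l.idxFun) (fun a b h => Line.ext h)
  have : Fintype (Line α (Fin m)) := Fintype.ofFinite _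
  set θ : ℝ := d / 4 / (Fintype.card (Line α (Fin m)) + 1) with hθ
  have hθ0 : 0 < θ := by positivity
  have hθ1 : θ ≤ d / 4 := by
    rw [hθ]
    apply div_le_self (by linarith)
    have : (0 : ℝ) ≤ Fintype.card (Line α (Fin m)) := Nat.cast_nonneg _
    linarith
  set ε : ℝ := d * θ / 8 with hε
  have hε0 : 0 < ε := by positivity
  have hεd : ε ≤ d / 8 := by nlinarith
  obtain ⟨n₁, hn₁⟩ := lineFree_atoms (fun M => hα.densSub M) d hd0.le hupper ε hε0
  obtain ⟨n₂, hn₂⟩ : ∃ n₂ : ℕ, ((Fintype.card α : ℝ) / (Fintype.card α + 1)) ^ n₂ < ε := by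
    refine exists_pow_lt_of_lt_one hε0 ?_
    rw [div_lt_one (by positivity)]
    linarith
  set n : ℕ := max n₁ n₂ with hn
  have hnn : ((Fintype.card α : ℝ) / (Fintype.card α + 1)) ^ n ≤ ε := by
    refine le_trans ?_ hn₂.le
    refine pow_le_pow_of_le_one (by positivity) ?_ (le_max_right _ _)
    rw [div_le_one (by positivity)]
    linarith
  obtain ⟨L, hL0, hL1, hL2⟩ := exists_block_length (Fintype.card (Option α)) m n ε hε0
  -- the extremal set
  obtain ⟨A₀, hA₀, hA₀d⟩ := hlower ε hε0 (n * L ^ 3)
  let e : Fin (n * L ^ 3) ≃ Fin n × Fin (L ^ 3) := finProdFinEquiv.symm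
  obtain ⟨A, hA, hAd⟩ : ∃ A : Set (Fin n × Fin (L ^ 3) → Option α), LineFree A ∧
      d - ε < dens A := by
    refine ⟨{w | w ∘ e ∈ A₀}, hA₀.reindex e, ?_⟩
    rw [dens_reindex e]
    exact hA₀d
  have hT : 0 < L ^ 3 := by positivity
  have : Nonempty (Fin (L ^ 3)) := ⟨⟨0, hT⟩⟩
  have hL2' : 0 < L ^ 2 := by positivity
  have : Nonempty (Fin (L ^ 2)) := ⟨⟨0, hL2'⟩⟩
  have hΩcard : (Fintype.card (Pat (Option α) m L) : ℝ)
      = (Fintype.card (Option α) : ℝ) * L ^ 2 + m := by
    simp [Pat]
  -- random words are nearly uniform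
  have hclose : ∀ x : Fin m → Option α,
      |(𝔼 c : Fin n × Fin (L ^ 3) → Pat (Option α) m L,
        A.indicator (1 : (Fin n × Fin (L ^ 3) → Option α) → ℝ) (fun i => ev x (c i)))
        - dens A| ≤ ε := by
    intro x
    refine (expect_comp_close (ι := Fin n × Fin (L ^ 3)) (ev x) (A.indicator 1)
      (fun _ => ind_nonneg _ _) (fun _ => ind_le_one _ _) ((m : ℝ) / L ^ 2)
      (ev_close hL0 x)).trans ?_
    refine le_trans (le_of_eq ?_) hL1
    simp
  -- overwriting is harmless
  have hover : ∀ (w : Fin n → Pat (Option α) m L)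
      (G : Set (Fin n × Fin (L ^ 3) → Pat (Option α) m L)),
      dens G - ε ≤ 𝔼 s : Fin n → Fin (L ^ 3), 𝔼 c : Fin n × Fin (L ^ 3) → Pat (Option α) m L,
        G.indicator (1 : (Fin n × Fin (L ^ 3) → Pat (Option α) m L) → ℝ) (ovr univ s w c) := by
    intro w G
    have h1 := expect_ovr (T := Fin (L ^ 3)) w (G.indicator 1)
      (fun _ => ind_nonneg _ _) (fun _ => ind_le_one _ _) univ
    have h2 := (abs_le.1 h1).1
    simp only [card_univ, Fintype.card_fin] at h2
    rw [hΩcard] at h2
    unfold dens
    linarith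
  -- find the good line
  let Good : Line α (Fin m) → Set (Fin n × Fin (L ^ 3) → Pat (Option α) m L) :=
    fun ℓ => {c | ∀ a : α, (fun i => (pat ℓ (c i)).getD (some a)) ∈ A}
  obtain ⟨ℓ, hℓ⟩ : ∃ ℓ, θ ≤ dens (Good ℓ) := by
    have h1 : ∀ c : Fin n × Fin (L ^ 3) → Pat (Option α) m L,
        dens {x : Fin m → α | (fun i => ev (fun j => some (x j)) (c i)) ∈ A} - d / 4
          ≤ ∑ ℓ : Line α (Fin m), (Good ℓ).indicator
            (1 : (Fin n × Fin (L ^ 3) → Pat (Option α) m L) → ℝ) c := by
      intro c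
      by_cases hc : LineFree {x : Fin m → α | (fun i => ev (fun j => some (x j)) (c i)) ∈ A}
      · have h2 := hm _ hc
        have h3 : 0 ≤ ∑ ℓ : Line α (Fin m), (Good ℓ).indicator
            (1 : (Fin n × Fin (L ^ 3) → Pat (Option α) m L) → ℝ) c :=
          Finset.sum_nonneg fun _ _ => ind_nonneg _ _
        linarith
      · unfold LineFree at hc
        push Not at hc
        obtain ⟨ℓ, hℓ⟩ := hc
        have h2 : (Good ℓ).indicator
            (1 : (Fin n × Fin (L ^ 3) → Pat (Option α) m L) → ℝ) c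
            ≤ ∑ ℓ : Line α (Fin m), (Good ℓ).indicator
            (1 : (Fin n × Fin (L ^ 3) → Pat (Option α) m L) → ℝ) c :=
          Finset.single_le_sum (f := fun ℓ => (Good ℓ).indicator
            (1 : (Fin n × Fin (L ^ 3) → Pat (Option α) m L) → ℝ) c)
            (fun _ _ => ind_nonneg _ _) (mem_univ ℓ)
        have h3 : c ∈ Good ℓ := by
          intro a
          have := hℓ a
          simp only [pat_getD_some]
          exact this
        rw [Set.indicator_of_mem h3] at h2
        have h4 := dens_le_one {x : Fin m → α | (fun i => ev (fun j => some (x j)) (c i)) ∈ A}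
        simp only [Pi.one_apply] at h2
        linarith
    have h5 : d / 4 ≤ ∑ ℓ : Line α (Fin m), dens (Good ℓ) := by
      have h6 : 𝔼 c : Fin n × Fin (L ^ 3) → Pat (Option α) m L,
          (dens {x : Fin m → α | (fun i => ev (fun j => some (x j)) (c i)) ∈ A} - d / 4)
          ≤ 𝔼 c : Fin n × Fin (L ^ 3) → Pat (Option α) m L,
            ∑ ℓ : Line α (Fin m), (Good ℓ).indicator
            (1 : (Fin n × Fin (L ^ 3) → Pat (Option α) m L) → ℝ) c :=
        expect_le_expect fun c _ => h1 c
      rw [expect_sub_distrib, Fintype.expect_const, expect_sum_comm] at h6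
      have h7 : d - 2 * ε ≤ 𝔼 c : Fin n × Fin (L ^ 3) → Pat (Option α) m L,
          dens {x : Fin m → α | (fun i => ev (fun j => some (x j)) (c i)) ∈ A} := by
        unfold dens
        rw [expect_comm]
        refine le_expect univ_nonempty fun x _ => ?_
        have h8 := (abs_le.1 (hclose (fun j => some (x j)))).1
        have h9 : 𝔼 c : Fin n × Fin (L ^ 3) → Pat (Option α) m L,
            A.indicator (1 : (Fin n × Fin (L ^ 3) → Option α) → ℝ)
              (fun i => ev (fun j => some (x j)) (c i))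
            = 𝔼 c : Fin n × Fin (L ^ 3) → Pat (Option α) m L,
              ({x : Fin m → α | (fun i => ev (fun j => some (x j)) (c i)) ∈ A} :
                Set (Fin m → α)).indicator (1 : (Fin m → α) → ℝ) x := rfl
        rw [← h9]
        linarith
      unfold dens at h6 h7 ⊢
      linarith
    by_contra hcon2
    push Not at hcon2
    have h6 : ∑ ℓ : Line α (Fin m), dens (Good ℓ)
        ≤ ∑ ℓ : Line α (Fin m), θ :=
      Finset.sum_le_sum fun l _ => (hcon2 l).le
    rw [sum_const, card_univ, nsmul_eq_mul] at h6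
    have h7 : (Fintype.card (Line α (Fin m)) : ℝ) * θ < d / 4 := by
      rw [hθ, mul_div_assoc', div_lt_iff₀ (by positivity)]
      nlinarith
    linarith
  obtain ⟨j₀, hj₀⟩ := ℓ.proper
  -- the letters to be written
  let lam : Option α → Pat (Option α) m L
    | some b => Sum.inl (some b, ⟨0, hL2'⟩)
    | none => Sum.inr j₀
  have hlam_none : ∀ o : Option α, (pat ℓ (lam o)).getD none = o := by
    intro o
    cases o with
    | none => simp [lam, pat, hj₀]
    | some b => simp [lam, pat]
  have hlam_some : ∀ (o : Option α) (a : α), (pat ℓ (lam o)).getD (some a) = some (o.getD a) := by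
    intro o a
    cases o with
    | none => simp [lam, pat, hj₀]
    | some b => simp [lam, pat]
  let A2 : (Fin n → Fin (L ^ 3)) → (Fin n × Fin (L ^ 3) → Pat (Option α) m L) →
      Set (Fin n → Option α) :=
    fun s c => {w | (fun i => (pat ℓ (ovr univ s (fun j => lam (w j)) c i)).getD none) ∈ A}
  let E2 : (Fin n → Fin (L ^ 3)) → (Fin n × Fin (L ^ 3) → Pat (Option α) m L) → α →
      Set (Fin n → α) :=
    fun s c a => {y | (fun p : Fin n × Fin (L ^ 3) => if p.2 = s p.1 then some (y p.1)
      else (pat ℓ (c p)).getD (some a)) ∈ A}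
  have hA2 : ∀ s c, LineFree (A2 s c) := by
    intro s c
    let V : Subspace (Fin n) (Option α) (Fin n × Fin (L ^ 3)) :=
      { idxFun := fun p => if p.2 = s p.1 then Sum.inr p.1 else Sum.inl ((pat ℓ (c p)).getD none)
        proper := fun i => ⟨(i, s i), by simp⟩ }
    have hV : A2 s c = {w | V w ∈ A} := by
      ext w
      simp only [A2, Set.mem_ofPred_eq]
      have : (fun i => (pat ℓ (ovr univ s (fun j => lam (w j)) c i)).getD none) = V w := by
        funext p
        simp only [ovr, mem_univ, true_and, Subspace.coe_apply, V]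
        by_cases hp : p.2 = s p.1
        · rw [if_pos hp, if_pos hp, hlam_none]
          rfl
        · rw [if_neg hp, if_neg hp]
          rfl
      rw [this]
    rw [hV]
    exact hA.preimage V
  have hD2 : ∀ s c (w : Fin n → Option α), w ∈ interPull univ (E2 s c) ↔
      ovr univ s (fun j => lam (w j)) c ∈ Good ℓ := by
    intro s c w
    simp only [interPull, Finset.mem_univ, true_implies, Set.mem_ofPred_eq, pull, E2, Good]
    refine forall_congr' fun a => ?_
    have : (fun p : Fin n × Fin (L ^ 3) => if p.2 = s p.1 then some (col a w p.1)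
        else (pat ℓ (c p)).getD (some a))
        = fun i => (pat ℓ (ovr univ s (fun j => lam (w j)) c i)).getD (some a) := by
      funext p
      simp only [ovr, mem_univ, true_and]
      by_cases hp : p.2 = s p.1
      · rw [if_pos hp, if_pos hp, hlam_some]
        rfl
      · rw [if_neg hp, if_neg hp]
    rw [this]
  have hAD : ∀ s c, dens (A2 s c ∩ interPull univ (E2 s c)) ≤ ε := by
    intro s c
    refine le_trans ?_ ((dens_avoid (α := α) n).le.trans hnn)
    refine expect_le_expect fun w _ => ind_le_ind ?_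
    rintro ⟨hw1, hw2⟩ i hi
    rw [hD2] at hw2
    -- a line in `A`
    let l : Line (Option α) (Fin n × Fin (L ^ 3)) :=
      { idxFun := fun p => pat ℓ (ovr univ s (fun j => lam (w j)) c p)
        proper := ⟨(i, s i), by simp [ovr, hi, lam, pat, hj₀]⟩ }
    obtain ⟨κ, hκ⟩ := hA l
    apply hκ
    cases κ with
    | none => exact hw1
    | some a => exact hw2 a
  -- combine
  have h1 : ∀ s c, dens (A2 s c) ≤ d + 2 * ε - d * dens (interPull univ (E2 s c)) := by
    intro s c
    have h2 := hn₁ (Fin n) (by simp [hn]) (A2 s c) (hA2 s c) (E2 s c)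
    have h3 := hAD s c
    linarith
  have h2 : 𝔼 s : Fin n → Fin (L ^ 3), 𝔼 c : Fin n × Fin (L ^ 3) → Pat (Option α) m L,
      dens (A2 s c) ≤ d + 2 * ε - d * 𝔼 s : Fin n → Fin (L ^ 3),
        𝔼 c : Fin n × Fin (L ^ 3) → Pat (Option α) m L, dens (interPull univ (E2 s c)) := by
    have h3 : 𝔼 s : Fin n → Fin (L ^ 3), 𝔼 c : Fin n × Fin (L ^ 3) → Pat (Option α) m L,
        dens (A2 s c) ≤ 𝔼 s : Fin n → Fin (L ^ 3),
          𝔼 c : Fin n × Fin (L ^ 3) → Pat (Option α) m L,
            (d + 2 * ε - d * dens (interPull univ (E2 s c))) :=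
      expect_le_expect fun s _ => expect_le_expect fun c _ => h1 s c
    simpa only [expect_sub_distrib, ← mul_expect, Fintype.expect_const] using h3
  have h3 : d - 3 * ε ≤ 𝔼 s : Fin n → Fin (L ^ 3),
      𝔼 c : Fin n × Fin (L ^ 3) → Pat (Option α) m L, dens (A2 s c) := by
    have h4 : 𝔼 s : Fin n → Fin (L ^ 3), 𝔼 c : Fin n × Fin (L ^ 3) → Pat (Option α) m L,
        dens (A2 s c) = 𝔼 w : Fin n → Option α, 𝔼 s : Fin n → Fin (L ^ 3),
          𝔼 c : Fin n × Fin (L ^ 3) → Pat (Option α) m L,
            (A2 s c).indicator (1 : (Fin n → Option α) → ℝ) w := by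
      unfold dens
      rw [expect_comm (univ : Finset (Fin n → Option α))]
      refine expect_congr rfl fun s _ => ?_
      rw [expect_comm]
    rw [h4]
    refine le_expect univ_nonempty fun w _ => ?_
    have h5 := hover (fun j => lam (w j))
      {c | (fun i => (pat ℓ (c i)).getD none) ∈ A}
    have h6 : dens A - ε ≤ dens ({c | (fun i => (pat ℓ (c i)).getD none) ∈ A} :
        Set (Fin n × Fin (L ^ 3) → Pat (Option α) m L)) := by
      have h7 := (abs_le.1 (hclose ℓ.idxFun)).1
      have h8 : dens ({c | (fun i => (pat ℓ (c i)).getD none) ∈ A} :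
          Set (Fin n × Fin (L ^ 3) → Pat (Option α) m L))
          = 𝔼 c : Fin n × Fin (L ^ 3) → Pat (Option α) m L,
            A.indicator (1 : (Fin n × Fin (L ^ 3) → Option α) → ℝ)
              (fun i => ev ℓ.idxFun (c i)) := by
        simp only [pat_getD_none]
        rfl
      linarith
    refine le_trans ?_ h5
    linarith
  have h4 : θ - ε ≤ 𝔼 s : Fin n → Fin (L ^ 3),
      𝔼 c : Fin n × Fin (L ^ 3) → Pat (Option α) m L, dens (interPull univ (E2 s c)) := by
    have h4 : 𝔼 s : Fin n → Fin (L ^ 3), 𝔼 c : Fin n × Fin (L ^ 3) → Pat (Option α) m L,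
        dens (interPull univ (E2 s c)) = 𝔼 w : Fin n → Option α, 𝔼 s : Fin n → Fin (L ^ 3),
          𝔼 c : Fin n × Fin (L ^ 3) → Pat (Option α) m L,
            (interPull univ (E2 s c)).indicator (1 : (Fin n → Option α) → ℝ) w := by
      unfold dens
      rw [expect_comm (univ : Finset (Fin n → Option α))]
      refine expect_congr rfl fun s _ => ?_
      rw [expect_comm]
    rw [h4]
    refine le_expect univ_nonempty fun w _ => ?_
    have h5 := hover (fun j => lam (w j)) (Good ℓ)
    refine le_trans (by linarith : θ - ε ≤ dens (Good ℓ) - ε) (h5.trans ?_)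
    refine expect_le_expect fun s _ => expect_le_expect fun c _ =>
      ind_le_ind fun h => ?_
    exact (hD2 s c w).2 h
  -- the contradiction
  have h5 : d * (θ - ε) ≤ d * 𝔼 s : Fin n → Fin (L ^ 3),
      𝔼 c : Fin n × Fin (L ^ 3) → Pat (Option α) m L, dens (interPull univ (E2 s c)) := by
    gcongr
  have h6 : d * ε ≤ ε := by nlinarith
  have h7 : d * θ = 8 * ε := by rw [hε]; ring
  nlinarith

/-- The statement for an alphabet with one letter. -/
lemma densLine_of_subsingleton {K : Type} [Fintype K] [Nonempty K] [Subsingleton K] :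
    DensLine K := by
  intro δ hδ
  refine ⟨1, fun A hA => ?_⟩
  obtain ⟨x, hx⟩ := hA (Line.diagonal K (Fin 1))
  have h1 : A = ∅ := by
    rw [Set.eq_empty_iff_forall_notMem]
    intro w hw
    apply hx
    have : Line.diagonal K (Fin 1) x = w := Subsingleton.elim _ _
    rw [this]
    exact hw
  subst h1
  have : dens (∅ : Set (Fin 1 → K)) = 0 := by simp [dens]
  rw [this]
  exact hδ.le

lemma DensLine.congr {K K' : Type} [Fintype K] [Fintype K'] (e : K ≃ K') (h : DensLine K) :
    DensLine K' := by
  intro δ hδ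
  obtain ⟨N, hN⟩ := h δ hδ
  refine ⟨N, fun A hA => ?_⟩
  have h1 := hN {w | e ∘ w ∈ A} (fun l => by
    obtain ⟨x, hx⟩ := hA (l.map e)
    refine ⟨e.symm x, fun hcon => hx ?_⟩
    have h2 : (l.map e) x = e ∘ l (e.symm x) := by
      have := l.map_apply e (e.symm x)
      rwa [e.apply_symm_apply] at this
    rw [h2]
    exact hcon)
  refine le_trans (le_of_eq ?_) h1
  unfold dens
  refine (Fintype.expect_equiv (Equiv.arrowCongr (Equiv.refl (Fin N)) e) _ _ fun w => ?_).symm
  rfl

/-- **The density Hales-Jewett theorem.** For every finite nonempty alphabet `K` and every `δ > 0`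
there is an `N` such that every set of words of length `N` over `K` of density greater than `δ`
contains a combinatorial line. -/
theorem densLine (K : Type) [Fintype K] [Nonempty K] : DensLine K := by
  classical
  have key : ∀ n : ℕ, DensLine (Fin (n + 1)) := by
    intro n
    induction n with
    | zero => exact densLine_of_subsingleton (K := Fin 1)
    | succ n ih =>
      have h1 : DensLine (Option (Fin (n + 1))) := densLine_option ih
      exact h1.congr (finSuccEquiv (n + 1)).symm
  obtain ⟨n, hn⟩ : ∃ n, Fintype.card K = n + 1 :=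
    ⟨Fintype.card K - 1, by have := Fintype.card_pos (α := K); omega⟩
  exact (key n).congr (Fintype.equivOfCardEq (by simp [hn]))

end Pool.Agent.LibH66
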