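import Mathlib

set_option autoImplicit false

open Finset Function Combinatorics
open scoped BigOperators

namespace Pool.Agent.LibH66

/-! ### Averages and densities -/

/-- The density of a subset of a finite type. -/
noncomputable def dens {X : Type} [Fintype X] (A : Set X) : ℝ :=
  𝔼 x : X, A.indicator (1 : X → ℝ) x

lemma ind_nonneg {X : Type} (A : Set X) (x : X) : 0 ≤ A.indicator (1 : X → ℝ) x :=
  Set.indicator_nonneg (fun _ _ => zero_le_one) x

lemma ind_le_one {X : Type} (A : Set X) (x : X) : A.indicator (1 : X → ℝ) x ≤ 1 :=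
  Set.indicator_le_self' (fun _ _ => zero_le_one) x

lemma dens_nonneg {X : Type} [Fintype X] (A : Set X) : 0 ≤ dens A :=
  expect_nonneg fun _ _ => ind_nonneg A _

lemma dens_le_one {X : Type} [Fintype X] [Nonempty X] (A : Set X) : dens A ≤ 1 :=
  expect_le univ_nonempty fun _ _ => ind_le_one A _

/-- Resampling one coordinate. -/
lemma expect_resample {ι Ω : Type} [Fintype ι] [DecidableEq ι] [Fintype Ω] [Nonempty Ω]
    (H : (ι → Ω) → ℝ) (i : ι) :
    𝔼 c : ι → Ω, 𝔼 ω : Ω, H (update c i ω) = 𝔼 c : ι → Ω, H c := by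
  classical
  have key : ∑ p : (ι → Ω) × Ω, H (update p.1 i p.2) = ∑ p : (ι → Ω) × Ω, H p.1 := by
    let e : (ι → Ω) × Ω → (ι → Ω) × Ω := fun p => (update p.1 i p.2, p.1 i)
    have he : Involutive e := by
      rintro ⟨c, ω⟩
      simp [e]
    exact Fintype.sum_equiv he.toPerm _ _ (fun p => rfl)
  rw [Fintype.sum_prod_type, Fintype.sum_prod_type] at key
  have hΩ : (Fintype.card Ω : ℝ) ≠ 0 := by exact_mod_cast Fintype.card_ne_zero
  simp only [Fintype.expect_eq_sum_div_card]
  rw [← Finset.sum_div, key]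
  simp only [sum_const, card_univ, nsmul_eq_mul]
  rw [← Finset.mul_sum]
  field_simp

/-- The average of a function at a point whose `i`-th coordinate is overwritten. -/
lemma expect_update {ι Ω : Type} [Fintype ι] [DecidableEq ι] [Fintype Ω] [DecidableEq Ω]
    [Nonempty Ω] (G : (ι → Ω) → ℝ) (i : ι) (ω : Ω) :
    𝔼 c : ι → Ω, G (update c i ω)
      = 𝔼 c : ι → Ω, (Fintype.card Ω : ℝ) * (if c i = ω then 1 else 0) * G c := by
  have h := expect_resample (fun c : ι → Ω => (Fintype.card Ω : ℝ) * (if c i = ω then 1 else 0) * G c) i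
  rw [← h]
  refine expect_congr rfl fun c _ => ?_
  have hΩ : (Fintype.card Ω : ℝ) ≠ 0 := by exact_mod_cast Fintype.card_ne_zero
  simp only [update_self]
  rw [Fintype.expect_eq_sum_div_card]
  rw [Finset.sum_eq_single ω]
  · simp
  · intro b _ hb
    simp [hb]
  · simp

/-- The second moment of the normalised count of a letter among the coordinates of a block. -/
lemma expect_block_sq {ι Ω T : Type} [Fintype ι] [DecidableEq ι] [Fintype Ω] [DecidableEq Ω]
    [Nonempty Ω] [Fintype T] [DecidableEq T] [Nonempty T] (pos : T → ι) (hpos : Injective pos)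
    (ω : Ω) :
    𝔼 c : ι → Ω, ((𝔼 t : T, (Fintype.card Ω : ℝ) * (if c (pos t) = ω then 1 else 0)) - 1) ^ 2
      ≤ (Fintype.card Ω : ℝ) / Fintype.card T := by
  have hΩ : (0 : ℝ) < Fintype.card Ω := by exact_mod_cast Fintype.card_pos
  have hT : (0 : ℝ) < Fintype.card T := by exact_mod_cast Fintype.card_pos
  set K : ℝ := (Fintype.card Ω : ℝ) with hK
  -- first moment
  have h1 : ∀ i : ι, 𝔼 c : ι → Ω, K * (if c i = ω then 1 else 0) = 1 := by
    intro i
    have := expect_update (fun _ : ι → Ω => (1 : ℝ)) i ω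
    simp only [mul_one] at this
    rw [← this, Fintype.expect_const]
  -- second moments
  have h2 : ∀ t t' : T, 𝔼 c : ι → Ω, (K * (if c (pos t) = ω then 1 else 0)) *
      (K * (if c (pos t') = ω then 1 else 0)) = if t = t' then K else 1 := by
    intro t t'
    rw [← expect_update (fun c : ι → Ω => K * (if c (pos t') = ω then 1 else 0)) (pos t) ω]
    by_cases h : t = t'
    · subst h
      simp
    · have hne : pos t' ≠ pos t := fun h' => h (hpos h').symm
      simp only [ne_eq, hne, not_false_eq_true, update_of_ne, h, if_false]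
      exact h1 (pos t')
  have hZ1 : 𝔼 c : ι → Ω, (𝔼 t : T, K * (if c (pos t) = ω then 1 else 0)) = 1 := by
    rw [expect_comm]
    simp only [h1]
    exact Fintype.expect_const _
  have hZ2 : 𝔼 c : ι → Ω, (𝔼 t : T, K * (if c (pos t) = ω then 1 else 0)) ^ 2
      = 1 + (K - 1) / Fintype.card T := by
    have : ∀ c : ι → Ω, (𝔼 t : T, K * (if c (pos t) = ω then 1 else 0)) ^ 2
        = 𝔼 t : T, 𝔼 t' : T, (K * (if c (pos t) = ω then 1 else 0)) *
          (K * (if c (pos t') = ω then 1 else 0)) := by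
      intro c
      rw [sq, expect_mul]
      refine expect_congr rfl fun t _ => ?_
      rw [mul_expect]
    simp only [this]
    rw [expect_comm]
    have : ∀ t : T, 𝔼 c : ι → Ω, 𝔼 t' : T, (K * (if c (pos t) = ω then 1 else 0)) *
          (K * (if c (pos t') = ω then 1 else 0)) = 1 + (K - 1) / Fintype.card T := by
      intro t
      rw [expect_comm]
      simp only [h2]
      have : ∀ t' : T, (if t = t' then K else 1) = 1 + (K - 1) * (if t = t' then (1:ℝ) else 0) := by
        intro t'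
        split_ifs <;> ring
      simp only [this]
      rw [expect_add_distrib, Fintype.expect_const, ← mul_expect, Fintype.expect_ite_eq]
      simp [div_eq_mul_inv, NNRat.smul_def]
    simp only [this]
    exact Fintype.expect_const _
  have : ∀ c : ι → Ω, ((𝔼 t : T, K * (if c (pos t) = ω then 1 else 0)) - 1) ^ 2
      = (𝔼 t : T, K * (if c (pos t) = ω then 1 else 0)) ^ 2
        - 2 * (𝔼 t : T, K * (if c (pos t) = ω then 1 else 0)) + 1 := by
    intro c; ring
  simp only [this]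
  rw [expect_add_distrib, expect_sub_distrib, ← mul_expect, hZ1, hZ2, Fintype.expect_const]
  rw [show (1 + (K - 1) / (Fintype.card T : ℝ) - 2 * 1 + 1) = (K - 1) / Fintype.card T by ring]
  gcongr
  linarith

/-- Overwriting one random coordinate of a block by a fixed letter changes the average of a
bounded function by little. -/
lemma expect_overwrite_one {ι Ω T : Type} [Fintype ι] [DecidableEq ι] [Fintype Ω] [DecidableEq Ω]
    [Nonempty Ω] [Fintype T] [DecidableEq T] [Nonempty T] (pos : T → ι) (hpos : Injective pos)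
    (ω : Ω) (G : (ι → Ω) → ℝ) (hG0 : ∀ c, 0 ≤ G c) (hG1 : ∀ c, G c ≤ 1) :
    |(𝔼 t : T, 𝔼 c : ι → Ω, G (update c (pos t) ω)) - 𝔼 c : ι → Ω, G c|
      ≤ √((Fintype.card Ω : ℝ) / Fintype.card T) := by
  set Z : (ι → Ω) → ℝ := fun c => 𝔼 t : T, (Fintype.card Ω : ℝ) * (if c (pos t) = ω then 1 else 0)
    with hZ
  have h1 : (𝔼 t : T, 𝔼 c : ι → Ω, G (update c (pos t) ω)) = 𝔼 c : ι → Ω, Z c * G c := by
    simp only [expect_update, hZ]
    rw [expect_comm]
    refine expect_congr rfl fun c _ => ?_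
    rw [expect_mul]
  have h2 : (𝔼 c : ι → Ω, Z c * G c) - 𝔼 c : ι → Ω, G c = 𝔼 c : ι → Ω, G c * (Z c - 1) := by
    rw [← expect_sub_distrib]
    refine expect_congr rfl fun c _ => ?_
    ring
  rw [h1, h2]
  apply Real.abs_le_sqrt
  refine (expect_mul_sq_le_sq_mul_sq _ _ _).trans ?_
  have h3 : 𝔼 c : ι → Ω, G c ^ 2 ≤ 1 :=
    expect_le univ_nonempty fun c _ => pow_le_one₀ (hG0 c) (hG1 c)
  have h4 := expect_block_sq pos hpos ω
  have h5 : 0 ≤ 𝔼 c : ι → Ω, (Z c - 1) ^ 2 := expect_nonneg fun c _ => sq_nonneg _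
  calc (𝔼 c : ι → Ω, G c ^ 2) * 𝔼 c : ι → Ω, (Z c - 1) ^ 2
      ≤ 1 * 𝔼 c : ι → Ω, (Z c - 1) ^ 2 := by gcongr
    _ = 𝔼 c : ι → Ω, (Z c - 1) ^ 2 := one_mul _
    _ ≤ _ := h4

/-- Overwrite, in each block `j ∈ S`, the coordinate `s j` by the letter `w j`. -/
def ovr {J T Ω : Type} [DecidableEq J] [DecidableEq T] (S : Finset J) (s : J → T) (w : J → Ω)
    (c : J × T → Ω) : J × T → Ω :=
  fun p => if p.1 ∈ S ∧ p.2 = s p.1 then w p.1 else c p

lemma ovr_insert {J T Ω : Type} [DecidableEq J] [DecidableEq T] (S : Finset J) (j : J)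
    (hj : j ∉ S) (s : J → T) (w : J → Ω) (c : J × T → Ω) :
    ovr (insert j S) s w c = ovr S s w (update c (j, s j) (w j)) := by
  funext p
  obtain ⟨i, t⟩ := p
  unfold ovr
  by_cases hi : i = j
  · subst hi
    by_cases ht : t = s i
    · subst ht
      simp [hj]
    · have : ((i, t) : J × T) ≠ (i, s i) := fun h => ht (congrArg Prod.snd h)
      simp [hj, ht]
  · have : ((i, t) : J × T) ≠ (j, s j) := fun h => hi (congrArg Prod.fst h)
    simp [hi]

lemma ovr_update {J T Ω : Type} [DecidableEq J] [DecidableEq T] (S : Finset J) (j : J)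
    (hj : j ∉ S) (s : J → T) (t : T) (w : J → Ω) (c : J × T → Ω) :
    ovr S (update s j t) w c = ovr S s w c := by
  funext p
  obtain ⟨i, u⟩ := p
  unfold ovr
  by_cases hi : i ∈ S
  · have : i ≠ j := fun h => hj (h ▸ hi)
    simp [this]
  · simp [hi]

/-- Overwriting one random coordinate in each of several blocks changes the average of a bounded
function by little. -/
lemma expect_ovr {J T Ω : Type} [Fintype J] [DecidableEq J] [Fintype T] [DecidableEq T]
    [Nonempty T] [Fintype Ω] [DecidableEq Ω] [Nonempty Ω] (w : J → Ω)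
    (G : (J × T → Ω) → ℝ) (hG0 : ∀ c, 0 ≤ G c) (hG1 : ∀ c, G c ≤ 1) (S : Finset J) :
    |(𝔼 s : J → T, 𝔼 c : J × T → Ω, G (ovr S s w c)) - 𝔼 c : J × T → Ω, G c|
      ≤ #S * √((Fintype.card Ω : ℝ) / Fintype.card T) := by
  induction S using Finset.induction_on with
  | empty =>
    have : ∀ (s : J → T) (c : J × T → Ω), ovr ∅ s w c = c := by
      intro s c; funext p; simp [ovr]
    simp [this]
  | insert j S hj ih =>
    have h1 : (𝔼 s : J → T, 𝔼 c : J × T → Ω, G (ovr (insert j S) s w c))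
        = 𝔼 s : J → T, 𝔼 t : T, 𝔼 c : J × T → Ω, G (ovr S s w (update c (j, t) (w j))) := by
      rw [← expect_resample (fun s : J → T => 𝔼 c : J × T → Ω, G (ovr (insert j S) s w c)) j]
      refine expect_congr rfl fun s _ => expect_congr rfl fun t _ => expect_congr rfl fun c _ => ?_
      rw [ovr_insert S j hj, update_self, ovr_update S j hj]
    have h2 : |(𝔼 s : J → T, 𝔼 t : T, 𝔼 c : J × T → Ω, G (ovr S s w (update c (j, t) (w j))))
        - 𝔼 s : J → T, 𝔼 c : J × T → Ω, G (ovr S s w c)|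
        ≤ √((Fintype.card Ω : ℝ) / Fintype.card T) := by
      rw [← expect_sub_distrib]
      refine (abs_expect_le _ _).trans ?_
      refine expect_le univ_nonempty fun s _ => ?_
      exact expect_overwrite_one (fun t : T => ((j, t) : J × T))
        (fun a b h => congrArg Prod.snd h) (w j) (fun c => G (ovr S s w c))
        (fun c => hG0 _) (fun c => hG1 _)
    rw [h1, card_insert_of_notMem hj]
    push_cast
    have := abs_sub_le (𝔼 s : J → T, 𝔼 t : T, 𝔼 c : J × T → Ω, G (ovr S s w (update c (j, t) (w j))))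
      (𝔼 s : J → T, 𝔼 c : J × T → Ω, G (ovr S s w c)) (𝔼 c : J × T → Ω, G c)
    linarith

lemma expect_prod_pow {ι K : Type} [Fintype ι] [DecidableEq ι] [Fintype K] (f : K → ℝ) :
    𝔼 z : ι → K, ∏ i, f (z i) = (𝔼 b : K, f b) ^ Fintype.card ι := by
  classical
  rw [Fintype.expect_eq_sum_div_card, Fintype.expect_eq_sum_div_card, div_pow]
  congr 1
  · have := Finset.prod_univ_sum (fun _ : ι => (univ : Finset K)) (fun _ b => f b)
    rw [Fintype.piFinset_univ] at this
    rw [← this]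
    simp
  · simp

/-- Pushing the uniform measure on `ι → Ω` forward along a map of letters. -/
lemma expect_comp {ι K Ω : Type} [Fintype ι] [DecidableEq ι] [Fintype K] [DecidableEq K]
    [Nonempty K] [Fintype Ω] [Nonempty Ω] (g : Ω → K) (F : (ι → K) → ℝ) :
    𝔼 c : ι → Ω, F (fun i => g (c i)) =
      𝔼 z : ι → K, (∏ i, ((Fintype.card K : ℝ) * #{ω | g ω = z i} / Fintype.card Ω)) * F z := by
  classical
  rw [Fintype.expect_eq_sum_div_card, Fintype.expect_eq_sum_div_card]
  have hK : (Fintype.card K : ℝ) ≠ 0 := by exact_mod_cast Fintype.card_ne_zero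
  have hΩ : (Fintype.card Ω : ℝ) ≠ 0 := by exact_mod_cast Fintype.card_ne_zero
  have h1 : ∑ c : ι → Ω, F (fun i => g (c i))
      = ∑ z : ι → K, (∏ i, (#{ω | g ω = z i} : ℝ)) * F z := by
    rw [← Finset.sum_fiberwise (s := (univ : Finset (ι → Ω))) (g := fun c i => g (c i))]
    refine Finset.sum_congr rfl fun z _ => ?_
    have : ∀ c ∈ ({c | (fun i => g (c i)) = z} : Finset (ι → Ω)), F (fun i => g (c i)) = F z := by
      intro c hc
      rw [(mem_filter.1 hc).2]
    rw [Finset.sum_congr rfl this, sum_const, nsmul_eq_mul]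
    congr 1
    rw [show ({c | (fun i => g (c i)) = z} : Finset (ι → Ω))
      = Fintype.piFinset (fun i => ({ω | g ω = z i} : Finset Ω)) by
        ext c; simp [funext_iff]]
    rw [Fintype.card_piFinset]
    push_cast
    rfl
  rw [h1]
  have h2 : ∀ z : ι → K, ∏ i, ((Fintype.card K : ℝ) * #{ω | g ω = z i} / Fintype.card Ω)
      = (Fintype.card K : ℝ) ^ Fintype.card ι / (Fintype.card Ω : ℝ) ^ Fintype.card ι *
        ∏ i, (#{ω | g ω = z i} : ℝ) := by
    intro z
    rw [Finset.prod_div_distrib, Finset.prod_mul_distrib]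
    simp
    ring
  simp only [h2, mul_assoc]
  rw [← Finset.mul_sum]
  simp
  field_simp

lemma expect_prod_sub_one_sq {ι K : Type} [Fintype ι] [DecidableEq ι] [Fintype K]
    [Nonempty K] (ρ : K → ℝ) (hρ1 : 𝔼 b : K, ρ b = 1) :
    𝔼 z : ι → K, ((∏ i, ρ (z i)) - 1) ^ 2 = (𝔼 b : K, ρ b ^ 2) ^ Fintype.card ι - 1 := by
  have : ∀ z : ι → K, ((∏ i, ρ (z i)) - 1) ^ 2
      = (∏ i, ρ (z i) ^ 2) - 2 * (∏ i, ρ (z i)) + 1 := by
    intro z
    rw [Finset.prod_pow]
    ring
  rw [expect_congr rfl (fun z _ => this z)]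
  rw [expect_add_distrib, expect_sub_distrib, ← mul_expect, expect_prod_pow ρ,
    expect_prod_pow (fun b => ρ b ^ 2), hρ1, Fintype.expect_const, one_pow]
  ring

lemma expect_sq_le_of_close {K : Type} [Fintype K] [Nonempty K] (ρ : K → ℝ)
    (hρ1 : 𝔼 b : K, ρ b = 1) (y : ℝ) (hy : ∀ b : K, |ρ b - 1| ≤ y) :
    𝔼 b : K, ρ b ^ 2 ≤ 1 + y ^ 2 := by
  have : ∀ b, ρ b ^ 2 = (ρ b - 1) ^ 2 + 2 * ρ b - 1 := by intro b; ring
  rw [expect_congr rfl (fun z _ => this z)]
  rw [expect_sub_distrib, expect_add_distrib, ← mul_expect, hρ1, Fintype.expect_const]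
  have : 𝔼 b : K, (ρ b - 1) ^ 2 ≤ y ^ 2 := by
    refine expect_le univ_nonempty fun b _ => ?_
    rw [← sq_abs]
    have := hy b
    gcongr
  linarith

/-- If the image of the uniform measure under a map of letters is nearly uniform then the average
of a bounded function over random words changes by little. -/
lemma expect_comp_close {ι K Ω : Type} [Fintype ι] [DecidableEq ι] [Fintype K] [DecidableEq K]
    [Nonempty K] [Fintype Ω] [Nonempty Ω] (g : Ω → K) (F : (ι → K) → ℝ)
    (hF0 : ∀ z, 0 ≤ F z) (hF1 : ∀ z, F z ≤ 1) (y : ℝ)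
    (hy : ∀ b : K, |(Fintype.card K : ℝ) * #{ω | g ω = b} / Fintype.card Ω - 1| ≤ y) :
    |(𝔼 c : ι → Ω, F (fun i => g (c i))) - 𝔼 z : ι → K, F z|
      ≤ √((1 + y ^ 2) ^ Fintype.card ι - 1) := by
  have hK : (0 : ℝ) < (Fintype.card K : ℝ) := by exact_mod_cast Fintype.card_pos
  have hΩ : (0 : ℝ) < (Fintype.card Ω : ℝ) := by exact_mod_cast Fintype.card_pos
  rw [expect_comp g F]
  obtain ⟨ρ, hρ⟩ : ∃ ρ : K → ℝ, ρ = fun b =>
    (Fintype.card K : ℝ) * #{ω | g ω = b} / Fintype.card Ω := ⟨_, rfl⟩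
  have hρ1 : 𝔼 b : K, ρ b = 1 := by
    rw [Fintype.expect_eq_sum_div_card]
    simp only [hρ]
    rw [← Finset.sum_div, ← Finset.mul_sum]
    have : (∑ b : K, (#{ω | g ω = b} : ℝ)) = Fintype.card Ω := by
      rw [← Nat.cast_sum, ← Finset.card_eq_sum_card_fiberwise (f := g) (s := univ) (t := univ)
        (fun _ _ => by simp)]
      simp
    rw [this]
    field_simp
  have hy' : ∀ b : K, |ρ b - 1| ≤ y := by
    intro b
    rw [hρ]
    exact hy b
  have hρ2 : 𝔼 b : K, ρ b ^ 2 ≤ 1 + y ^ 2 := expect_sq_le_of_close ρ hρ1 y hy'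
  have hρ' : ∀ z : ι → K, (∏ i, ((Fintype.card K : ℝ) * #{ω | g ω = z i} / Fintype.card Ω))
      = ∏ i, ρ (z i) := by
    intro z
    rw [hρ]
  simp only [hρ']
  clear hρ hy hρ' hy'
  have h2 : (𝔼 z : ι → K, (∏ i, ρ (z i)) * F z) - 𝔼 z : ι → K, F z
      = 𝔼 z : ι → K, F z * ((∏ i, ρ (z i)) - 1) := by
    rw [← expect_sub_distrib]
    refine expect_congr rfl fun z _ => ?_
    ring
  rw [h2]
  apply Real.abs_le_sqrt
  refine (expect_mul_sq_le_sq_mul_sq _ _ _).trans ?_
  have h3 : 𝔼 z : ι → K, F z ^ 2 ≤ 1 :=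
    expect_le univ_nonempty fun c _ => pow_le_one₀ (hF0 c) (hF1 c)
  have h5 : 0 ≤ 𝔼 z : ι → K, ((∏ i, ρ (z i)) - 1) ^ 2 := expect_nonneg fun c _ => sq_nonneg _
  have h6 : 𝔼 z : ι → K, ((∏ i, ρ (z i)) - 1) ^ 2 ≤ (1 + y ^ 2) ^ Fintype.card ι - 1 := by
    rw [expect_prod_sub_one_sq ρ hρ1]
    have : (𝔼 b : K, ρ b ^ 2) ^ Fintype.card ι ≤ (1 + y ^ 2) ^ Fintype.card ι := by
      gcongr
    linarith
  calc (𝔼 z : ι → K, F z ^ 2) * 𝔼 z : ι → K, ((∏ i, ρ (z i)) - 1) ^ 2
      ≤ 1 * 𝔼 z : ι → K, ((∏ i, ρ (z i)) - 1) ^ 2 := by gcongr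
    _ = 𝔼 z : ι → K, ((∏ i, ρ (z i)) - 1) ^ 2 := one_mul _
    _ ≤ _ := h6

end Pool.Agent.LibH66
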