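import Pool.Agent.Lib_helper66.DHJLines

set_option autoImplicit false

open Finset Function Combinatorics
open scoped BigOperators

namespace Pool.Agent.LibH66

/-! ### Insensitive sets -/

/-- Replace the extra letter `none` by `b`. -/
def col {α ι : Type} (b : α) (w : ι → Option α) : ι → α := fun i => (w i).getD b

/-- The set of words over `Option α` that lie in `E` after the extra letter is replaced by `b`;
these are the `(b, none)`-insensitive sets. -/
def pull {α ι : Type} (b : α) (E : Set (ι → α)) : Set (ι → Option α) := {w | col b w ∈ E}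

lemma col_elim {α ι₁ ι₂ : Type} (b : α) (x : ι₁ → Option α) (y : ι₂ → Option α) :
    col b (Sum.elim x y) = Sum.elim (col b x) (col b y) := by
  funext i
  cases i <;> rfl

/-- Change the alphabet of the constants of a subspace. -/
def mapSub {α K η ι : Type} (g : α → K) (V : Subspace η α ι) : Subspace η K ι where
  idxFun i := (V.idxFun i).map g id
  proper e := by
    obtain ⟨i, hi⟩ := V.proper e
    exact ⟨i, by simp [hi]⟩

/-- A dense insensitive set in high dimension contains a subspace of given dimension. -/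
lemma exists_subspace_pull {α : Type} [Fintype α] [DecidableEq α] [Nonempty α] (M : ℕ)
    (hα : DensSub α M) (b : α) (γ : ℝ) (hγ : 0 < γ) :
    ∃ N : ℕ, ∀ E : Set (Fin N → α), γ ≤ dens (pull b E) →
      ∃ V : Subspace (Fin M) (Option α) (Fin N), ∀ x, V x ∈ pull b E := by
  classical
  obtain ⟨n, hn⟩ := hα (γ / 2) (by linarith)
  -- choose the block length
  obtain ⟨T, hT0, hT⟩ : ∃ T : ℕ, 0 < T ∧
      (n : ℝ) * √((Fintype.card (Option α) : ℝ) / T) ≤ γ / 2 := by
    have h1 : Filter.Tendsto (fun T : ℕ => (n : ℝ) * √((Fintype.card (Option α) : ℝ) / T))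
        Filter.atTop (nhds ((n : ℝ) * √0)) := by
      refine Filter.Tendsto.const_mul _ ?_
      refine (Real.continuous_sqrt.tendsto _).comp ?_
      exact tendsto_const_div_atTop_nhds_zero_nat _
    rw [Real.sqrt_zero, mul_zero] at h1
    have h2 := h1.eventually (ge_mem_nhds (by linarith : (0 : ℝ) < γ / 2))
    obtain ⟨T, hT1, hT2⟩ := (h2.and (Filter.eventually_gt_atTop 0)).exists
    exact ⟨T, hT2, hT1⟩
  have : Nonempty (Fin T) := ⟨⟨0, hT0⟩⟩
  refine ⟨n * T, fun E hE => ?_⟩
  let e : Fin (n * T) ≃ Fin n × Fin T := finProdFinEquiv.symm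
  set E' : Set (Fin n × Fin T → Option α) := {w | w ∘ e ∈ pull b E} with hE'
  have hdE' : γ ≤ dens E' := by rw [hE', dens_reindex e]; exact hE
  -- random copy of `Fin n → α`
  let G : (Fin n × Fin T → Option α) → ℝ := E'.indicator 1
  have h1 : ∀ w : Fin n → α, γ / 2 ≤ 𝔼 s : Fin n → Fin T, 𝔼 c : Fin n × Fin T → Option α,
      G (ovr univ s (fun i => some (w i)) c) := by
    intro w
    have h2 := expect_ovr (T := Fin T) (fun i => some (w i)) G (fun c => ind_nonneg _ _)
      (fun c => ind_le_one _ _) univ
    have h3 := (abs_le.1 h2).1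
    simp only [card_univ, Fintype.card_fin] at h3
    have h4 : γ ≤ 𝔼 c : Fin n × Fin T → Option α, G c := hdE'
    linarith
  have h2 : γ / 2 ≤ 𝔼 s : Fin n → Fin T, 𝔼 c : Fin n × Fin T → Option α,
      dens {w : Fin n → α | ovr univ s (fun i => some (w i)) c ∈ E'} := by
    have h3 : γ / 2 ≤ 𝔼 w : Fin n → α, 𝔼 s : Fin n → Fin T, 𝔼 c : Fin n × Fin T → Option α,
        G (ovr univ s (fun i => some (w i)) c) := le_expect univ_nonempty fun w _ => h1 w
    rw [expect_comm] at h3
    refine h3.trans (expect_le_expect fun s _ => ?_)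
    rw [expect_comm]
    exact le_of_eq rfl
  obtain ⟨s, -, hs⟩ := exists_le_of_le_expect univ_nonempty h2
  obtain ⟨c, -, hc⟩ := exists_le_of_le_expect univ_nonempty hs
  obtain ⟨V₀, hV₀⟩ := hn _ hc
  let V : Subspace (Fin M) (Option α) (Fin n × Fin T) :=
    { idxFun := fun p => if p.2 = s p.1 then (V₀.idxFun p.1).map some id else Sum.inl (c p)
      proper := by
        intro m
        obtain ⟨i, hi⟩ := V₀.proper m
        exact ⟨(i, s i), by simp [hi]⟩ }
  refine ⟨V.reindex (Equiv.refl _) (Equiv.refl _) e.symm, fun x => ?_⟩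
  have h5 : (V.reindex (Equiv.refl _) (Equiv.refl _) e.symm) x = V x ∘ e := by
    funext i
    simp [Subspace.reindex_apply]
  rw [h5]
  have h6 := hV₀ (col b x)
  simp only [Set.mem_ofPred_eq, hE', pull] at h6 ⊢
  have h7 : col b (V x ∘ e) = col b (ovr univ s (fun i => some (V₀ (col b x) i)) c ∘ e) := by
    funext i
    simp only [col, comp_apply, Subspace.coe_apply, V, ovr, mem_univ, true_and]
    by_cases h8 : (e i).2 = s (e i).1
    · rw [if_pos h8, if_pos h8]
      cases h9 : V₀.idxFun (e i).1 <;> simp [col]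
    · rw [if_neg h8, if_neg h8]
      simp
  rw [h7]
  exact h6

/-- The statement proved by induction on the number of stages: a function bounded by `1` whose
average on every `M`-dimensional subspace is nonpositive has a small average on insensitive
sets. -/
def Stage (α : Type) [Fintype α] (b : α) (M : ℕ) (g : ℝ) (I : Type) [Fintype I] [DecidableEq I]
    (τ : ℝ) : Prop :=
  ∀ (Z : Type) [Fintype Z] [Nonempty Z] (h : Z → (I → Option α) → ℝ),
    (∀ z w, h z w ≤ 1) →
    (∀ z (V : Subspace (Fin M) (Option α) I), 𝔼 u : Fin M → Option α, h z (V u) ≤ 0) →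
    ∀ E : Z → Set (I → α),
      𝔼 z : Z, 𝔼 w : I → Option α, (pull b (E z)).indicator (h z) w
        ≤ max g ((𝔼 z : Z, dens (pull b (E z))) - τ)

lemma indicator_le_indicator_one {X : Type} (A : Set X) (f : X → ℝ) (hf : ∀ x, f x ≤ 1) (x : X) :
    A.indicator f x ≤ A.indicator (1 : X → ℝ) x := by
  by_cases hx : x ∈ A
  · rw [Set.indicator_of_mem hx, Set.indicator_of_mem hx]
    exact hf x
  · rw [Set.indicator_of_notMem hx, Set.indicator_of_notMem hx]

lemma stage_trivial {α : Type} [Fintype α] (b : α) (I : Type)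
    [Fintype I] [DecidableEq I] {Z : Type} [Fintype Z] [Nonempty Z] (h : Z → (I → Option α) → ℝ)
    (h1 : ∀ z w, h z w ≤ 1) (E : Z → Set (I → α)) :
    𝔼 z : Z, 𝔼 w : I → Option α, (pull b (E z)).indicator (h z) w
        ≤ 𝔼 z : Z, dens (pull b (E z)) :=
  expect_le_expect fun z _ => expect_le_expect fun w _ => indicator_le_indicator_one _ _ (h1 z) w

lemma stage_zero {α : Type} [Fintype α] (b : α) (M : ℕ) (g : ℝ) (I : Type) [Fintype I]
    [DecidableEq I] : Stage α b M g I 0 := by
  intro Z _ _ h h1 _ E
  rw [sub_zero]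
  exact (stage_trivial b I h h1 E).trans (le_max_right _ _)

/-- A subspace of the second block of coordinates, the first block being fixed. -/
def horSub {K η ι₁ ι₂ : Type} (x : ι₁ → K) (V : Subspace η K ι₂) : Subspace η K (ι₁ ⊕ ι₂) where
  idxFun := Sum.elim (fun i => Sum.inl (x i)) V.idxFun
  proper e := by
    obtain ⟨i, hi⟩ := V.proper e
    exact ⟨Sum.inr i, by simp [hi]⟩

lemma horSub_apply {K η ι₁ ι₂ : Type} (x : ι₁ → K) (V : Subspace η K ι₂) (u : η → K) :
    horSub x V u = Sum.elim x (V u) := by
  funext i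
  cases i <;> simp [horSub, Subspace.coe_apply]

/-- A subspace of the first block of coordinates, the second block being fixed. -/
def verSub {K η ι₁ ι₂ : Type} (V : Subspace η K ι₁) (y : ι₂ → K) : Subspace η K (ι₁ ⊕ ι₂) where
  idxFun := Sum.elim V.idxFun (fun i => Sum.inl (y i))
  proper e := by
    obtain ⟨i, hi⟩ := V.proper e
    exact ⟨Sum.inl i, by simp [hi]⟩

lemma verSub_apply {K η ι₁ ι₂ : Type} (V : Subspace η K ι₁) (y : ι₂ → K) (u : η → K) :
    verSub V y u = Sum.elim (V u) y := by
  funext i
  cases i <;> simp [verSub, Subspace.coe_apply]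

lemma subspace_injective {K η ι : Type} (V : Subspace η K ι) : Injective (fun u => V u) := by
  intro u v huv
  funext e
  obtain ⟨i, hi⟩ := V.proper e
  have := congrFun huv i
  simpa [Subspace.coe_apply, hi] using this

/-- Averages over the range of a subspace. -/
lemma expect_range_subspace {K η ι : Type} [Fintype K] [Nonempty K] [Fintype η] [DecidableEq η]
    [Fintype ι] [DecidableEq ι] (V : Subspace η K ι) (f : (ι → K) → ℝ) :
    𝔼 x : ι → K, (Set.range (fun u => V u)).indicator f x
      = (Fintype.card K : ℝ) ^ Fintype.card η / (Fintype.card K : ℝ) ^ Fintype.card ι *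
        𝔼 u : η → K, f (V u) := by
  classical
  rw [Fintype.expect_eq_sum_div_card, Fintype.expect_eq_sum_div_card]
  have hK : (Fintype.card K : ℝ) ≠ 0 := by exact_mod_cast Fintype.card_ne_zero
  have h1 : ∑ x : ι → K, (Set.range (fun u => V u)).indicator f x = ∑ u : η → K, f (V u) := by
    have h2 : ∑ x : ι → K, (Set.range (fun u => V u)).indicator f x
        = ∑ x ∈ (univ : Finset (η → K)).image (fun u => V u), f x := by
      rw [← Finset.sum_subset (subset_univ ((univ : Finset (η → K)).image (fun u => V u)))]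
      · refine Finset.sum_congr rfl fun x hx => ?_
        rw [Set.indicator_of_mem]
        obtain ⟨u, -, hu⟩ := mem_image.1 hx
        exact ⟨u, hu⟩
      · intro x _ hx
        rw [Set.indicator_of_notMem]
        rintro ⟨u, hu⟩
        exact hx (mem_image.2 ⟨u, mem_univ _, hu⟩)
    rw [h2, Finset.sum_image (fun a _ b _ h => subspace_injective V h)]
  rw [h1]
  simp

/-- One more block of coordinates allows one more stage. -/
lemma stage_succ {α : Type} [Fintype α] [DecidableEq α] [Nonempty α] (b : α) (M : ℕ) (g : ℝ)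
    (hg : 0 < g) (ι₁ : Type) [Fintype ι₁] [DecidableEq ι₁]
    (hR : ∀ E : Set (ι₁ → α), g / 2 ≤ dens (pull b E) →
      ∃ V : Subspace (Fin M) (Option α) ι₁, ∀ x, V x ∈ pull b E)
    (I : Type) [Fintype I] [DecidableEq I] (τ : ℝ) (hI : Stage α b M g I τ) :
    Stage α b M g (ι₁ ⊕ I)
      (τ + g / 2 * ((Fintype.card (Option α) : ℝ) ^ M /
        (Fintype.card (Option α) : ℝ) ^ Fintype.card ι₁)) := by
  classical
  intro Z _ _ h h1 h2 E
  set ρ : ℝ := (Fintype.card (Option α) : ℝ) ^ M / (Fintype.card (Option α) : ℝ) ^ Fintype.card ι₁ with hρ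
  have hρ0 : 0 < ρ := by
    have : (0 : ℝ) < Fintype.card (Option α) := by exact_mod_cast Fintype.card_pos
    positivity
  by_cases hE : (𝔼 z : Z, dens (pull b (E z))) ≤ g
  · exact (stage_trivial b _ h h1 E).trans (hE.trans (le_max_left _ _))
  push Not at hE
  -- the slices
  let S : Z → (I → α) → Set (ι₁ → α) := fun z y => {x | Sum.elim x y ∈ E z}
  have hslice : ∀ z (y : I → Option α) (x : ι₁ → Option α),
      Sum.elim x y ∈ pull b (E z) ↔ x ∈ pull b (S z (col b y)) := by
    intro z y x
    simp only [pull, S, Set.mem_ofPred_eq, col_elim]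
  -- the removed sets
  let R : Z → (I → α) → Set (ι₁ → Option α) := fun z y =>
    if hy : g / 2 ≤ dens (pull b (S z y)) then Set.range (fun u => (hR _ hy).choose u) else ∅
  have hRsub : ∀ z y, R z y ⊆ pull b (S z y) := by
    intro z y x hx
    simp only [R] at hx
    split_ifs at hx with hy
    · obtain ⟨u, rfl⟩ := hx
      exact (hR _ hy).choose_spec u
    · exact absurd hx (Set.notMem_empty x)
  -- the average of `h` on the removed set is nonpositive
  have hRh : ∀ z (y : I → Option α),
      𝔼 x : ι₁ → Option α, (R z (col b y)).indicator (fun x => h z (Sum.elim x y)) x ≤ 0 := by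
    intro z y
    simp only [R]
    split_ifs with hy
    · rw [expect_range_subspace]
      refine mul_nonpos_of_nonneg_of_nonpos (by positivity) ?_
      have := h2 z (verSub (hR _ hy).choose y)
      simp only [verSub_apply] at this
      exact this
    · simp
  -- the density of the removed set
  have hRd : ∀ z (y : I → α), ρ * (dens (pull b (S z y)) - g / 2) ≤ dens (R z y) := by
    intro z y
    simp only [R]
    split_ifs with hy
    · have h3 : dens (Set.range (fun u => (hR _ hy).choose u)) = ρ := by
        unfold dens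
        rw [expect_range_subspace]
        simp [hρ]
      rw [h3]
      have := dens_le_one (pull b (S z y))
      nlinarith
    · have h3 : dens (∅ : Set (ι₁ → Option α)) = 0 := by simp [dens]
      rw [h3]
      push Not at hy
      nlinarith
  -- apply the induction hypothesis to the rest
  have key := hI (Z × (ι₁ → Option α)) (fun p y => h p.1 (Sum.elim p.2 y)) (fun p y => h1 _ _)
    (fun p V => by
      have := h2 p.1 (horSub p.2 V)
      simp only [horSub_apply] at this
      exact this)
    (fun p => {y | Sum.elim (col b p.2) y ∈ E p.1 ∧ p.2 ∉ R p.1 y})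
  have hmem : ∀ (p : Z × (ι₁ → Option α)) (y : I → Option α),
      y ∈ pull b {y | Sum.elim (col b p.2) y ∈ E p.1 ∧ p.2 ∉ R p.1 y} ↔
        p.2 ∈ pull b (S p.1 (col b y)) \ R p.1 (col b y) := by
    intro p y
    simp only [pull, Set.mem_ofPred_eq, S, Set.mem_sdiff]
  -- decompose
  have hdec : ∀ (f : (ι₁ → Option α) → ℝ) z (y : I → Option α) x, (pull b (S z (col b y))).indicator f x
      = (pull b (S z (col b y)) \ R z (col b y)).indicator f x
        + (R z (col b y)).indicator f x := by
    intro f z y x
    by_cases hx : x ∈ R z (col b y)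
    · have hx' := hRsub _ _ hx
      simp [hx, hx']
    · by_cases hx' : x ∈ pull b (S z (col b y))
      · simp [hx, hx']
      · simp [hx, hx']
  have hrw1 : 𝔼 z : Z, 𝔼 w : ι₁ ⊕ I → Option α, (pull b (E z)).indicator (h z) w
      = (𝔼 z : Z, 𝔼 y : I → Option α, 𝔼 x : ι₁ → Option α,
          (pull b (S z (col b y)) \ R z (col b y)).indicator (fun x => h z (Sum.elim x y)) x)
        + 𝔼 z : Z, 𝔼 y : I → Option α, 𝔼 x : ι₁ → Option α,
          (R z (col b y)).indicator (fun x => h z (Sum.elim x y)) x := by
    simp only [← expect_add_distrib]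
    refine expect_congr rfl fun z _ => ?_
    rw [expect_sum_elim]
    refine expect_congr rfl fun y _ => expect_congr rfl fun x _ => ?_
    rw [← hdec]
    by_cases hx : x ∈ pull b (S z (col b y))
    · rw [Set.indicator_of_mem hx, Set.indicator_of_mem ((hslice z y x).2 hx)]
    · rw [Set.indicator_of_notMem hx,
        Set.indicator_of_notMem (fun h' => hx ((hslice z y x).1 h'))]
  have hrw2 : ∀ F : Z → (ι₁ → Option α) → (I → Option α) → ℝ,
      𝔼 p : Z × (ι₁ → Option α), 𝔼 y : I → Option α,
        (pull b {y | Sum.elim (col b p.2) y ∈ E p.1 ∧ p.2 ∉ R p.1 y}).indicator (F p.1 p.2) y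
      = 𝔼 z : Z, 𝔼 y : I → Option α, 𝔼 x : ι₁ → Option α,
          (pull b (S z (col b y)) \ R z (col b y)).indicator (fun x => F z x y) x := by
    intro F
    rw [← univ_product_univ, expect_product]
    refine expect_congr rfl fun z _ => ?_
    rw [expect_comm]
    refine expect_congr rfl fun y _ => expect_congr rfl fun x _ => ?_
    by_cases hx : x ∈ pull b (S z (col b y)) \ R z (col b y)
    · rw [Set.indicator_of_mem hx, Set.indicator_of_mem ((hmem (z, x) y).2 hx)]
    · rw [Set.indicator_of_notMem hx,
        Set.indicator_of_notMem (fun h' => hx ((hmem (z, x) y).1 h'))]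
  have hd1 : 𝔼 z : Z, dens (pull b (E z)) = 𝔼 z : Z, 𝔼 y : I → Option α,
      dens (pull b (S z (col b y))) := by
    refine expect_congr rfl fun z _ => ?_
    rw [dens_sum_elim]
    refine expect_congr rfl fun y _ => ?_
    congr 1
    ext x
    exact hslice z y x
  have hd2 : 𝔼 z : Z, 𝔼 y : I → Option α, 𝔼 x : ι₁ → Option α,
      (pull b (S z (col b y)) \ R z (col b y)).indicator (fun _ => (1 : ℝ)) x
      = (𝔼 z : Z, dens (pull b (E z))) - 𝔼 z : Z, 𝔼 y : I → Option α, dens (R z (col b y)) := by
    rw [hd1]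
    simp only [← expect_sub_distrib]
    refine expect_congr rfl fun z _ => expect_congr rfl fun y _ => ?_
    have := fun x => hdec (1 : (ι₁ → Option α) → ℝ) z y x
    unfold dens
    rw [expect_congr rfl fun x _ => this x, expect_add_distrib]
    simp [Pi.one_def]
  have hd3 : ρ * (g / 2) ≤ 𝔼 z : Z, 𝔼 y : I → Option α, dens (R z (col b y)) := by
    have h3 : 𝔼 z : Z, 𝔼 y : I → Option α, ρ * (dens (pull b (S z (col b y))) - g / 2)
        ≤ 𝔼 z : Z, 𝔼 y : I → Option α, dens (R z (col b y)) :=
      expect_le_expect fun z _ => expect_le_expect fun y _ => hRd z _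
    simp only [← mul_expect, expect_sub_distrib] at h3
    rw [← hd1] at h3
    simp only [Fintype.expect_const] at h3
    nlinarith
  rw [hrw1]
  have hfirst := hrw2 (fun z x y => h z (Sum.elim x y))
  have hsecond := hrw2 (fun z x y => 1)
  have hthird : 𝔼 z : Z, 𝔼 y : I → Option α, 𝔼 x : ι₁ → Option α,
          (R z (col b y)).indicator (fun x => h z (Sum.elim x y)) x ≤ 0 := by
    refine expect_le univ_nonempty fun z _ => expect_le univ_nonempty fun y _ => hRh z y
  rw [hfirst] at key
  have hfourth : (𝔼 p : Z × (ι₁ → Option α),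
      dens (pull b {y : I → α | Sum.elim (col b p.2) y ∈ E p.1 ∧ p.2 ∉ R p.1 y}))
      = (𝔼 z : Z, dens (pull b (E z))) - 𝔼 z : Z, 𝔼 y : I → Option α, dens (R z (col b y)) := by
    rw [← hd2, ← hsecond]
    rfl
  rw [hfourth] at key
  have hmax : max g ((𝔼 z : Z, dens (pull b (E z))) -
        (𝔼 z : Z, 𝔼 y : I → Option α, dens (R z (col b y))) - τ)
      ≤ max g ((𝔼 z : Z, dens (pull b (E z))) - (τ + g / 2 * ρ)) := by
    apply max_le_max_left
    linarith
  linarith [key.trans hmax]

end Pool.Agent.LibH66
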