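import Pool.Agent.Lib_helper66.DHJBasic

set_option autoImplicit false

open Finset Function Combinatorics
open scoped BigOperators

namespace Pool.Agent.LibH66

/-! ### Lines, subspaces, slices -/

/-- A set of words containing no combinatorial line. -/
def LineFree {K ι : Type} (A : Set (ι → K)) : Prop := ∀ l : Line K ι, ∃ x, l x ∉ A

/-- The image of a line under a subspace. -/
def subLine {K η ι : Type} (V : Subspace η K ι) (l : Line K η) : Line K ι where
  idxFun i := (V.idxFun i).elim some l.idxFun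
  proper := by
    obtain ⟨e, he⟩ := l.proper
    obtain ⟨i, hi⟩ := V.proper e
    exact ⟨i, by simp [hi, he]⟩

lemma subLine_apply {K η ι : Type} (V : Subspace η K ι) (l : Line K η) (x : K) :
    subLine V l x = V (l x) := by
  funext i
  simp only [subLine, Line.coe_apply, Subspace.coe_apply]
  cases h : V.idxFun i <;> simp

lemma LineFree.preimage {K η ι : Type} {A : Set (ι → K)} (hA : LineFree A) (V : Subspace η K ι) :
    LineFree {x : η → K | V x ∈ A} := by
  intro l
  obtain ⟨x, hx⟩ := hA (subLine V l)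
  refine ⟨x, ?_⟩
  rwa [subLine_apply] at hx

lemma LineFree.slice {K ι₁ ι₂ : Type} {A : Set (ι₁ ⊕ ι₂ → K)} (hA : LineFree A) (y : ι₂ → K) :
    LineFree {x : ι₁ → K | Sum.elim x y ∈ A} := by
  intro l
  obtain ⟨x, hx⟩ := hA (l.horizontal y)
  refine ⟨x, ?_⟩
  rwa [Line.horizontal_apply] at hx

lemma LineFree.reindex {K ι ι' : Type} {A : Set (ι → K)} (hA : LineFree A) (e : ι ≃ ι') :
    LineFree {w : ι' → K | w ∘ e ∈ A} := by
  intro l
  let l' : Line K ι := ⟨fun i => l.idxFun (e i), by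
    obtain ⟨i, hi⟩ := l.proper
    exact ⟨e.symm i, by simp [hi]⟩⟩
  obtain ⟨x, hx⟩ := hA l'
  exact ⟨x, hx⟩

lemma expect_sum_elim {K ι₁ ι₂ : Type} [Fintype K] [Fintype ι₁] [DecidableEq ι₁] [Fintype ι₂]
    [DecidableEq ι₂] (f : (ι₁ ⊕ ι₂ → K) → ℝ) :
    𝔼 w : ι₁ ⊕ ι₂ → K, f w = 𝔼 y : ι₂ → K, 𝔼 x : ι₁ → K, f (Sum.elim x y) := by
  rw [expect_comm, ← expect_product' univ univ (fun (x : ι₁ → K) (y : ι₂ → K) => f (Sum.elim x y)),
    univ_product_univ]
  refine Fintype.expect_equiv (Equiv.sumArrowEquivProdArrow ι₁ ι₂ K) _ _ fun w => ?_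
  congr 1
  funext i
  cases i <;> rfl

lemma expect_reindex {K ι ι' : Type} [Fintype K] [Fintype ι] [DecidableEq ι] [Fintype ι']
    [DecidableEq ι'] (e : ι ≃ ι') (f : (ι → K) → ℝ) :
    𝔼 w : ι → K, f w = 𝔼 w : ι' → K, f (w ∘ e) := by
  refine Fintype.expect_equiv (e.arrowCongr (Equiv.refl K)) _ _ fun w => ?_
  congr 1
  funext i
  simp [Equiv.arrowCongr]

lemma dens_reindex {K ι ι' : Type} [Fintype K] [Fintype ι] [DecidableEq ι] [Fintype ι']
    [DecidableEq ι'] (e : ι ≃ ι') (A : Set (ι → K)) :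
    dens {w : ι' → K | w ∘ e ∈ A} = dens A := by
  unfold dens
  rw [expect_reindex e]
  rfl

lemma dens_sum_elim {K ι₁ ι₂ : Type} [Fintype K] [Fintype ι₁] [DecidableEq ι₁] [Fintype ι₂]
    [DecidableEq ι₂] (A : Set (ι₁ ⊕ ι₂ → K)) :
    dens A = 𝔼 y : ι₂ → K, dens {x : ι₁ → K | Sum.elim x y ∈ A} := by
  unfold dens
  rw [expect_sum_elim]
  rfl

/-- Any larger finite type splits off a copy of a smaller one. -/
lemma exists_split (ι₀ ι : Type) [Fintype ι₀] [Fintype ι]
    (h : Fintype.card ι₀ ≤ Fintype.card ι) :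
    ∃ n : ℕ, Nonempty (ι ≃ ι₀ ⊕ Fin n) := by
  refine ⟨Fintype.card ι - Fintype.card ι₀, ⟨Fintype.equivOfCardEq ?_⟩⟩
  simp
  omega

/-- An upper bound for the density of line-free sets persists in higher dimension. -/
lemma lineFree_bound_mono {K ι₀ ι : Type} [Fintype K] [Nonempty K] [Fintype ι₀] [DecidableEq ι₀]
    [Fintype ι] [DecidableEq ι] (h : Fintype.card ι₀ ≤ Fintype.card ι) (d : ℝ)
    (hd : ∀ A : Set (ι₀ → K), LineFree A → dens A ≤ d) (A : Set (ι → K)) (hA : LineFree A) :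
    dens A ≤ d := by
  obtain ⟨n, ⟨e⟩⟩ := exists_split ι₀ ι h
  rw [← dens_reindex e, dens_sum_elim]
  exact expect_le univ_nonempty fun y _ => hd _ ((hA.reindex e).slice y)

/-- The density Hales-Jewett statement for the alphabet `K`. -/
def DensLine (K : Type) [Fintype K] : Prop :=
  ∀ δ : ℝ, 0 < δ → ∃ N : ℕ, ∀ A : Set (Fin N → K), LineFree A → dens A ≤ δ

lemma DensLine.all {K : Type} [Fintype K] [Nonempty K] (hK : DensLine K) (δ : ℝ) (hδ : 0 < δ) :
    ∃ N : ℕ, ∀ (ι : Type) [Fintype ι] [DecidableEq ι], N ≤ Fintype.card ι →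
      ∀ A : Set (ι → K), LineFree A → dens A ≤ δ := by
  obtain ⟨N, hN⟩ := hK δ hδ
  refine ⟨N, fun ι _ _ hι A hA => ?_⟩
  exact lineFree_bound_mono (ι₀ := Fin N) (by simpa using hι) δ hN A hA

/-- The multidimensional density Hales-Jewett statement for the alphabet `K`. -/
def DensSub (K : Type) [Fintype K] (M : ℕ) : Prop :=
  ∀ δ : ℝ, 0 < δ → ∃ N : ℕ, ∀ A : Set (Fin N → K), δ ≤ dens A →
    ∃ V : Subspace (Fin M) K (Fin N), ∀ x, V x ∈ A

lemma ind_le_ind {X Y : Type} {A : Set X} {B : Set Y} {x : X} {y : Y}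
    (h : x ∈ A → y ∈ B) : A.indicator (1 : X → ℝ) x ≤ B.indicator (1 : Y → ℝ) y := by
  by_cases hx : x ∈ A
  · rw [Set.indicator_of_mem hx, Set.indicator_of_mem (h hx)]
    simp
  · rw [Set.indicator_of_notMem hx]
    exact ind_nonneg _ _

/-- Combine a line and a subspace to a subspace of one more dimension. -/
def consSub {K ι₁ ι₂ : Type} {M : ℕ} (l : Line K ι₁) (V : Subspace (Fin M) K ι₂) :
    Subspace (Fin (M + 1)) K (ι₁ ⊕ ι₂) where
  idxFun := Sum.elim (fun i => (l.idxFun i).elim (Sum.inr 0) Sum.inl)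
    (fun i => (V.idxFun i).elim Sum.inl (fun e => Sum.inr e.succ))
  proper := by
    intro e
    induction e using Fin.cases with
    | zero =>
      obtain ⟨i, hi⟩ := l.proper
      exact ⟨Sum.inl i, by simp [hi]⟩
    | succ e =>
      obtain ⟨i, hi⟩ := V.proper e
      exact ⟨Sum.inr i, by simp [hi]⟩

lemma consSub_apply {K ι₁ ι₂ : Type} {M : ℕ} (l : Line K ι₁) (V : Subspace (Fin M) K ι₂)
    (x : Fin (M + 1) → K) : consSub l V x = Sum.elim (l (x 0)) (V (fun e => x e.succ)) := by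
  funext i
  cases i with
  | inl i =>
    simp only [consSub, Subspace.coe_apply, Sum.elim_inl, Line.coe_apply]
    cases h : l.idxFun i <;> simp
  | inr i =>
    simp only [consSub, Subspace.coe_apply, Sum.elim_inr]
    cases h : V.idxFun i <;> simp

/-- The multidimensional statement follows from the statement for lines. -/
lemma DensLine.densSub {K : Type} [Fintype K] [Nonempty K] (hK : DensLine K) (M : ℕ) :
    DensSub K M := by
  classical
  induction M with
  | zero =>
    intro δ hδ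
    refine ⟨0, fun A hA => ?_⟩
    have : A.Nonempty := by
      by_contra h
      rw [Set.not_nonempty_iff_eq_empty] at h
      subst h
      have : dens (∅ : Set (Fin 0 → K)) = 0 := by simp [dens]
      linarith
    obtain ⟨w, hw⟩ := this
    refine ⟨⟨fun i => Sum.inl (w i), fun e => Fin.elim0 e⟩, fun x => ?_⟩
    have hxw : (⟨fun i => Sum.inl (w i), fun e => Fin.elim0 e⟩ : Subspace (Fin 0) K (Fin 0)) x
        = w := funext fun i => Fin.elim0 i
    rw [hxw]
    exact hw
  | succ M ih =>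
    intro δ hδ
    obtain ⟨N₁, hN₁⟩ := hK (δ / 2) (by linarith)
    have hfin : Finite (Line K (Fin N₁)) :=
      Finite.of_injective (fun l : Line K (Fin N₁) => l.idxFun) (fun a b h => Line.ext h)
    have : Fintype (Line K (Fin N₁)) := Fintype.ofFinite _
    obtain ⟨N₂, hN₂⟩ := ih (δ / 4 / (Fintype.card (Line K (Fin N₁)) + 1)) (by positivity)
    refine ⟨N₁ + N₂, fun A hA => ?_⟩
    let e : Fin (N₁ + N₂) ≃ Fin N₁ ⊕ Fin N₂ := finSumFinEquiv.symm
    set A' : Set (Fin N₁ ⊕ Fin N₂ → K) := {w | w ∘ e ∈ A} with hA'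
    have hdA' : δ ≤ dens A' := by rw [hA', dens_reindex e]; exact hA
    let B : Line K (Fin N₁) → Set (Fin N₂ → K) := fun l => {y | ∀ x, Sum.elim (l x) y ∈ A'}
    have h1 : ∀ y : Fin N₂ → K, dens {x : Fin N₁ → K | Sum.elim x y ∈ A'} - δ / 2
        ≤ ∑ l : Line K (Fin N₁), (B l).indicator (1 : (Fin N₂ → K) → ℝ) y := by
      intro y
      by_cases hy : LineFree {x : Fin N₁ → K | Sum.elim x y ∈ A'}
      · have := hN₁ _ hy
        have h0 : 0 ≤ ∑ l : Line K (Fin N₁), (B l).indicator (1 : (Fin N₂ → K) → ℝ) y :=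
          Finset.sum_nonneg fun _ _ => ind_nonneg _ _
        linarith
      · unfold LineFree at hy
        push Not at hy
        obtain ⟨l, hl⟩ := hy
        have h2 : (B l).indicator (1 : (Fin N₂ → K) → ℝ) y
            ≤ ∑ l : Line K (Fin N₁), (B l).indicator (1 : (Fin N₂ → K) → ℝ) y :=
          Finset.single_le_sum (f := fun l => (B l).indicator (1 : (Fin N₂ → K) → ℝ) y)
            (fun _ _ => ind_nonneg _ _) (mem_univ l)
        have h3 : (B l).indicator (1 : (Fin N₂ → K) → ℝ) y = 1 := by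
          rw [Set.indicator_of_mem]
          · rfl
          · exact hl
        have h4 := dens_le_one {x : Fin N₁ → K | Sum.elim x y ∈ A'}
        linarith
    have h5 : δ / 2 ≤ ∑ l : Line K (Fin N₁), dens (B l) := by
      have : 𝔼 y : Fin N₂ → K, (dens {x : Fin N₁ → K | Sum.elim x y ∈ A'} - δ / 2)
          ≤ 𝔼 y : Fin N₂ → K, ∑ l : Line K (Fin N₁), (B l).indicator (1 : (Fin N₂ → K) → ℝ) y :=
        expect_le_expect fun y _ => h1 y
      rw [expect_sub_distrib, ← dens_sum_elim, Fintype.expect_const, expect_sum_comm] at this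
      unfold dens at *
      linarith
    obtain ⟨l, hl⟩ : ∃ l, δ / 4 / (Fintype.card (Line K (Fin N₁)) + 1) ≤ dens (B l) := by
      by_contra hcon
      push Not at hcon
      have h6 : ∑ l : Line K (Fin N₁), dens (B l)
          ≤ ∑ l : Line K (Fin N₁), δ / 4 / (Fintype.card (Line K (Fin N₁)) + 1) :=
        Finset.sum_le_sum fun l _ => (hcon l).le
      rw [sum_const, card_univ, nsmul_eq_mul] at h6
      have h7 : (Fintype.card (Line K (Fin N₁)) : ℝ) *
          (δ / 4 / (Fintype.card (Line K (Fin N₁)) + 1)) ≤ δ / 4 := by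
        rw [mul_div_assoc', div_le_iff₀ (by positivity)]
        nlinarith
      linarith
    obtain ⟨V, hV⟩ := hN₂ (B l) hl
    refine ⟨(consSub l V).reindex (Equiv.refl _) (Equiv.refl _) e.symm, fun x => ?_⟩
    have h8 : (consSub l V) x ∈ A' := by
      rw [consSub_apply]
      exact hV _ _
    have h9 : ((consSub l V).reindex (Equiv.refl _) (Equiv.refl _) e.symm) x
        = (consSub l V) x ∘ e := by
      funext i
      simp [Subspace.reindex_apply]
    rw [h9]
    exact h8

end Pool.Agent.LibH66
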