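import Pool.Agent.Lib_helper66.DHJInsens

set_option autoImplicit false

open Finset Function Combinatorics
open scoped BigOperators

namespace Pool.Agent.LibH66

/-- A function bounded by `1` whose average on every `M`-dimensional subspace is nonpositive has a
small average on every insensitive set, in high dimension. -/
lemma insensitive_average {α : Type} [Fintype α] [DecidableEq α] [Nonempty α] (M : ℕ)
    (hα : DensSub α M) (b : α) (g : ℝ) (hg : 0 < g) :
    ∃ N : ℕ, ∀ (ι : Type) [Fintype ι] [DecidableEq ι], N ≤ Fintype.card ι →
      ∀ h : (ι → Option α) → ℝ, (∀ w, h w ≤ 1) →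
        (∀ V : Subspace (Fin M) (Option α) ι, 𝔼 u : Fin M → Option α, h (V u) ≤ 0) →
        ∀ E : Set (ι → α), 𝔼 w : ι → Option α, (pull b E).indicator h w ≤ g := by
  classical
  obtain ⟨N₁, hN₁⟩ := exists_subspace_pull M hα b (g / 2) (by linarith)
  set c : ℝ := g / 2 * ((Fintype.card (Option α) : ℝ) ^ M /
        (Fintype.card (Option α) : ℝ) ^ Fintype.card (Fin N₁)) with hc
  have hc0 : 0 < c := by
    have : (0 : ℝ) < Fintype.card (Option α) := by exact_mod_cast Fintype.card_pos
    positivity
  have hstage : ∀ t : ℕ, ∃ (n : ℕ), Stage α b M g (Fin n) (t * c) := by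
    intro t
    induction t with
    | zero => exact ⟨0, by simpa using stage_zero b M g (Fin 0)⟩
    | succ t ih =>
      obtain ⟨n, hn⟩ := ih
      have h1 := stage_succ b M g hg (Fin N₁) hN₁ (Fin n) _ hn
      refine ⟨N₁ + n, ?_⟩
      have hcc : ((t + 1 : ℕ) : ℝ) * c = t * c + c := by push_cast; ring
      rw [hcc]
      -- transport along `Fin N₁ ⊕ Fin n ≃ Fin (N₁ + n)`
      intro Z _ _ h hh1 hh2 E
      let e : Fin N₁ ⊕ Fin n ≃ Fin (N₁ + n) := finSumFinEquiv
      have key := h1 Z (fun z w => h z (w ∘ e.symm)) (fun z w => hh1 _ _)
        (fun z V => by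
          have := hh2 z (V.reindex (Equiv.refl _) (Equiv.refl _) e)
          refine le_trans (le_of_eq ?_) this
          refine expect_congr rfl fun u _ => ?_
          congr 1
          funext i
          simp [Subspace.reindex_apply])
        (fun z => {w | w ∘ e.symm ∈ E z})
      have h3 : ∀ z, 𝔼 w : Fin N₁ ⊕ Fin n → Option α,
          (pull b {w : Fin N₁ ⊕ Fin n → α | w ∘ e.symm ∈ E z}).indicator
            (fun w => h z (w ∘ e.symm)) w
          = 𝔼 w : Fin (N₁ + n) → Option α, (pull b (E z)).indicator (h z) w := by
        intro z
        rw [expect_reindex e.symm]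
        rfl
      have h4 : ∀ z, dens (pull b {w : Fin N₁ ⊕ Fin n → α | w ∘ e.symm ∈ E z})
          = dens (pull b (E z)) := by
        intro z
        rw [← dens_reindex e.symm (pull b (E z))]
        rfl
      simp only [h3, h4] at key
      exact key
  obtain ⟨t, ht⟩ := exists_nat_ge (1 / c)
  obtain ⟨n, hn⟩ := hstage t
  have htc : 1 ≤ t * c := by
    rw [div_le_iff₀ hc0] at ht
    exact ht
  refine ⟨n, fun ι _ _ hι h h1 h2 E => ?_⟩
  obtain ⟨m, ⟨e⟩⟩ := exists_split (Fin n) ι (by simpa using hι)
  have key := hn (Fin m → Option α) (fun y x => h (Sum.elim x y ∘ e)) (fun y x => h1 _)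
    (fun y V => by
      have := h2 ((verSub V y).reindex (Equiv.refl _) (Equiv.refl _) e.symm)
      refine le_trans (le_of_eq ?_) this
      refine expect_congr rfl fun u _ => ?_
      congr 1
      rw [← verSub_apply]
      funext i
      simp [Subspace.reindex_apply])
    (fun y => {x | Sum.elim x (col b y) ∘ e ∈ E})
  have h3 : 𝔼 w : ι → Option α, (pull b E).indicator h w
      = 𝔼 y : Fin m → Option α, 𝔼 x : Fin n → Option α,
        (pull b {x : Fin n → α | Sum.elim x (col b y) ∘ e ∈ E}).indicator
          (fun x => h (Sum.elim x y ∘ e)) x := by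
    rw [expect_reindex e, expect_sum_elim]
    refine expect_congr rfl fun y _ => expect_congr rfl fun x _ => ?_
    have hiff : Sum.elim x y ∘ e ∈ pull b E ↔
        x ∈ pull b {x : Fin n → α | Sum.elim x (col b y) ∘ e ∈ E} := by
      have : col b (Sum.elim x y ∘ e) = Sum.elim (col b x) (col b y) ∘ e := by
        rw [← col_elim]
        rfl
      simp only [pull, Set.mem_ofPred_eq, this]
    by_cases hx : x ∈ pull b {x : Fin n → α | Sum.elim x (col b y) ∘ e ∈ E}
    · rw [Set.indicator_of_mem hx, Set.indicator_of_mem (hiff.2 hx)]
    · rw [Set.indicator_of_notMem hx, Set.indicator_of_notMem (fun h' => hx (hiff.1 h'))]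
  rw [h3]
  refine key.trans (max_le le_rfl ?_)
  have h4 : 𝔼 y : Fin m → Option α, dens (pull b {x : Fin n → α | Sum.elim x (col b y) ∘ e ∈ E})
      ≤ 1 := expect_le univ_nonempty fun y _ => dens_le_one _
  linarith

/-- The intersection of the insensitive sets `pull a (E a)`, `a ∈ S`. -/
def interPull {α ι : Type} (S : Finset α) (E : α → Set (ι → α)) : Set (ι → Option α) :=
  {w | ∀ a ∈ S, w ∈ pull a (E a)}

/-- In high dimension a line-free set cannot have density larger than the extremal density on an
intersection of insensitive sets. -/
lemma lineFree_interPull {α : Type} [Fintype α] [DecidableEq α] [Nonempty α]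
    (hα : ∀ M, DensSub α M) (d : ℝ) (hd0 : 0 ≤ d)
    (hd : ∀ γ : ℝ, 0 < γ → ∃ N : ℕ, ∀ (ι : Type) [Fintype ι] [DecidableEq ι],
      N ≤ Fintype.card ι → ∀ A : Set (ι → Option α), LineFree A → dens A ≤ d + γ)
    (S : Finset α) :
    ∀ γ : ℝ, 0 < γ → ∃ N : ℕ, ∀ (ι : Type) [Fintype ι] [DecidableEq ι], N ≤ Fintype.card ι →
      ∀ A : Set (ι → Option α), LineFree A → ∀ E : α → Set (ι → α),
        𝔼 w : ι → Option α, (interPull S E).indicator
          (fun w => A.indicator (1 : (ι → Option α) → ℝ) w - d) w ≤ γ := by
  classical
  induction S using Finset.induction_on with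
  | empty =>
    intro γ hγ
    obtain ⟨N, hN⟩ := hd γ hγ
    refine ⟨N, fun ι _ _ hι A hA E => ?_⟩
    have h1 := hN ι hι A hA
    have h2 : interPull (∅ : Finset α) E = Set.univ := by
      ext w; simp [interPull]
    rw [h2]
    simp only [Set.indicator_univ]
    rw [expect_sub_distrib, Fintype.expect_const]
    unfold dens at h1
    linarith
  | insert b S hb ih =>
    intro γ hγ
    obtain ⟨M, hM⟩ := ih (γ / 2) (by linarith)
    obtain ⟨N, hN⟩ := insensitive_average M (hα M) b (γ / 2) (by linarith)
    refine ⟨N, fun ι _ _ hι A hA E => ?_⟩
    set h : (ι → Option α) → ℝ := fun w => (interPull S E).indicator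
          (fun w => A.indicator (1 : (ι → Option α) → ℝ) w - d) w - γ / 2 with hh
    have h1 : ∀ w, h w ≤ 1 := by
      intro w
      simp only [hh]
      by_cases hw : w ∈ interPull S E
      · rw [Set.indicator_of_mem hw]
        have := ind_le_one A w
        linarith
      · rw [Set.indicator_of_notMem hw]
        linarith
    have h2 : ∀ V : Subspace (Fin M) (Option α) ι, 𝔼 u : Fin M → Option α, h (V u) ≤ 0 := by
      intro V
      have h3 := hM (Fin M) (by simp) {u | V u ∈ A} (hA.preimage V)
        (fun a => {y : Fin M → α | (fun i => ((V.idxFun i).map (fun o : Option α => o.getD a) id).elim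
          id y) ∈ E a})
      have h4 : ∀ u : Fin M → Option α, (interPull S E).indicator
          (fun w => A.indicator (1 : (ι → Option α) → ℝ) w - d) (V u)
          = (interPull S (fun a => {y : Fin M → α |
              (fun i => ((V.idxFun i).map (fun o : Option α => o.getD a) id).elim
                id y) ∈ E a})).indicator
            (fun u => ({u | V u ∈ A} : Set (Fin M → Option α)).indicator
              (1 : (Fin M → Option α) → ℝ) u - d) u := by
        intro u
        have hiff : V u ∈ interPull S E ↔ u ∈ interPull S (fun a => {y : Fin M → α |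
              (fun i => ((V.idxFun i).map (fun o : Option α => o.getD a) id).elim
                id y) ∈ E a}) := by
          have : ∀ a, col a (V u) = (fun i => ((V.idxFun i).map
              (fun o : Option α => o.getD a) id).elim id (col a u)) := by
            intro a
            funext i
            simp only [col, Subspace.coe_apply]
            cases V.idxFun i <;> simp [col]
          simp only [interPull, pull, Set.mem_ofPred_eq, this]
        by_cases hu : V u ∈ interPull S E
        · rw [Set.indicator_of_mem hu, Set.indicator_of_mem (hiff.1 hu)]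
          rfl
        · rw [Set.indicator_of_notMem hu, Set.indicator_of_notMem (fun h' => hu (hiff.2 h'))]
      simp only [hh, h4]
      rw [expect_sub_distrib, Fintype.expect_const]
      linarith
    have h3 := hN ι hι h h1 h2 (E b)
    have h4 : ∀ w, (interPull (insert b S) E).indicator
        (fun w => A.indicator (1 : (ι → Option α) → ℝ) w - d) w
        ≤ (pull b (E b)).indicator h w + γ / 2 := by
      intro w
      by_cases hw : w ∈ pull b (E b)
      · rw [Set.indicator_of_mem hw]
        simp only [hh]
        by_cases hw' : w ∈ interPull S E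
        · have hw'' : w ∈ interPull (insert b S) E := by
            intro a ha
            rcases Finset.mem_insert.1 ha with rfl | ha
            · exact hw
            · exact hw' a ha
          rw [Set.indicator_of_mem hw', Set.indicator_of_mem hw'']
          linarith
        · have hw'' : w ∉ interPull (insert b S) E := by
            intro hcon
            exact hw' fun a ha => hcon a (Finset.mem_insert_of_mem ha)
          rw [Set.indicator_of_notMem hw', Set.indicator_of_notMem hw'']
          linarith
      · have hw'' : w ∉ interPull (insert b S) E := by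
          intro hcon
          exact hw (hcon b (Finset.mem_insert_self _ _))
        rw [Set.indicator_of_notMem hw, Set.indicator_of_notMem hw'']
        linarith
    have h5 : 𝔼 w : ι → Option α, (interPull (insert b S) E).indicator
        (fun w => A.indicator (1 : (ι → Option α) → ℝ) w - d) w
        ≤ 𝔼 w : ι → Option α, ((pull b (E b)).indicator h w + γ / 2) :=
      expect_le_expect fun w _ => h4 w
    rw [expect_add_distrib, Fintype.expect_const] at h5
    linarith

end Pool.Agent.LibH66
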