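import Mathlib

/-!
# Baby Mandelbrot sets in the parameter plane of `r_{n,a}`
-/

namespace Pool.Agent.LibH66.McM

open Complex Filter Topology Set Metric

/-- principal square root of `a` (argument of `a` in `(-π, π]`) -/
noncomputable def sqrtP (a : ℂ) : ℂ := a ^ ((1 / 2 : ℝ) : ℂ)

/-- principal value of `a^{1/2n}` -/
noncomputable def rootP (n : ℕ) (a : ℂ) : ℂ := a ^ ((1 / (2 * n) : ℝ) : ℂ)

/-- the map `r_{n,a}(z) = z^n + a/z^n + a^{1/2n} - 2√a` -/
noncomputable def r (n : ℕ) (a z : ℂ) : ℂ := z ^ n + a / z ^ n + (rootP n a - 2 * sqrtP a)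

/-- the free critical value `v_- = a^{1/2n} - 4√a` -/
noncomputable def vMinus (n : ℕ) (a : ℂ) : ℂ := rootP n a - 4 * sqrtP a

/-- the parameter `a_k = ((1 - e^{ikπ/n})/4)^{2n/(n-1)}` (principal power) -/
noncomputable def aPar (n k : ℕ) : ℂ :=
  ((1 - exp (((k * Real.pi / n : ℝ) : ℂ) * I)) / 4) ^ ((2 * n / (n - 1) : ℝ) : ℂ)

/-- the filled Julia set of `z ↦ z² + c` -/
def quadJulia (c : ℂ) : Set ℂ := {z | ∃ C : ℝ, ∀ m : ℕ, ‖(fun z => z ^ 2 + c)^[m] z‖ ≤ C}

/-- the Mandelbrot set -/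
def mandelbrot : Set ℂ := {c | (0 : ℂ) ∈ quadJulia c}

/-- `f : U' → U` is a polynomial-like map of degree two with critical value `v`: `U', U` are open
topological disks, `U'` is relatively compact in `U`, `f` is holomorphic on `U'` and maps it
properly to `U`, every point of `U` other than `v` has exactly two preimages in `U'`, and `v` is
the only critical value. -/
structure PolyLike2 (f : ℂ → ℂ) (U' U : Set ℂ) (v : ℂ) : Prop where
  isOpen_source : IsOpen U'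
  isOpen_target : IsOpen U
  disk_source : Nonempty (U' ≃ₜ ball (0 : ℂ) 1)
  disk_target : Nonempty (U ≃ₜ ball (0 : ℂ) 1)
  isCompact_closure : IsCompact (closure U')
  closure_subset : closure U' ⊆ U
  holo : DifferentiableOn ℂ f U'
  mapsTo : MapsTo f U' U
  proper : ∀ K ⊆ U, IsCompact K → IsCompact {z ∈ U' | f z ∈ K}
  degree : ∀ w ∈ U, w ≠ v → {z ∈ U' | f z = w}.ncard = 2
  critical : {w | ∃ z ∈ U', deriv f z = 0 ∧ f z = w} = {v}

/-- the filled Julia set of `f : U' → U` -/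
def filledJulia (f : ℂ → ℂ) (U' : Set ℂ) : Set ℂ := {z ∈ U' | ∀ m : ℕ, f^[m] z ∈ U'}

/-- A weak form of hybrid equivalence of `f` (on `U'`) to `z² + c`: a homeomorphism `φ` between
open neighbourhoods of the two filled Julia sets, carrying one onto the other, conjugating `f` to
`z² + c`, and conformal on the interior of the filled Julia set. -/
def WeakHybrid (f : ℂ → ℂ) (U' : Set ℂ) (c : ℂ) : Prop :=
  ∃ φ : OpenPartialHomeomorph ℂ ℂ,
    filledJulia f U' ⊆ φ.source ∧ φ '' filledJulia f U' = quadJulia c ∧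
    (∀ z ∈ φ.source, z ∈ U' → f z ∈ φ.source → φ (f z) = φ z ^ 2 + c) ∧
    DifferentiableOn ℂ φ (interior (filledJulia f U')) ∧
    DifferentiableOn ℂ φ.symm (interior (quadJulia c))

/-- `M'` is a baby Mandelbrot set in the `a`-plane of `r_{n,a}`, centred at `a₀`. -/
def IsBabyMandelbrot (n : ℕ) (a₀ : ℂ) (M' : Set ℂ) : Prop :=
  IsCompact M' ∧ ∃ (h₀ : a₀ ∈ M') (χ : M' ≃ₜ mandelbrot), (χ ⟨a₀, h₀⟩ : ℂ) = 0 ∧
    ∃ W : Set ℂ, Nonempty (W ≃ₜ closedBall (0 : ℂ) 1) ∧ M' ⊆ W ∧ (0 : ℂ) ∉ W ∧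
    ∃ U' U : ℂ → Set ℂ, (∀ a ∈ W, PolyLike2 (r n a) (U' a) (U a) (vMinus n a)) ∧
      M' = {a ∈ W | IsConnected (filledJulia (r n a) (U' a))} ∧
      ∀ a (ha : a ∈ M'), WeakHybrid (r n a) (U' a) (χ ⟨a, ha⟩)

end Pool.Agent.LibH66.McM
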