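import Mathlib
import Pool.Agent.Lib_helper66.McMDefs

/-!
# Consequences of the (weak) hybrid equivalence with a quadratic polynomial, `c` small
-/

namespace Pool.Agent.LibH66.McM

open Complex Filter Topology Set Metric

/-- small `c`: the attracting fixed point of `z² + c` -/
theorem quad_small {c : ℂ} (hc : ‖c‖ ≤ 1 / 100) :
    ∃ α : ℂ, α - α ^ 2 = c ∧ ‖α‖ ≤ 21 / 20 * ‖c‖ ∧
      ∀ z : ℂ, ‖z‖ ≤ 1 / 4 → Tendsto (fun m => (fun z => z ^ 2 + c)^[m] z) atTop (𝓝 α) := by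
  set q : ℂ → ℂ := fun z => z ^ 2 + c with hq
  have hmaps : MapsTo q (closedBall 0 (1 / 4)) (closedBall 0 (1 / 4)) := by
    intro z hz
    rw [mem_closedBall_zero_iff] at hz ⊢
    calc ‖z ^ 2 + c‖ ≤ ‖z‖ ^ 2 + ‖c‖ := by rw [← norm_pow]; exact norm_add_le _ _
      _ ≤ (1 / 4) ^ 2 + 1 / 100 := by gcongr
      _ ≤ 1 / 4 := by norm_num
  have hlip : ∀ z ∈ closedBall (0 : ℂ) (1 / 4), ∀ w ∈ closedBall (0 : ℂ) (1 / 4),
      dist (q z) (q w) ≤ 1 / 2 * dist z w := by
    intro z hz w hw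
    rw [mem_closedBall_zero_iff] at hz hw
    rw [dist_eq_norm, dist_eq_norm]
    have : q z - q w = (z + w) * (z - w) := by simp only [hq]; ring
    rw [this, norm_mul]
    gcongr
    calc ‖z + w‖ ≤ ‖z‖ + ‖w‖ := norm_add_le _ _
      _ ≤ 1 / 2 := by linarith
  have hcontr : ContractingWith (1 / 2) (hmaps.restrict q _ _) := by
    refine ⟨by
      rw [← NNReal.coe_lt_coe]; norm_num, LipschitzWith.of_dist_le_mul fun x y => ?_⟩
    have := hlip x x.2 y y.2
    have e : ((1 / 2 : NNReal) : ℝ) = 1 / 2 := by norm_num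
    rw [e]
    exact this
  obtain ⟨α, hα, hfix, -, -⟩ := hcontr.exists_fixedPoint' (isClosed_closedBall.isComplete)
    hmaps (mem_closedBall_self (by norm_num)) (edist_ne_top _ _)
  have hα4 : ‖α‖ ≤ 1 / 4 := by simpa using hα
  have hfix' : α ^ 2 + c = α := hfix
  have h0 := norm_nonneg α
  have h1 : ‖α‖ ≤ ‖α‖ ^ 2 + ‖c‖ := by
    calc ‖α‖ = ‖α ^ 2 + c‖ := by rw [hfix']
      _ ≤ ‖α‖ ^ 2 + ‖c‖ := by rw [← norm_pow]; exact norm_add_le _ _
  refine ⟨α, by linear_combination -hfix', ?_, ?_⟩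
  · have h2 : ‖α‖ ≤ 4 / 3 * ‖c‖ := by nlinarith
    have h3 : ‖α‖ ≤ 1 / 60 := by linarith
    nlinarith
  · intro z hz
    have hbound : ∀ m : ℕ, ‖q^[m] z‖ ≤ 1 / 4 ∧ dist (q^[m] z) α ≤ (1 / 2) ^ m * dist z α := by
      intro m
      induction m with
      | zero => exact ⟨by simpa using hz, by simp⟩
      | succ m ih =>
        rw [Function.iterate_succ_apply']
        have hm : q^[m] z ∈ closedBall (0 : ℂ) (1 / 4) := by
          rw [mem_closedBall_zero_iff]; exact ih.1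
        refine ⟨by simpa using hmaps hm, ?_⟩
        calc dist (q (q^[m] z)) α = dist (q (q^[m] z)) (q α) := by
              congr 1; exact hfix'.symm
          _ ≤ 1 / 2 * dist (q^[m] z) α := hlip _ hm _ hα
          _ ≤ 1 / 2 * ((1 / 2) ^ m * dist z α) := by gcongr; exact ih.2
          _ = (1 / 2) ^ (m + 1) * dist z α := by ring
    rw [tendsto_iff_dist_tendsto_zero]
    refine squeeze_zero (fun m => dist_nonneg) (fun m => (hbound m).2) ?_
    have := (tendsto_pow_atTop_nhds_zero_of_lt_one (r := (1 / 2 : ℝ)) (by norm_num)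
      (by norm_num)).mul_const (dist z α)
    simpa using this

theorem ball_subset_quadJulia {c : ℂ} (hc : ‖c‖ ≤ 1 / 100) :
    closedBall (0 : ℂ) (1 / 4) ⊆ quadJulia c := by
  intro z hz
  rw [mem_closedBall_zero_iff] at hz
  refine ⟨1 / 4, fun m => ?_⟩
  induction m with
  | zero => simpa using hz
  | succ m ih =>
    rw [Function.iterate_succ_apply']
    calc ‖((fun z => z ^ 2 + c)^[m] z) ^ 2 + c‖
        ≤ ‖(fun z => z ^ 2 + c)^[m] z‖ ^ 2 + ‖c‖ := by rw [← norm_pow]; exact norm_add_le _ _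
      _ ≤ (1 / 4) ^ 2 + 1 / 100 := by gcongr
      _ ≤ 1 / 4 := by norm_num

theorem mem_mandelbrot {c : ℂ} (hc : ‖c‖ ≤ 1 / 100) : c ∈ mandelbrot :=
  ball_subset_quadJulia hc (mem_closedBall_self (by norm_num))

/-- The orbit of the critical value converges to a point with derivative `2α`. -/
theorem attracted {f : ℂ → ℂ} {U' U : Set ℂ} {v c : ℂ} (hf : PolyLike2 f U' U v)
    (hh : WeakHybrid f U' c) (hc : ‖c‖ ≤ 1 / 100) :
    ∃ z α : ℂ, z ∈ U' ∧ Tendsto (fun m => f^[m] v) atTop (𝓝 z) ∧ deriv f z = 2 * α ∧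
      α - α ^ 2 = c ∧ ‖α‖ ≤ 21 / 20 * ‖c‖ := by
  obtain ⟨φ, hsrc, himg, hconj, hd, hd'⟩ := hh
  obtain ⟨α, hα, hαn, hlim⟩ := quad_small hc
  set K := filledJulia f U' with hK
  have hK' : K ⊆ U' := fun z hz => hz.1
  have hKinv : ∀ z ∈ K, f z ∈ K := by
    intro z hz
    refine ⟨hz.2 1, fun m => ?_⟩
    have := hz.2 (m + 1)
    rwa [Function.iterate_succ_apply] at this
  have hconjK : ∀ z ∈ K, φ (f z) = φ z ^ 2 + c := fun z hz =>
    hconj z (hsrc hz) (hK' hz) (hsrc (hKinv z hz))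
  have hsymm : ∀ x ∈ quadJulia c, x ∈ φ.target ∧ φ.symm x ∈ K ∧ φ (φ.symm x) = x := by
    intro x hx
    rw [← himg] at hx
    obtain ⟨z, hz, rfl⟩ := hx
    have h1 : φ.symm (φ z) = z := φ.left_inv (hsrc hz)
    exact ⟨φ.map_source (hsrc hz), by rw [h1]; exact hz, by rw [h1]⟩
  have hball := ball_subset_quadJulia hc
  have h0J : (0 : ℂ) ∈ quadJulia c := hball (mem_closedBall_self (by norm_num))
  -- the point corresponding to the critical point
  obtain ⟨h0t, h0K, h0φ⟩ := hsymm 0 h0J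
  set ω := φ.symm 0 with hω
  have hcrit : deriv f ω = 0 := by
    by_contra hne
    have hstrict : HasStrictDerivAt f (deriv f ω) ω := by
      have han : AnalyticAt ℂ f ω :=
        hf.holo.analyticAt (hf.isOpen_source.mem_nhds (hK' h0K))
      exact han.hasStrictDerivAt
    have hinj : ∃ O ∈ 𝓝 ω, InjOn f O := by
      have h1 := (hstrict.hasStrictFDerivAt_equiv hne).eventually_left_inverse
      refine ⟨_, h1, ?_⟩
      intro x hx y hy hxy
      have hx' : _ = x := hx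
      have hy' : _ = y := hy
      rw [← hx', ← hy', hxy]
    obtain ⟨O, hO, hinjO⟩ := hinj
    have hcontφ : ContinuousAt φ.symm 0 := φ.continuousAt_symm h0t
    have h1 : ∀ᶠ x in 𝓝 (0 : ℂ), φ.symm x ∈ O := hcontφ.eventually (by rwa [← hω])
    have h2 : ∀ᶠ x in 𝓝 (0 : ℂ), φ.symm (-x) ∈ O := by
      have : Tendsto (fun x : ℂ => -x) (𝓝 0) (𝓝 0) := by
        simpa using (continuous_neg (G := ℂ)).tendsto 0
      exact this.eventually h1
    have h3 : ∀ᶠ x in 𝓝 (0 : ℂ), x ∈ closedBall (0 : ℂ) (1 / 4) :=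
      closedBall_mem_nhds _ (by norm_num)
    have h4 := h1.and (h2.and h3)
    have h5 : ∃ᶠ x in 𝓝[≠] (0 : ℂ), x ≠ 0 :=
      (eventually_mem_nhdsWithin (a := (0 : ℂ)) (s := {0}ᶜ)).frequently.mono fun x hx => hx
    obtain ⟨x, hx0, hx1, hx2, hx3⟩ := (h5.and_eventually (h4.filter_mono nhdsWithin_le_nhds)).exists
    have hx3' : -x ∈ closedBall (0 : ℂ) (1 / 4) := by simpa using hx3
    obtain ⟨-, hxK, hxφ⟩ := hsymm x (hball hx3)
    obtain ⟨-, hxK', hxφ'⟩ := hsymm (-x) (hball hx3')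
    have e1 := hconjK _ hxK
    have e2 := hconjK _ hxK'
    rw [hxφ] at e1
    rw [hxφ'] at e2
    have e3 : φ (f (φ.symm x)) = φ (f (φ.symm (-x))) := by rw [e1, e2]; ring
    have e4 : f (φ.symm x) = f (φ.symm (-x)) :=
      φ.injOn (hsrc (hKinv _ hxK)) (hsrc (hKinv _ hxK')) e3
    have e5 := hinjO hx1 hx2 e4
    have e6 : x = -x := by
      calc x = φ (φ.symm x) := hxφ.symm
        _ = φ (φ.symm (-x)) := by rw [e5]
        _ = -x := hxφ'
    apply hx0
    linear_combination e6 / 2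
  have hfω : f ω = v := by
    have h1 : f ω ∈ {w | ∃ z ∈ U', deriv f z = 0 ∧ f z = w} := ⟨ω, hK' h0K, hcrit, rfl⟩
    rw [hf.critical] at h1
    exact h1
  have hvK : v ∈ K := hfω ▸ hKinv _ h0K
  have hφv : φ v = c := by
    rw [← hfω, hconjK _ h0K, h0φ]; ring
  have hαball : α ∈ closedBall (0 : ℂ) (1 / 4) := by
    rw [mem_closedBall_zero_iff]; linarith
  obtain ⟨hαt, hαK, hαφ⟩ := hsymm α (hball hαball)
  set z₀ := φ.symm α with hz₀
  have horb : ∀ m : ℕ, f^[m] v ∈ K ∧ φ (f^[m] v) = (fun z => z ^ 2 + c)^[m] c := by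
    intro m
    induction m with
    | zero => exact ⟨hvK, hφv⟩
    | succ m ih =>
      rw [Function.iterate_succ_apply', Function.iterate_succ_apply']
      exact ⟨hKinv _ ih.1, by rw [hconjK _ ih.1, ih.2]⟩
  have htend : Tendsto (fun m => f^[m] v) atTop (𝓝 z₀) := by
    have h1 := hlim c (by linarith)
    have h2 := (φ.continuousAt_symm hαt).tendsto.comp h1
    refine h2.congr fun m => ?_
    rw [Function.comp_apply, ← (horb m).2, φ.left_inv (hsrc (horb m).1)]
  -- interior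
  have hαint : α ∈ interior (quadJulia c) := by
    refine interior_mono hball ?_
    rw [interior_closedBall _ (by norm_num), mem_ball_zero_iff]
    linarith
  have hz₀int : z₀ ∈ interior K := by
    rw [mem_interior_iff_mem_nhds]
    have h1 : ∀ᶠ x in 𝓝 z₀, φ x ∈ quadJulia c := by
      have hc1 : ContinuousAt φ z₀ := φ.continuousAt (hsrc hαK)
      have : quadJulia c ∈ 𝓝 (φ z₀) := by rw [hαφ]; exact mem_interior_iff_mem_nhds.1 hαint
      exact hc1.eventually this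
    have h2 : ∀ᶠ x in 𝓝 z₀, x ∈ φ.source := φ.open_source.mem_nhds (hsrc hαK)
    filter_upwards [h1, h2] with x hx hx'
    rw [← himg] at hx
    obtain ⟨y, hy, hyx⟩ := hx
    rwa [← φ.injOn (hsrc hy) hx' hyx]
  have hφd : DifferentiableAt ℂ φ z₀ := hd.differentiableAt (isOpen_interior.mem_nhds hz₀int)
  have hφsd : DifferentiableAt ℂ φ.symm α := hd'.differentiableAt (isOpen_interior.mem_nhds hαint)
  have hφ' : deriv φ z₀ ≠ 0 := by
    intro h
    have h1 : HasDerivAt φ.symm (deriv φ.symm α) (φ z₀) := by rw [hαφ]; exact hφsd.hasDerivAt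
    have h2 := h1.comp z₀ hφd.hasDerivAt
    rw [h, mul_zero] at h2
    have h3 : φ.symm ∘ φ =ᶠ[𝓝 z₀] id := by
      filter_upwards [φ.open_source.mem_nhds (hsrc hαK)] with x hx
      exact φ.left_inv hx
    have h4 := (h2.congr_of_eventuallyEq h3.symm).unique (hasDerivAt_id z₀)
    exact zero_ne_one h4
  have hfz : f z₀ = z₀ := by
    apply φ.injOn (hsrc (hKinv _ hαK)) (hsrc hαK)
    rw [hconjK _ hαK, hαφ, ← hα]; ring
  have hfd : DifferentiableAt ℂ f z₀ :=
    hf.holo.differentiableAt (hf.isOpen_source.mem_nhds (hK' hαK))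
  refine ⟨z₀, α, hK' hαK, htend, ?_, hα, hαn⟩
  have h1 : HasDerivAt (φ ∘ f) (deriv φ z₀ * deriv f z₀) z₀ := by
    apply HasDerivAt.comp
    · rw [hfz]; exact hφd.hasDerivAt
    · exact hfd.hasDerivAt
  have h2 : HasDerivAt (fun z => φ z ^ 2 + c) (2 * φ z₀ * deriv φ z₀) z₀ := by
    have := (hφd.hasDerivAt.pow 2).add_const c
    simpa using this
  have h3 : φ ∘ f =ᶠ[𝓝 z₀] fun z => φ z ^ 2 + c := by
    have e1 : ∀ᶠ x in 𝓝 z₀, x ∈ interior K := isOpen_interior.mem_nhds hz₀int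
    filter_upwards [e1] with x hx
    exact hconjK x (interior_subset hx)
  have h4 := (h1.congr_of_eventuallyEq h3.symm).unique h2
  rw [hαφ] at h4
  apply mul_left_cancel₀ hφ'
  rw [h4]; ring

end Pool.Agent.LibH66.McM
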