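import Mathlib

/-!
# Local analysis of the maps `z^n + a/z^n + b` near a critical point

Coordinates: `a = exp ℓ`, `s = exp (ℓ/2)`, `ρ = exp (ℓ/(2n))`, `b = ρ - 2s`, critical point
`c = ρ ζ` with `ζ^n = -1`, `z = c (1 + w/n)`, `t = n s / c`.
-/

namespace Pool.Agent.LibH66.McM

open Complex Filter Topology Set

/-- `E(w) - 2` is quadratically small, `E(w) = u + u⁻¹`, `u = (1+w/n)^n`. -/
theorem exists_log {n : ℕ} (hn : 10000 ≤ n) {w : ℂ} (hw : ‖w‖ ≤ 1 / 10) :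
    ∃ L : ℂ, (1 + w / n) ^ n = exp L ∧ ‖L - w‖ ≤ ‖w‖ ^ 2 / n := by
  have hn0 : (0 : ℝ) < n := by
    have : (10000 : ℝ) ≤ n := by exact_mod_cast hn
    linarith
  have hnC : (n : ℂ) ≠ 0 := by exact_mod_cast hn0.ne'
  have h1 : ‖w / n‖ ≤ 1 / 10 := by
    rw [norm_div, norm_natCast]
    have : (1 : ℝ) ≤ n := by
      have : (10000 : ℝ) ≤ n := by exact_mod_cast hn
      linarith
    calc ‖w‖ / n ≤ ‖w‖ / 1 := by gcongr
      _ ≤ 1 / 10 := by simpa using hw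
  have h2 : 1 + w / n ≠ 0 := by
    intro h
    have : w / n = -1 := by linear_combination h
    rw [this] at h1
    norm_num at h1
  refine ⟨n * log (1 + w / n), ?_, ?_⟩
  · rw [exp_nat_mul, exp_log h2]
  · have h3 := Complex.norm_log_one_add_sub_self_le (z := w / n) (by linarith)
    have h4 : (n : ℂ) * log (1 + w / n) - w = n * (log (1 + w / n) - w / n) := by
      field_simp
    rw [h4, norm_mul, norm_natCast]
    have h5 : ‖w / n‖ = ‖w‖ / n := by rw [norm_div, norm_natCast]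
    have h6 : (1 - ‖w / n‖)⁻¹ ≤ 2 := by
      rw [inv_le_comm₀ (by linarith) (by norm_num)]
      linarith
    calc (n : ℝ) * ‖log (1 + w / n) - w / n‖ ≤ n * (‖w / n‖ ^ 2 * (1 - ‖w / n‖)⁻¹ / 2) := by
          gcongr
      _ ≤ n * (‖w / n‖ ^ 2 * 2 / 2) := by gcongr
      _ = ‖w‖ ^ 2 / n := by rw [h5]; field_simp

theorem E_bounds {n : ℕ} (hn : 10000 ≤ n) {w : ℂ} (hw : ‖w‖ ≤ 1 / 10) :
    ‖(1 + w / n) ^ n + ((1 + w / n) ^ n)⁻¹ - 2‖ ≤ 6 / 5 * ‖w‖ ^ 2 ∧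
    ‖((1 + w / n) ^ n - ((1 + w / n) ^ n)⁻¹) / (1 + w / n) - 2 * w‖ ≤ 5 / 2 * ‖w‖ ^ 2 := by
  obtain ⟨L, hL, hLw⟩ := exists_log hn hw
  have hn1 : (10000 : ℝ) ≤ n := by exact_mod_cast hn
  have hn0 : (0 : ℝ) < n := by linarith
  have hw0 := norm_nonneg w
  have hLw' : ‖L - w‖ ≤ ‖w‖ ^ 2 / 10000 := hLw.trans (by gcongr)
  have hLn : ‖L‖ ≤ 10001 / 10000 * ‖w‖ := by
    calc ‖L‖ = ‖w + (L - w)‖ := by ring_nf
      _ ≤ ‖w‖ + ‖L - w‖ := norm_add_le _ _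
      _ ≤ ‖w‖ + ‖w‖ ^ 2 / 10000 := by gcongr
      _ ≤ 10001 / 10000 * ‖w‖ := by nlinarith
  have hLs : ‖L‖ ≤ 11 / 100 := by linarith
  rw [hL, ← exp_neg]
  constructor
  · have h1 : exp L + exp (-L) - 2 = (exp (L / 2) - exp (-(L / 2))) ^ 2 := by
      have e1 : exp L = exp (L / 2) ^ 2 := by rw [← exp_nat_mul]; congr 1; push_cast; ring
      have e2 : exp (-L) = exp (-(L / 2)) ^ 2 := by rw [← exp_nat_mul]; congr 1; push_cast; ring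
      have e3 : exp (L / 2) * exp (-(L / 2)) = 1 := by rw [← exp_add]; simp
      rw [e1, e2]
      linear_combination 2 * e3
    have h2 : ‖L / 2‖ ≤ 1 := by rw [norm_div]; norm_num; linarith
    have h3 := Complex.norm_exp_sub_one_sub_id_le h2
    have h4 := Complex.norm_exp_sub_one_sub_id_le (x := -(L / 2)) (by rwa [norm_neg])
    rw [norm_neg] at h4
    have h5 : ‖L / 2‖ = ‖L‖ / 2 := by rw [norm_div]; norm_num
    rw [h5] at h3 h4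
    have h6 : ‖exp (L / 2) - exp (-(L / 2))‖ ≤ ‖L‖ + ‖L‖ ^ 2 / 2 := by
      have : exp (L / 2) - exp (-(L / 2)) = L + (exp (L / 2) - 1 - L / 2) -
          (exp (-(L / 2)) - 1 - -(L / 2)) := by ring
      rw [this]
      calc ‖L + (exp (L / 2) - 1 - L / 2) - (exp (-(L / 2)) - 1 - -(L / 2))‖
          ≤ ‖L + (exp (L / 2) - 1 - L / 2)‖ + ‖exp (-(L / 2)) - 1 - -(L / 2)‖ := norm_sub_le _ _
        _ ≤ ‖L‖ + ‖exp (L / 2) - 1 - L / 2‖ + ‖exp (-(L / 2)) - 1 - -(L / 2)‖ := by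
            gcongr; exact norm_add_le _ _
        _ ≤ ‖L‖ + (‖L‖ / 2) ^ 2 + (‖L‖ / 2) ^ 2 := by gcongr
        _ = ‖L‖ + ‖L‖ ^ 2 / 2 := by ring
    have h7 : ‖exp (L / 2) - exp (-(L / 2))‖ ≤ 108 / 100 * ‖w‖ := by
      have := norm_nonneg L
      nlinarith
    rw [h1, norm_pow]
    have h8 := norm_nonneg (exp (L / 2) - exp (-(L / 2)))
    nlinarith
  · have h2 : ‖L‖ ≤ 1 := by linarith
    have h3 := Complex.norm_exp_sub_one_sub_id_le h2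
    have h4 := Complex.norm_exp_sub_one_sub_id_le (x := -L) (by rwa [norm_neg])
    rw [norm_neg] at h4
    have h6 : ‖exp L - exp (-L) - 2 * L‖ ≤ 2 * ‖L‖ ^ 2 := by
      have : exp L - exp (-L) - 2 * L = (exp L - 1 - L) - (exp (-L) - 1 - -L) := by ring
      rw [this]
      calc _ ≤ _ := norm_sub_le _ _
        _ ≤ ‖L‖ ^ 2 + ‖L‖ ^ 2 := by gcongr
        _ = _ := by ring
    set X := exp L - exp (-L) with hX
    have h7 : ‖X - 2 * w‖ ≤ 21 / 10 * ‖w‖ ^ 2 := by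
      have : X - 2 * w = (X - 2 * L) + 2 * (L - w) := by ring
      rw [this]
      calc ‖(X - 2 * L) + 2 * (L - w)‖ ≤ ‖X - 2 * L‖ + ‖2 * (L - w)‖ := norm_add_le _ _
        _ ≤ 2 * ‖L‖ ^ 2 + 2 * (‖w‖ ^ 2 / 10000) := by
            rw [norm_mul]; norm_num; gcongr
        _ ≤ 2 * (10001 / 10000 * ‖w‖) ^ 2 + 2 * (‖w‖ ^ 2 / 10000) := by gcongr
        _ ≤ 21 / 10 * ‖w‖ ^ 2 := by nlinarith
    have h8 : ‖X‖ ≤ 3 * ‖w‖ := by
      calc ‖X‖ = ‖(X - 2 * w) + 2 * w‖ := by ring_nf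
        _ ≤ ‖X - 2 * w‖ + ‖2 * w‖ := norm_add_le _ _
        _ ≤ 21 / 10 * ‖w‖ ^ 2 + 2 * ‖w‖ := by rw [norm_mul]; norm_num; linarith
        _ ≤ 3 * ‖w‖ := by nlinarith
    have h9 : ‖w / n‖ ≤ ‖w‖ / 10000 := by
      rw [norm_div, Complex.norm_natCast]; gcongr
    have h10 : (1 / 2 : ℝ) ≤ ‖1 + w / n‖ := by
      have := norm_sub_norm_le (1 : ℂ) (-(w / n))
      rw [sub_neg_eq_add, norm_neg, norm_one] at this
      linarith
    have h11 : 1 + w / n ≠ 0 := by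
      intro h; rw [h] at h10; norm_num at h10
    have h12 : X / (1 + w / n) - 2 * w = (X - 2 * w) - X * (w / n) / (1 + w / n) := by
      field_simp
      ring
    rw [h12]
    calc ‖(X - 2 * w) - X * (w / n) / (1 + w / n)‖
        ≤ ‖X - 2 * w‖ + ‖X * (w / n) / (1 + w / n)‖ := norm_sub_le _ _
      _ ≤ 21 / 10 * ‖w‖ ^ 2 + 3 * ‖w‖ * (‖w‖ / 10000) / (1 / 2) := by
          rw [norm_div, norm_mul]; gcongr
      _ ≤ 5 / 2 * ‖w‖ ^ 2 := by nlinarith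


/-- the map in the original coordinate -/
noncomputable def R (n : ℕ) (ℓ z : ℂ) : ℂ :=
  z ^ n + exp ℓ / z ^ n + (exp (ℓ / (2 * n)) - 2 * exp (ℓ / 2))

/-- the critical value -/
noncomputable def V (n : ℕ) (ℓ : ℂ) : ℂ := exp (ℓ / (2 * n)) - 4 * exp (ℓ / 2)

/-- its derivative -/
noncomputable def R' (n : ℕ) (ℓ z : ℂ) : ℂ :=
  n * z ^ (n - 1) - n * exp ℓ / z ^ (n + 1)

/-- parameter `t` -/
noncomputable def T (n : ℕ) (ζ ℓ : ℂ) : ℂ := n * exp (ℓ / 2) / (exp (ℓ / (2 * n)) * ζ)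

/-- centre of the parameter `t` -/
noncomputable def τ (n : ℕ) (ζ : ℂ) : ℂ := n * (ζ⁻¹ - 1) / 4

/-- the map in the coordinate `w` -/
noncomputable def G (n : ℕ) (ζ ℓ w : ℂ) : ℂ :=
  4 * τ n ζ - T n ζ ℓ * (2 + ((1 + w / n) ^ n + ((1 + w / n) ^ n)⁻¹))

section
variable {n : ℕ} {ζ ℓ : ℂ}

theorem root_pow (hn : n ≠ 0) (ℓ : ℂ) : exp (ℓ / (2 * n)) ^ n = exp (ℓ / 2) := by
  rw [← exp_nat_mul]
  congr 1
  have : (n : ℂ) ≠ 0 := by exact_mod_cast hn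
  field_simp

theorem exp_sq (ℓ : ℂ) : exp ℓ = exp (ℓ / 2) ^ 2 := by
  rw [← exp_nat_mul]; congr 1; push_cast; ring

theorem R_eq (hn : n ≠ 0) (hζ : ζ ^ n = -1) {w : ℂ} (hw : 1 + w / n ≠ 0) :
    R n ℓ (exp (ℓ / (2 * n)) * ζ * (1 + w / n)) =
      exp (ℓ / (2 * n)) * ζ * (1 + G n ζ ℓ w / n) := by
  have hnC : (n : ℂ) ≠ 0 := by exact_mod_cast hn
  have hζ0 : ζ ≠ 0 := by
    rintro rfl
    rw [zero_pow hn] at hζ
    norm_num at hζ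
  have hu : (1 + w / n) ^ n ≠ 0 := pow_ne_zero _ hw
  unfold R G T τ
  rw [mul_pow, mul_pow, root_pow hn, hζ, exp_sq ℓ]
  set s := exp (ℓ / 2) with hs
  set ρ := exp (ℓ / (2 * n)) with hρ
  have hs0 : s ≠ 0 := exp_ne_zero _
  have hρ0 : ρ ≠ 0 := exp_ne_zero _
  set u := (1 + w / n) ^ n with hu'
  field_simp
  ring

theorem V_eq (hn : n ≠ 0) (hζ : ζ ^ n = -1) :
    V n ℓ = exp (ℓ / (2 * n)) * ζ * (1 + G n ζ ℓ 0 / n) := by
  have hnC : (n : ℂ) ≠ 0 := by exact_mod_cast hn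
  have hζ0 : ζ ≠ 0 := by
    rintro rfl
    rw [zero_pow hn] at hζ
    norm_num at hζ
  unfold V G T τ
  have hρ0 : exp (ℓ / (2 * n)) ≠ 0 := exp_ne_zero _
  simp only [zero_div, add_zero, one_pow, inv_one]
  field_simp
  ring

theorem R'_eq (hn : n ≠ 0) (hζ : ζ ^ n = -1) {w : ℂ} (hw : 1 + w / n ≠ 0) :
    R' n ℓ (exp (ℓ / (2 * n)) * ζ * (1 + w / n)) =
      - T n ζ ℓ * (((1 + w / n) ^ n - ((1 + w / n) ^ n)⁻¹) / (1 + w / n)) := by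
  have hnC : (n : ℂ) ≠ 0 := by exact_mod_cast hn
  have hζ0 : ζ ≠ 0 := by
    rintro rfl
    rw [zero_pow hn] at hζ
    norm_num at hζ
  have hρ0 : exp (ℓ / (2 * n)) ≠ 0 := exp_ne_zero _
  have hs0 : exp (ℓ / 2) ≠ 0 := exp_ne_zero _
  set c := exp (ℓ / (2 * n)) * ζ * (1 + w / n) with hc
  have hc0 : c ≠ 0 := mul_ne_zero (mul_ne_zero hρ0 hζ0) hw
  have h1 : c ^ n = - exp (ℓ / 2) * (1 + w / n) ^ n := by
    rw [hc, mul_pow, mul_pow, root_pow hn, hζ]; ring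
  have h2 : c ^ (n - 1) = c ^ n / c := by
    rw [eq_div_iff hc0, ← pow_succ]
    congr 1
    omega
  have h3 : c ^ (n + 1) = c ^ n * c := pow_succ _ _
  have hu : (1 + w / n) ^ n ≠ 0 := pow_ne_zero _ hw
  unfold R' T
  rw [h2, h3, h1, exp_sq ℓ, hc]
  set u := (1 + w / n) ^ n with hu'
  field_simp
  ring

/-- the ball of radius `1/(4K)` is invariant -/
theorem G_ball {K : ℝ} (hK : 3 ≤ K) (hn : 10000 ≤ n) (hT : ‖T n ζ ℓ‖ ≤ K)
    (hT' : ‖T n ζ ℓ - τ n ζ‖ ≤ 1 / (25 * K)) {w : ℂ} (hw : ‖w‖ ≤ 1 / (4 * K)) :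
    ‖G n ζ ℓ w‖ ≤ 1 / (4 * K) := by
  have hK0 : 0 < K := by linarith
  have hw1 : ‖w‖ ≤ 1 / 10 := hw.trans (by
    rw [div_le_div_iff₀ (by positivity) (by norm_num)]; linarith)
  have h1 := (E_bounds hn hw1).1
  have h2 : G n ζ ℓ w = -(4 * (T n ζ ℓ - τ n ζ)) -
      T n ζ ℓ * ((1 + w / n) ^ n + ((1 + w / n) ^ n)⁻¹ - 2) := by
    unfold G; ring
  rw [h2]
  calc ‖-(4 * (T n ζ ℓ - τ n ζ)) - T n ζ ℓ * ((1 + w / n) ^ n + ((1 + w / n) ^ n)⁻¹ - 2)‖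
      ≤ ‖-(4 * (T n ζ ℓ - τ n ζ))‖ +
        ‖T n ζ ℓ * ((1 + w / n) ^ n + ((1 + w / n) ^ n)⁻¹ - 2)‖ := norm_sub_le _ _
    _ ≤ 4 * (1 / (25 * K)) + K * (6 / 5 * (1 / (4 * K)) ^ 2) := by
        rw [norm_neg, norm_mul, norm_mul]
        have : ‖(4 : ℂ)‖ = 4 := by norm_num
        rw [this]
        have h3 : 6 / 5 * ‖w‖ ^ 2 ≤ 6 / 5 * (1 / (4 * K)) ^ 2 := by gcongr
        have h4 := h1.trans h3
        gcongr
    _ ≤ 1 / (4 * K) := by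
        have : 4 * (1 / (25 * K)) + K * (6 / 5 * (1 / (4 * K)) ^ 2) = (47 / 200) * (1 / K) := by
          field_simp; ring
        rw [this]
        have h5 : 1 / (4 * K) = (1 / 4) * (1 / K) := by field_simp
        rw [h5]
        have : 0 < 1 / K := by positivity
        nlinarith

theorem one_add_ne {w : ℂ} (hn : 10000 ≤ n) (hw : ‖w‖ ≤ 1 / 10) : 1 + w / n ≠ 0 := by
  intro h
  have h1 : w / n = -1 := by linear_combination h
  have h2 : ‖w / n‖ = 1 := by rw [h1]; simp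
  rw [norm_div, Complex.norm_natCast] at h2
  have hn1 : (10000 : ℝ) ≤ n := by exact_mod_cast hn
  have : ‖w‖ / n ≤ 1 / 10 / 1 := by gcongr; linarith
  linarith

/-- **Key estimate.** If the orbit of the critical value converges to a point with derivative
`2α`, `α - α² = c`, then `4 t (t - τ)` is close to `c`. -/
theorem key {K : ℝ} (hK : 3 ≤ K) (hn : 10000 ≤ n) (hζ : ζ ^ n = -1)
    (hT1 : 7 / 10 * K ≤ ‖T n ζ ℓ‖) (hT : ‖T n ζ ℓ‖ ≤ K)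
    (hT' : ‖T n ζ ℓ - τ n ζ‖ ≤ 1 / (25 * K)) {z₀ α c : ℂ}
    (hz : Tendsto (fun m => (R n ℓ)^[m] (V n ℓ)) atTop (𝓝 z₀)) (hd : R' n ℓ z₀ = 2 * α)
    (hα : α - α ^ 2 = c) (hα' : ‖α‖ ≤ 21 / 20 * ‖c‖) (hc : ‖c‖ ≤ 1 / 100) :
    ‖4 * T n ζ ℓ * (T n ζ ℓ - τ n ζ) - c‖ ≤ ‖c‖ / 10 := by
  have hK0 : 0 < K := by linarith
  have hn0 : n ≠ 0 := by omega
  have hnC : (n : ℂ) ≠ 0 := by exact_mod_cast hn0
  have hζ0 : ζ ≠ 0 := by
    rintro rfl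
    rw [zero_pow hn0] at hζ
    norm_num at hζ
  set p := exp (ℓ / (2 * n)) * ζ with hp
  have hp0 : p ≠ 0 := mul_ne_zero (exp_ne_zero _) hζ0
  have hr : 1 / (4 * K) ≤ (1 : ℝ) / 10 := by
    rw [div_le_div_iff₀ (by positivity) (by norm_num)]; linarith
  have horb : ∀ m : ℕ, ∃ w : ℂ, ‖w‖ ≤ 1 / (4 * K) ∧ (R n ℓ)^[m] (V n ℓ) = p * (1 + w / n) := by
    intro m
    induction m with
    | zero =>
      refine ⟨G n ζ ℓ 0, G_ball hK hn hT hT' (by rw [norm_zero]; positivity), ?_⟩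
      exact V_eq hn0 hζ
    | succ m ih =>
      obtain ⟨w, hw, hw'⟩ := ih
      refine ⟨G n ζ ℓ w, G_ball hK hn hT hT' hw, ?_⟩
      rw [Function.iterate_succ_apply', hw']
      exact R_eq hn0 hζ (one_add_ne hn (hw.trans hr))
  choose w hw hw' using horb
  have hwl : Tendsto w atTop (𝓝 (n * (z₀ / p - 1))) := by
    have h1 : w = fun m => (n : ℂ) * ((R n ℓ)^[m] (V n ℓ) / p - 1) := by
      funext m
      rw [hw' m]
      field_simp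
      ring
    rw [h1]
    exact ((hz.div_const p).sub_const 1).const_mul _
  set w₀ := n * (z₀ / p - 1) with hw₀
  have hz₀ : z₀ = p * (1 + w₀ / n) := by
    rw [hw₀]; field_simp; ring
  clear_value w₀
  have hw₀n : ‖w₀‖ ≤ 1 / (4 * K) :=
    le_of_tendsto hwl.norm (Eventually.of_forall hw)
  have hw₀1 : ‖w₀‖ ≤ 1 / 10 := hw₀n.trans hr
  have h1w : 1 + w₀ / n ≠ 0 := one_add_ne hn hw₀1
  have hz₀0 : z₀ ≠ 0 := by rw [hz₀]; exact mul_ne_zero hp0 h1w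
  -- fixed point
  have hfix : G n ζ ℓ w₀ = w₀ := by
    have hcont : ContinuousAt (R n ℓ) z₀ := by
      unfold R
      have : z₀ ^ n ≠ 0 := pow_ne_zero _ hz₀0
      fun_prop (disch := assumption)
    have h1 : Tendsto (fun m => (R n ℓ)^[m + 1] (V n ℓ)) atTop (𝓝 (R n ℓ z₀)) := by
      have := hcont.tendsto.comp hz
      refine this.congr fun m => ?_
      rw [Function.iterate_succ_apply']; rfl
    have h2 : R n ℓ z₀ = z₀ := tendsto_nhds_unique h1 ((tendsto_add_atTop_iff_nat 1).2 hz)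
    rw [hz₀, R_eq hn0 hζ h1w] at h2
    have h3 := mul_left_cancel₀ hp0 h2
    field_simp at h3
    linear_combination h3
  have hE := E_bounds hn hw₀1
  have hd' : - T n ζ ℓ * (((1 + w₀ / n) ^ n - ((1 + w₀ / n) ^ n)⁻¹) / (1 + w₀ / n)) = 2 * α := by
    rw [← hd, hz₀, R'_eq hn0 hζ h1w]
  set t := T n ζ ℓ with ht
  set u := (1 + w₀ / n) ^ n with hu
  set y := ‖w₀‖ with hy
  have hy0 : 0 ≤ y := norm_nonneg _
  -- (i)
  have hi : ‖2 * α + 2 * (t * w₀)‖ ≤ ‖t‖ * (5 / 2 * y ^ 2) := by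
    have : 2 * α + 2 * (t * w₀) = -t * ((u - u⁻¹) / (1 + w₀ / n) - 2 * w₀) := by
      rw [← hd']; ring
    rw [this, norm_mul, norm_neg]
    exact mul_le_mul_of_nonneg_left hE.2 (norm_nonneg _)
  -- (ii)
  have hii : ‖4 * (t - τ n ζ) + w₀‖ ≤ ‖t‖ * (6 / 5 * y ^ 2) := by
    have : 4 * (t - τ n ζ) + w₀ = -t * (u + u⁻¹ - 2) := by
      have h := hfix
      unfold G at h
      rw [← ht, ← hu] at h
      linear_combination -h
    rw [this, norm_mul, norm_neg]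
    exact mul_le_mul_of_nonneg_left hE.1 (norm_nonneg _)
  set x := ‖t‖ * y with hx
  have ht2 : (21 : ℝ) / 10 ≤ ‖t‖ := by linarith
  have ht0 : 0 < ‖t‖ := by linarith
  have hx0 : 0 ≤ x := by positivity
  have hy12 : y ≤ 1 / 12 := hw₀n.trans (by
    rw [div_le_div_iff₀ (by positivity) (by norm_num)]; linarith)
  have hxα : x ≤ 28 / 25 * ‖α‖ := by
    have h1 : ‖2 * (t * w₀)‖ ≤ ‖2 * α‖ + ‖2 * α + 2 * (t * w₀)‖ := by
      have : 2 * (t * w₀) = (2 * α + 2 * (t * w₀)) - 2 * α := by ring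
      have h := norm_sub_le (2 * α + 2 * (t * w₀)) (2 * α)
      rw [← this] at h
      linarith
    rw [norm_mul, norm_mul, norm_mul] at h1
    have h2 : ‖(2 : ℂ)‖ = 2 := by norm_num
    rw [h2, ← hx] at h1
    have h3 : ‖t‖ * (5 / 2 * y ^ 2) = x * (5 / 2 * y) := by rw [hx]; ring
    nlinarith
  have hxy : ‖t‖ * y ^ 2 ≤ 10 / 21 * x ^ 2 := by
    have : x ^ 2 = ‖t‖ * (‖t‖ * y ^ 2) := by rw [hx]; ring
    rw [this]
    have h0 : 0 ≤ ‖t‖ * y ^ 2 := by positivity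
    nlinarith
  have hmain : ‖4 * t * (t - τ n ζ) - c‖ ≤ 18 / 5 * ‖α‖ ^ 2 := by
    have e1 : 2 * (4 * t * (t - τ n ζ) - c) =
        2 * t * (4 * (t - τ n ζ) + w₀) - (2 * α + 2 * (t * w₀)) + 2 * α ^ 2 := by
      rw [← hα]; ring
    have e2 : ‖2 * (4 * t * (t - τ n ζ) - c)‖ = 2 * ‖4 * t * (t - τ n ζ) - c‖ := by
      rw [norm_mul]; norm_num
    have e3 : ‖2 * t * (4 * (t - τ n ζ) + w₀)‖ ≤ 12 / 5 * x ^ 2 := by
      rw [norm_mul, norm_mul]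
      have h2 : ‖(2 : ℂ)‖ = 2 := by norm_num
      rw [h2]
      calc 2 * ‖t‖ * ‖4 * (t - τ n ζ) + w₀‖ ≤ 2 * ‖t‖ * (‖t‖ * (6 / 5 * y ^ 2)) := by gcongr
        _ = 12 / 5 * x ^ 2 := by rw [hx]; ring
    have e4 : ‖2 * α ^ 2‖ = 2 * ‖α‖ ^ 2 := by rw [norm_mul, norm_pow]; norm_num
    have e5 : ‖2 * t * (4 * (t - τ n ζ) + w₀) - (2 * α + 2 * (t * w₀)) + 2 * α ^ 2‖ ≤
        12 / 5 * x ^ 2 + ‖t‖ * (5 / 2 * y ^ 2) + 2 * ‖α‖ ^ 2 := by
      calc _ ≤ ‖2 * t * (4 * (t - τ n ζ) + w₀) - (2 * α + 2 * (t * w₀))‖ + ‖2 * α ^ 2‖ :=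
            norm_add_le _ _
        _ ≤ ‖2 * t * (4 * (t - τ n ζ) + w₀)‖ + ‖2 * α + 2 * (t * w₀)‖ + ‖2 * α ^ 2‖ := by
            gcongr; exact norm_sub_le _ _
        _ ≤ _ := by rw [e4]; gcongr
    rw [← e1, e2] at e5
    have h0 := norm_nonneg α
    have h1 : x ^ 2 ≤ (28 / 25 * ‖α‖) ^ 2 := by gcongr
    nlinarith
  have h0 := norm_nonneg c
  have h1 : ‖α‖ ^ 2 ≤ (21 / 20 * ‖c‖) ^ 2 := by gcongr
  nlinarith

end

end Pool.Agent.LibH66.McM
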