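import Mathlib
import Pool.Agent.Lib_helper66.McMLocal
import Pool.Agent.Lib_helper66.McMConj

/-!
# No baby Mandelbrot set at `a_k`, `k` odd, `3 ≤ k`, `n ≥ 10000 k³`
-/

namespace Pool.Agent.LibH66.McM

open Complex Filter Topology Set Metric

/-! ### From `r n a` to `R n (log a)` -/

theorem rootP_eq {a : ℂ} (ha : a ≠ 0) (n : ℕ) : rootP n a = exp (log a / (2 * n)) := by
  unfold rootP
  rw [cpow_def_of_ne_zero ha]
  congr 1
  push_cast
  ring

theorem sqrtP_eq {a : ℂ} (ha : a ≠ 0) : sqrtP a = exp (log a / 2) := by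
  unfold sqrtP
  rw [cpow_def_of_ne_zero ha]
  congr 1
  push_cast
  ring

theorem r_eq {a : ℂ} (ha : a ≠ 0) (n : ℕ) : r n a = R n (log a) := by
  funext z
  unfold r R
  rw [rootP_eq ha, sqrtP_eq ha, exp_log ha]

theorem vMinus_eq {a : ℂ} (ha : a ≠ 0) (n : ℕ) : vMinus n a = V n (log a) := by
  unfold vMinus V
  rw [rootP_eq ha, sqrtP_eq ha]

theorem hasDerivAt_R {n : ℕ} (hn : n ≠ 0) (ℓ : ℂ) {z : ℂ} (hz : z ≠ 0) :
    HasDerivAt (R n ℓ) (R' n ℓ z) z := by
  obtain ⟨m, rfl⟩ := Nat.exists_eq_succ_of_ne_zero hn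
  have hzn : z ^ (m + 1) ≠ 0 := pow_ne_zero _ hz
  have h1 : HasDerivAt (fun z : ℂ => z ^ (m + 1)) (((m + 1 : ℕ) : ℂ) * z ^ m) z := by
    simpa using hasDerivAt_pow (m + 1) z
  have h2 := (hasDerivAt_const z (exp ℓ)).div h1 hzn
  have h3 := (h1.add h2).add_const (exp (ℓ / (2 * ((m + 1 : ℕ) : ℂ))) - 2 * exp (ℓ / 2))
  refine HasDerivAt.congr_deriv (f := R (m + 1) ℓ) h3 ?_
  unfold R'
  rw [Nat.succ_eq_add_one, Nat.add_sub_cancel]
  field_simp
  ring

/-- `r n a` is not continuous at its pole -/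
theorem not_continuousAt_zero {n : ℕ} (hn : n ≠ 0) {a : ℂ} (ha : a ≠ 0) :
    ¬ ContinuousAt (r n a) 0 := by
  intro h
  have h1 : Tendsto (fun z : ℂ => z ^ n * r n a z) (𝓝[≠] 0) (𝓝 (0 ^ n * r n a 0)) := by
    have : ContinuousAt (fun z : ℂ => z ^ n * r n a z) 0 := by
      exact (continuous_pow n).continuousAt.mul h
    exact this.tendsto.mono_left nhdsWithin_le_nhds
  have h2 : Tendsto (fun z : ℂ => z ^ n * z ^ n + a + (rootP n a - 2 * sqrtP a) * z ^ n)
      (𝓝[≠] 0) (𝓝 (0 ^ n * 0 ^ n + a + (rootP n a - 2 * sqrtP a) * 0 ^ n)) := by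
    have : Continuous
        (fun z : ℂ => z ^ n * z ^ n + a + (rootP n a - 2 * sqrtP a) * z ^ n) := by
      fun_prop
    exact (this.tendsto 0).mono_left nhdsWithin_le_nhds
  have h3 : (fun z : ℂ => z ^ n * r n a z) =ᶠ[𝓝[≠] 0]
      fun z : ℂ => z ^ n * z ^ n + a + (rootP n a - 2 * sqrtP a) * z ^ n := by
    filter_upwards [self_mem_nhdsWithin] with z hz
    have hz' : z ^ n ≠ 0 := pow_ne_zero _ hz
    unfold r
    field_simp
  have h4 := tendsto_nhds_unique (h1.congr' h3) h2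
  rw [zero_pow hn] at h4
  apply ha
  linear_combination -h4

/-- what the straightening gives at a parameter -/
theorem orbit_data {n : ℕ} (hn : n ≠ 0) {a c : ℂ} {U' U : Set ℂ} (ha : a ≠ 0)
    (hf : PolyLike2 (r n a) U' U (vMinus n a)) (hh : WeakHybrid (r n a) U' c)
    (hc : ‖c‖ ≤ 1 / 100) :
    ∃ z₀ α : ℂ, Tendsto (fun m => (R n (log a))^[m] (V n (log a))) atTop (𝓝 z₀) ∧
      R' n (log a) z₀ = 2 * α ∧ α - α ^ 2 = c ∧ ‖α‖ ≤ 21 / 20 * ‖c‖ := by
  obtain ⟨z, α, hz, ht, hd, hα, hα'⟩ := attracted hf hh hc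
  have hz0 : z ≠ 0 := by
    rintro rfl
    exact not_continuousAt_zero hn ha
      (hf.holo.differentiableAt (hf.isOpen_source.mem_nhds hz)).continuousAt
  rw [r_eq ha, vMinus_eq ha] at ht
  rw [r_eq ha, (hasDerivAt_R hn _ hz0).deriv] at hd
  exact ⟨z, α, ht, hd, hα, hα'⟩

/-! ### Complex conjugation -/

open ComplexConjugate

theorem R_conj (n : ℕ) (ℓ z : ℂ) : R n (conj ℓ) (conj z) = conj (R n ℓ z) := by
  unfold R
  simp [← exp_conj, Complex.conj_ofNat]

theorem V_conj (n : ℕ) (ℓ : ℂ) : V n (conj ℓ) = conj (V n ℓ) := by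
  unfold V
  simp [← exp_conj, Complex.conj_ofNat]

theorem R'_conj (n : ℕ) (ℓ z : ℂ) : R' n (conj ℓ) (conj z) = conj (R' n ℓ z) := by
  unfold R'
  simp [← exp_conj]

theorem iterate_conj (n : ℕ) (ℓ : ℂ) (m : ℕ) :
    (R n (conj ℓ))^[m] (V n (conj ℓ)) = conj ((R n ℓ)^[m] (V n ℓ)) := by
  induction m with
  | zero => exact V_conj n ℓ
  | succ m ih => rw [Function.iterate_succ_apply', Function.iterate_succ_apply', ih, R_conj]

/-! ### The parameter `t` -/

/-- `ζ = exp (iθ)` -/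
noncomputable def zet (θ : ℝ) : ℂ := exp (θ * I)

theorem T_exp {n : ℕ} (hn : n ≠ 0) (θ : ℝ) (ℓ : ℂ) :
    T n (zet θ) ℓ = n * exp (((((n : ℝ) - 1) / (2 * n) : ℝ) : ℂ) * ℓ - θ * I) := by
  have hnC : (n : ℂ) ≠ 0 := by exact_mod_cast hn
  unfold T zet
  rw [mul_div_assoc, ← exp_add, ← exp_sub]
  congr 2
  push_cast
  field_simp
  ring

theorem T_re {n : ℕ} (hn : n ≠ 0) (θ : ℝ) (ℓ : ℂ) :
    (T n (zet θ) ℓ).re =
      ‖T n (zet θ) ℓ‖ * Real.cos (((n : ℝ) - 1) / (2 * n) * ℓ.im - θ) := by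
  rw [T_exp hn, norm_mul, Complex.norm_natCast, Complex.norm_exp]
  rw [show (n : ℂ) = ((n : ℝ) : ℂ) by simp, re_ofReal_mul, exp_re]
  have h1 : (((((n : ℝ) - 1) / (2 * n) : ℝ) : ℂ) * ℓ - θ * I).im =
      ((n : ℝ) - 1) / (2 * n) * ℓ.im - θ := by
    rw [sub_im, im_ofReal_mul]
    simp
  rw [h1, mul_assoc]

theorem T_continuous (n : ℕ) (ζ : ℂ) : Continuous (T n ζ) := by
  unfold T
  by_cases hζ : ζ = 0
  · subst hζ
    simp only [mul_zero, div_zero]
    exact continuous_const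
  · have : ∀ x : ℂ, exp (x / (2 * n)) * ζ ≠ 0 := fun x => mul_ne_zero (exp_ne_zero _) hζ
    fun_prop (disch := assumption)

/-! ### Estimates for the parameter `t` -/

section
variable {n : ℕ} {K : ℝ}

/-- standing assumptions -/
structure Cond (n : ℕ) (K : ℝ) : Prop where
  hK : 3 ≤ K
  hn : 10000 * K ^ 3 ≤ n

theorem Cond.npos (h : Cond n K) : (0 : ℝ) < n := by
  have h1 := h.hK
  have h2 := h.hn
  have : 0 < K ^ 3 := by positivity
  linarith

theorem Cond.n_ge (h : Cond n K) : 10000 ≤ n := by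
  have h1 := h.hK
  have h2 := h.hn
  have : (3 : ℝ) ^ 3 ≤ K ^ 3 := by gcongr
  have : (10000 : ℝ) ≤ n := by norm_num at this; linarith
  exact_mod_cast this

/-- `θ = K π / n` -/
noncomputable def th (n : ℕ) (K : ℝ) : ℝ := K * Real.pi / n

theorem Cond.th_pos (h : Cond n K) : 0 < th n K := by
  have h1 := h.hK
  have h2 := h.npos
  unfold th
  positivity

/-- `n θ ^ 2 ≤ 1 / (1000 K)` -/
theorem Cond.nth_sq (h : Cond n K) : n * th n K ^ 2 ≤ 1 / (1000 * K) := by
  have h1 := h.hK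
  have h2 := h.npos
  have h3 := h.hn
  have hpi : Real.pi ^ 2 ≤ 10 := by
    have := Real.pi_lt_d2
    have := Real.pi_pos
    nlinarith
  unfold th
  have : n * (K * Real.pi / n) ^ 2 = K ^ 2 * Real.pi ^ 2 / n := by field_simp
  rw [this, div_le_div_iff₀ h2 (by positivity)]
  calc K ^ 2 * Real.pi ^ 2 * (1000 * K) = 1000 * K ^ 3 * Real.pi ^ 2 := by ring
    _ ≤ 1000 * K ^ 3 * 10 := by gcongr
    _ ≤ 1 * n := by linarith

theorem Cond.th_le (h : Cond n K) : th n K ≤ 1 / 10000 := by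
  have h1 := h.hK
  have h2 := h.npos
  have h3 := h.hn
  have hpi := Real.pi_lt_d2
  unfold th
  rw [div_le_div_iff₀ h2 (by norm_num)]
  have : K * Real.pi ≤ K ^ 3 := by
    have : 3 ^ 2 ≤ K ^ 2 := by gcongr
    have : Real.pi ≤ K ^ 2 := by linarith
    calc K * Real.pi ≤ K * K ^ 2 := by gcongr
      _ = K ^ 3 := by ring
  linarith

theorem zet_inv (θ : ℝ) : (zet θ)⁻¹ = exp (-(θ * I)) := by
  unfold zet; rw [exp_neg]

theorem tau_re_nonpos (n : ℕ) (θ : ℝ) : (τ n (zet θ)).re ≤ 0 := by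
  unfold τ
  rw [zet_inv]
  have h1 : (n * (exp (-(θ * I)) - 1) / 4 : ℂ) = ((n / 4 : ℝ) : ℂ) * (exp (-(θ * I)) - 1) := by
    push_cast; ring
  rw [h1, re_ofReal_mul, sub_re, one_re, exp_re]
  have h2 : (-(θ * I) : ℂ).re = 0 := by simp
  have h3 : (-(θ * I) : ℂ).im = -θ := by simp
  rw [h2, h3, Real.exp_zero, one_mul]
  have := Real.cos_le_one (-θ)
  have : 0 ≤ (n / 4 : ℝ) := by positivity
  nlinarith

theorem Cond.tau_close (h : Cond n K) :
    ‖τ n (zet (th n K)) + I * ((K * Real.pi / 4 : ℝ) : ℂ)‖ ≤ 1 / (4000 * K) := by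
  have h1 := h.hK
  have h2 := h.npos
  have hnC : (n : ℂ) ≠ 0 := by exact_mod_cast h2.ne'
  set θ := th n K with hθ
  have hθ0 : 0 < θ := h.th_pos
  have e1 : τ n (zet θ) + I * ((K * Real.pi / 4 : ℝ) : ℂ) =
      ((n / 4 : ℝ) : ℂ) * (exp (-(θ * I)) - 1 - -(θ * I)) := by
    unfold τ
    rw [zet_inv]
    have : ((K * Real.pi / 4 : ℝ) : ℂ) = n / 4 * θ := by
      rw [hθ]
      unfold th
      push_cast
      field_simp
    rw [this]
    push_cast
    ring
  have e2 : ‖-(θ * I : ℂ)‖ = θ := by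
    rw [norm_neg, norm_mul, norm_I, mul_one, Complex.norm_real, Real.norm_eq_abs,
      abs_of_pos hθ0]
  have e3 := Complex.norm_exp_sub_one_sub_id_le (x := -(θ * I : ℂ)) (by
    rw [e2]; have := h.th_le; linarith)
  rw [e2] at e3
  rw [e1, norm_mul, Complex.norm_real, Real.norm_eq_abs, abs_of_pos (by positivity)]
  have e4 := h.nth_sq
  rw [← hθ] at e4
  calc n / 4 * ‖exp (-(θ * I)) - 1 - -(θ * I)‖ ≤ n / 4 * θ ^ 2 := by gcongr
    _ = (n * θ ^ 2) / 4 := by ring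
    _ ≤ (1 / (1000 * K)) / 4 := by gcongr
    _ = 1 / (4000 * K) := by field_simp; norm_num

/-- if `t` is close to `τ` then it is close to `-iKπ/4` -/
theorem Cond.t_close (h : Cond n K) {t : ℂ} (ht : ‖t - τ n (zet (th n K))‖ ≤ 1 / (25 * K)) :
    ‖t + I * ((K * Real.pi / 4 : ℝ) : ℂ)‖ ≤ 1 / (20 * K) := by
  have h1 := h.hK
  have h2 := h.tau_close
  calc ‖t + I * ((K * Real.pi / 4 : ℝ) : ℂ)‖
      = ‖(t - τ n (zet (th n K))) +
        (τ n (zet (th n K)) + I * ((K * Real.pi / 4 : ℝ) : ℂ))‖ := by ring_nf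
    _ ≤ 1 / (25 * K) + 1 / (4000 * K) := norm_add_le_of_le ht h2
    _ ≤ 1 / (20 * K) := by
      have e1 : 1 / (25 * K) = (1 / 25) * (1 / K) := by field_simp
      have e2 : 1 / (4000 * K) = (1 / 4000) * (1 / K) := by field_simp
      have e3 : 1 / (20 * K) = (1 / 20) * (1 / K) := by field_simp
      rw [e1, e2, e3]
      have : 0 < 1 / K := by positivity
      nlinarith

theorem Cond.t_bounds (h : Cond n K) {t : ℂ} (ht : ‖t - τ n (zet (th n K))‖ ≤ 1 / (25 * K)) :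
    7 / 10 * K ≤ ‖t‖ ∧ ‖t‖ ≤ K ∧ |t.re| ≤ 1 / (20 * K) ∧ t.im < 0 := by
  have h1 := h.hK
  have h2 := h.t_close ht
  have hK0 : 0 < K := by linarith
  have hpi := Real.pi_gt_d2
  have hpi' := Real.pi_lt_d2
  have h3 : ‖I * ((K * Real.pi / 4 : ℝ) : ℂ)‖ = K * Real.pi / 4 := by
    rw [norm_mul, norm_I, one_mul, Complex.norm_real, Real.norm_eq_abs, abs_of_pos (by positivity)]
  have h4 : 1 / (20 * K) ≤ 1 / 60 := by
    apply one_div_le_one_div_of_le <;> linarith
  refine ⟨?_, ?_, ?_, ?_⟩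
  · have := norm_sub_norm_le (I * ((K * Real.pi / 4 : ℝ) : ℂ)) (-t)
    rw [sub_neg_eq_add, add_comm, norm_neg, h3] at this
    nlinarith
  · have := norm_sub_norm_le t (-(I * ((K * Real.pi / 4 : ℝ) : ℂ)))
    rw [sub_neg_eq_add, norm_neg, h3] at this
    nlinarith
  · have e1 : (t + I * ((K * Real.pi / 4 : ℝ) : ℂ)).re = t.re := by
      rw [add_re, mul_re, ofReal_im, I_re]; ring
    rw [← e1]
    exact (abs_re_le_norm _).trans h2
  · have e1 : (t + I * ((K * Real.pi / 4 : ℝ) : ℂ)).im = t.im + K * Real.pi / 4 := by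
      rw [add_im, mul_im, ofReal_im, ofReal_re, I_re, I_im]; ring
    have e2 := (abs_im_le_norm _).trans h2
    rw [e1] at e2
    have e3 := (abs_le.1 e2).2
    nlinarith

/-- consequence of the key estimate -/
theorem Cond.small (h : Cond n K) {t c : ℂ} (ht : ‖t - τ n (zet (th n K))‖ ≤ 1 / (25 * K))
    (hc : ‖c‖ ≤ 1 / 100) (hk : ‖4 * t * (t - τ n (zet (th n K))) - c‖ ≤ ‖c‖ / 10) :
    ‖t - τ n (zet (th n K))‖ ≤ 1 / (250 * K) := by
  have h1 := h.hK
  have hK0 : 0 < K := by linarith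
  obtain ⟨h2, h3, -, -⟩ := h.t_bounds ht
  set w := t - τ n (zet (th n K)) with hw
  have e1 : ‖4 * t * w‖ ≤ 11 / 1000 := by
    calc ‖4 * t * w‖ = ‖(4 * t * w - c) + c‖ := by ring_nf
      _ ≤ ‖c‖ / 10 + ‖c‖ := norm_add_le_of_le hk le_rfl
      _ ≤ 11 / 1000 := by linarith
  rw [norm_mul, norm_mul] at e1
  have e2 : ‖(4 : ℂ)‖ = 4 := by norm_num
  rw [e2] at e1
  have e3 : 4 * (7 / 10 * K) * ‖w‖ ≤ 11 / 1000 := by
    refine le_trans ?_ e1
    gcongr
  rw [le_div_iff₀ (by positivity)]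
  nlinarith [norm_nonneg w]

/-- For a parameter with `Im a < 0`, `Re t` cannot be very negative. -/
theorem Cond.re_T_ge (h : Cond n K) {ℓ : ℂ} (h0 : -Real.pi < ℓ.im) (h0' : ℓ.im ≤ 0)
    (ht : ‖T n (zet (th n K)) ℓ - τ n (zet (th n K))‖ ≤ 1 / (25 * K)) :
    -(1 / (2000 * K)) ≤ (T n (zet (th n K)) ℓ).re := by
  have h1 := h.hK
  have hK0 : 0 < K := by linarith
  have hn0 := h.npos
  have hn1 : (n : ℕ) ≠ 0 := by have := h.n_ge; omega
  have hnn : (10000 : ℝ) ≤ n := by exact_mod_cast h.n_ge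
  obtain ⟨h2, h3, -, -⟩ := h.t_bounds ht
  rw [T_re hn1]
  set t := T n (zet (th n K)) ℓ with ht'
  set x := ((n : ℝ) - 1) / (2 * n) * ℓ.im - th n K with hx
  have hpi := Real.pi_pos
  have hpi2 := Real.pi_lt_d2
  have hβ : 0 ≤ ((n : ℝ) - 1) / (2 * n) := by
    apply div_nonneg <;> linarith
  have hβ' : ((n : ℝ) - 1) / (2 * n) ≤ 1 / 2 := by
    rw [div_le_div_iff₀ (by positivity) (by norm_num)]
    linarith
  have hxl : -(Real.pi / 2) - th n K ≤ x := by
    rw [hx]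
    have : -(Real.pi / 2) ≤ ((n : ℝ) - 1) / (2 * n) * ℓ.im := by nlinarith
    linarith
  have hx0 : x ≤ 0 := by
    rw [hx]
    have := h.th_pos
    nlinarith
  have hcos : -(th n K) ≤ Real.cos x := by
    have e1 : Real.cos x = Real.sin (x + Real.pi / 2) := (Real.sin_add_pi_div_two x).symm
    rw [e1]
    rcases le_or_gt 0 (x + Real.pi / 2) with h4 | h4
    · have := Real.sin_nonneg_of_nonneg_of_le_pi h4 (by linarith)
      have := h.th_pos
      linarith
    · have e2 := Real.sin_lt (x := -(x + Real.pi / 2)) (by linarith)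
      rw [Real.sin_neg] at e2
      linarith
  have hKθ : K * th n K ≤ 1 / (2000 * K) := by
    unfold th
    rw [← mul_div_assoc, div_le_div_iff₀ hn0 (by positivity)]
    have h4 := h.hn
    calc K * (K * Real.pi) * (2000 * K) = 2000 * Real.pi * K ^ 3 := by ring
      _ ≤ 10000 * K ^ 3 := by
        have : 0 < K ^ 3 := by positivity
        nlinarith
      _ ≤ 1 * n := by linarith
  have hθ0 := h.th_pos
  calc -(1 / (2000 * K)) ≤ -(K * th n K) := by linarith
    _ ≤ -(‖t‖ * th n K) := by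
      have : ‖t‖ * th n K ≤ K * th n K := by gcongr
      linarith
    _ = ‖t‖ * -(th n K) := by ring
    _ ≤ ‖t‖ * Real.cos x := by gcongr

/-- at `c = i/100` the real part of `t` is too negative -/
theorem Cond.no_end (h : Cond n K) {t : ℂ} (ht : ‖t - τ n (zet (th n K))‖ ≤ 1 / (25 * K))
    (hk : ‖4 * t * (t - τ n (zet (th n K))) - I / 100‖ ≤ ‖(I / 100 : ℂ)‖ / 10)
    (hre : -(1 / (2000 * K)) ≤ t.re) : False := by
  have h1 := h.hK
  have hK0 : 0 < K := by linarith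
  have hc : ‖(I / 100 : ℂ)‖ = 1 / 100 := by
    rw [norm_div, norm_I]; norm_num
  obtain ⟨h2, h3, h4, h5⟩ := h.t_bounds ht
  have h6 := h.small ht (c := I / 100) (by rw [hc]) hk
  set w := t - τ n (zet (th n K)) with hw
  have hwre : w.re ≥ -(1 / (2000 * K)) := by
    have := tau_re_nonpos n (th n K)
    rw [hw, sub_re]
    linarith
  rw [hc] at hk
  have h7 : |(4 * t * w - I / 100).im| ≤ 1 / 100 / 10 := (abs_im_le_norm _).trans hk
  have h8 : (4 * t * w - I / 100).im = 4 * (t.re * w.im + t.im * w.re) - 1 / 100 := by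
    have : (4 * t * w - I / 100 : ℂ) = ((4 : ℝ) : ℂ) * (t * w) - ((1 / 100 : ℝ) : ℂ) * I := by
      push_cast; ring
    rw [this, sub_im, im_ofReal_mul, im_ofReal_mul, mul_im, I_im]
    ring
  rw [h8] at h7
  have h9 := (abs_le.1 h7).1
  have h10 : |w.im| ≤ 1 / (250 * K) := (abs_im_le_norm _).trans h6
  have h11 : t.re * w.im ≤ 1 / (20 * K) * (1 / (250 * K)) := by
    calc t.re * w.im ≤ |t.re * w.im| := le_abs_self _
      _ = |t.re| * |w.im| := abs_mul _ _
      _ ≤ _ := by gcongr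
  have h12 : t.im * w.re ≤ K * (1 / (2000 * K)) := by
    have e1 : t.im * w.re ≤ (-t.im) * (1 / (2000 * K)) := by nlinarith
    have e2 : -t.im ≤ K := by
      have := (abs_le.1 ((abs_im_le_norm t).trans h3)).1
      linarith
    have e3 : 0 < 1 / (2000 * K) := by positivity
    nlinarith
  have e1 : K * (1 / (2000 * K)) = 1 / 2000 := by field_simp
  have e2 : 1 / (20 * K) * (1 / (250 * K)) ≤ 1 / 45000 := by
    have : 1 / (20 * K) * (1 / (250 * K)) = 1 / (5000 * K ^ 2) := by field_simp; norm_num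
    rw [this]
    apply one_div_le_one_div_of_le (by norm_num)
    nlinarith
  rw [e1] at h12
  linarith

/-- positive real parameters are excluded -/
theorem Cond.no_pos (h : Cond n K) {ℓ : ℂ} (hℓ : ℓ.im = 0)
    (ht : ‖T n (zet (th n K)) ℓ - τ n (zet (th n K))‖ ≤ 1 / (25 * K)) : False := by
  have h1 := h.hK
  have hn1 : (n : ℕ) ≠ 0 := by have := h.n_ge; omega
  obtain ⟨h2, h3, h4, -⟩ := h.t_bounds ht
  rw [T_re hn1, hℓ, mul_zero, zero_sub, Real.cos_neg] at h4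
  have h5 : 1 / 2 ≤ Real.cos (th n K) := by
    have := Real.one_sub_sq_div_two_le_cos (x := th n K)
    have := h.th_le
    have := h.th_pos
    nlinarith
  have h6 := le_abs_self (‖T n (zet (th n K)) ℓ‖ * Real.cos (th n K))
  have h7 : 1 / (20 * K) ≤ 1 / 60 := by
    apply one_div_le_one_div_of_le <;> linarith
  nlinarith

end

/-! ### The parameter `a_k` -/

section
variable {n : ℕ} {K : ℝ}

/-- `B = (1 - ζ)/4` in polar form -/
theorem one_sub_zet (θ : ℝ) :
    (1 - zet θ) / 4 = ((Real.sin (θ / 2) / 2 : ℝ) : ℂ) * exp (((θ - Real.pi) / 2 : ℝ) * I) := by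
  have e1 : zet θ = exp ((θ / 2 : ℝ) * I) ^ 2 := by
    unfold zet; rw [← exp_nat_mul]; congr 1; push_cast; ring
  have e2 : exp (((θ - Real.pi) / 2 : ℝ) * I) = -I * exp ((θ / 2 : ℝ) * I) := by
    have : (((θ - Real.pi) / 2 : ℝ) * I : ℂ) = -(Real.pi / 2 * I) + (θ / 2 : ℝ) * I := by
      push_cast; ring
    rw [this, exp_add, exp_neg, exp_pi_div_two_mul_I, inv_I]
  have e3 : ((Real.sin (θ / 2) / 2 : ℝ) : ℂ) =
      (exp (-((θ / 2 : ℝ) * I)) - exp ((θ / 2 : ℝ) * I)) * I / 4 := by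
    push_cast
    rw [Complex.sin]
    ring_nf
  rw [e1, e2, e3, exp_neg]
  have e4 : exp ((θ / 2 : ℝ) * I) ≠ 0 := exp_ne_zero _
  field_simp
  ring_nf
  rw [I_sq]
  ring

theorem log_B {θ : ℝ} (h0 : 0 < θ) (h1 : θ < 1) :
    log ((1 - zet θ) / 4) = (Real.log (Real.sin (θ / 2) / 2) : ℝ) +
      ((θ - Real.pi) / 2 : ℝ) * I := by
  have hs : 0 < Real.sin (θ / 2) := Real.sin_pos_of_pos_of_lt_pi (by linarith)
    (by have := Real.pi_gt_three; linarith)
  have hpi := Real.pi_gt_three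
  rw [one_sub_zet]
  rw [show ((Real.sin (θ / 2) / 2 : ℝ) : ℂ) =
    exp ((Real.log (Real.sin (θ / 2) / 2) : ℝ) : ℂ) by
      rw [← ofReal_exp, Real.exp_log (by positivity)]]
  rw [← exp_add, log_exp]
  · rw [add_im, ofReal_im, im_ofReal_mul, I_im]; linarith
  · rw [add_im, ofReal_im, im_ofReal_mul, I_im]; linarith

theorem zet_pow {n k : ℕ} (hn : n ≠ 0) (hk : Odd k) : zet (th n k) ^ n = -1 := by
  have hnC : (n : ℂ) ≠ 0 := by exact_mod_cast hn
  unfold zet th
  rw [← exp_nat_mul]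
  have : (n : ℂ) * (((k * Real.pi / n : ℝ) : ℂ) * I) = k * (Real.pi * I) := by
    push_cast
    field_simp
  rw [this, exp_nat_mul, exp_pi_mul_I, hk.neg_one_pow]

theorem log_aPar {n k : ℕ} (h : Cond n k) :
    log (aPar n k) = ((2 * n / (n - 1) : ℝ) : ℂ) * log ((1 - zet (th n k)) / 4) ∧
      -Real.pi < (log (aPar n k)).im ∧ (log (aPar n k)).im < 0 := by
  have hθ0 := h.th_pos
  have hθ1 := h.th_le
  have hn0 := h.npos
  have hn1 : (10000 : ℝ) ≤ n := by exact_mod_cast h.n_ge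
  have hk := h.hK
  have hpi := Real.pi_pos
  have hB := log_B hθ0 (by linarith)
  have hsin : 0 < Real.sin (th n k / 2) := Real.sin_pos_of_pos_of_lt_pi (by linarith)
    (by have := Real.pi_gt_three; linarith)
  have hB0 : (1 - zet (th n k)) / 4 ≠ 0 := by
    rw [one_sub_zet]
    apply mul_ne_zero _ (exp_ne_zero _)
    rw [ofReal_ne_zero]
    positivity
  have him : (((2 * n / (n - 1) : ℝ) : ℂ) * log ((1 - zet (th n k)) / 4)).im =
      -(Real.pi * ((n - k) / (n - 1))) := by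
    rw [im_ofReal_mul, hB, add_im, ofReal_im, im_ofReal_mul, I_im]
    unfold th
    have : (n : ℝ) - 1 ≠ 0 := by linarith
    field_simp
    ring
  have hkn : (k : ℝ) < n := by
    have h1 := h.hn
    have : (k : ℝ) ≤ k ^ 3 := by nlinarith [sq_nonneg ((k : ℝ) - 1), sq_nonneg (k : ℝ)]
    linarith
  have h1 : 0 < ((n : ℝ) - k) / (n - 1) := div_pos (by linarith) (by linarith)
  have h2 : ((n : ℝ) - k) / (n - 1) < 1 := by
    rw [div_lt_one (by linarith)]; linarith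
  have e1 : aPar n k = exp (((2 * n / (n - 1) : ℝ) : ℂ) * log ((1 - zet (th n k)) / 4)) := by
    unfold aPar
    rw [cpow_def_of_ne_zero (by exact hB0), mul_comm]
    rfl
  have e2 : log (aPar n k) =
      ((2 * n / (n - 1) : ℝ) : ℂ) * log ((1 - zet (th n k)) / 4) := by
    rw [e1, log_exp]
    · rw [him]; nlinarith
    · rw [him]; nlinarith
  refine ⟨e2, ?_, ?_⟩
  · rw [e2, him]; nlinarith
  · rw [e2, him]; nlinarith

theorem T_aPar {n k : ℕ} (h : Cond n k) :
    T n (zet (th n k)) (log (aPar n k)) = τ n (zet (th n k)) := by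
  have hθ0 := h.th_pos
  have hθ1 := h.th_le
  have hn0 : n ≠ 0 := by have := h.n_ge; omega
  have hn1 : (10000 : ℝ) ≤ n := by exact_mod_cast h.n_ge
  have hsin : 0 < Real.sin (th n k / 2) := Real.sin_pos_of_pos_of_lt_pi (by linarith)
    (by have := Real.pi_gt_three; linarith)
  have hB0 : (1 - zet (th n k)) / 4 ≠ 0 := by
    rw [one_sub_zet]
    apply mul_ne_zero _ (exp_ne_zero _)
    rw [ofReal_ne_zero]
    positivity
  rw [T_exp hn0, (log_aPar h).1, ← mul_assoc, ← ofReal_mul]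
  have : ((n : ℝ) - 1) / (2 * n) * (2 * n / (n - 1)) = 1 := by
    have : (n : ℝ) - 1 ≠ 0 := by linarith
    have : (n : ℝ) ≠ 0 := by linarith
    field_simp
  rw [this, ofReal_one, one_mul, exp_sub, exp_log hB0]
  have hz : exp (th n k * I) = zet (th n k) := rfl
  have hz0 : zet (th n k) ≠ 0 := exp_ne_zero _
  rw [hz]
  unfold τ
  field_simp

end

/-- **Main theorem.** -/
theorem no_baby {n k : ℕ} (hk : Odd k) (h3 : 3 ≤ k) (hn : 10000 * k ^ 3 ≤ n) :
    ¬ ∃ M', IsBabyMandelbrot n (aPar n k) M' := by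
  rintro ⟨M', -, hmem, χ, hχ0, W, -, hM'W, h0W, U', U, hpl, -, hhyb⟩
  have h : Cond n k := ⟨by exact_mod_cast h3, by exact_mod_cast hn⟩
  have hK0 : (0 : ℝ) < k := by have := h.hK; linarith
  have hng := h.n_ge
  have hn0 : n ≠ 0 := by omega
  set ζ := zet (th n k) with hζ
  have hζn : ζ ^ n = -1 := zet_pow hn0 hk
  -- the path of parameters
  set cc : ℝ → ℂ := fun s => I * (((projIcc (0 : ℝ) 1 zero_le_one s : ℝ)) : ℂ) / 100 with hcc
  have hccn : ∀ s, ‖cc s‖ = (projIcc (0 : ℝ) 1 zero_le_one s : ℝ) / 100 := by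
    intro s
    have h1 := (projIcc (0 : ℝ) 1 zero_le_one s).2.1
    simp only [hcc]
    rw [norm_div, norm_mul, norm_I, one_mul, Complex.norm_real, Real.norm_eq_abs, abs_of_nonneg h1]
    norm_num
  have hccle : ∀ s, ‖cc s‖ ≤ 1 / 100 := by
    intro s
    rw [hccn]
    have h1 := (projIcc (0 : ℝ) 1 zero_le_one s).2.2
    linarith
  have hcccont : Continuous cc := by
    simp only [hcc]
    have : Continuous fun s : ℝ => (projIcc (0 : ℝ) 1 zero_le_one s : ℝ) :=
      continuous_subtype_val.comp continuous_projIcc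
    fun_prop
  set p : ℝ → M' := fun s => χ.symm ⟨cc s, mem_mandelbrot (hccle s)⟩ with hp
  have hpcont : Continuous p := χ.symm.continuous.comp (hcccont.subtype_mk _)
  set f : ℝ → ℂ := fun s => (p s : ℂ) with hf
  have hfcont : Continuous f := continuous_subtype_val.comp hpcont
  have hf0 : f 0 = aPar n k := by
    have e1 : cc 0 = 0 := by
      simp only [hcc]
      rw [projIcc_left]; simp
    have e2 : (⟨cc 0, mem_mandelbrot (hccle 0)⟩ : mandelbrot) = χ ⟨aPar n k, hmem⟩ := by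
      apply Subtype.ext
      rw [hχ0]
      exact e1
    simp only [hf, hp]
    rw [e2, χ.symm_apply_apply]
  have hne : ∀ s, f s ≠ 0 := by
    intro s hs
    exact h0W (hs ▸ hM'W (p s).2)
  have hχp : ∀ s, (χ (p s) : ℂ) = cc s := by
    intro s
    simp only [hp]
    rw [χ.apply_symm_apply]
  have hdata : ∀ s, ∃ z₀ α : ℂ,
      Tendsto (fun m => (R n (log (f s)))^[m] (V n (log (f s)))) atTop (𝓝 z₀) ∧
      R' n (log (f s)) z₀ = 2 * α ∧ α - α ^ 2 = cc s ∧ ‖α‖ ≤ 21 / 20 * ‖cc s‖ := by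
    intro s
    have h1 := hhyb (p s) (p s).2
    have h2 : ((χ ⟨(p s : ℂ), (p s).2⟩ : mandelbrot) : ℂ) = cc s := hχp s
    rw [h2] at h1
    exact orbit_data hn0 (hne s) (hpl _ (hM'W (p s).2)) h1 (hccle s)
  have hkey : ∀ s, ‖T n ζ (log (f s)) - τ n ζ‖ ≤ 1 / (25 * k) →
      ‖4 * T n ζ (log (f s)) * (T n ζ (log (f s)) - τ n ζ) - cc s‖ ≤ ‖cc s‖ / 10 := by
    intro s hs
    obtain ⟨z₀, α, e1, e2, e3, e4⟩ := hdata s
    obtain ⟨b1, b2, -, -⟩ := h.t_bounds hs
    exact key h.hK hng hζn b1 b2 hs e1 e2 e3 e4 (hccle s)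
  have hIm0 : (f 0).im < 0 := by
    rw [hf0]
    have := (log_aPar h).2.2
    rw [log_im] at this
    exact arg_neg_iff.1 this
  -- along the path, as long as `Im a < 0`
  have hA : ∀ s₁ ∈ Icc (0 : ℝ) 1, (∀ s ∈ Icc 0 s₁, (f s).im < 0) →
      ‖T n ζ (log (f s₁)) - τ n ζ‖ ≤ 1 / (25 * k) := by
    intro s₁ hs₁ hneg
    by_contra hcon
    rw [not_le] at hcon
    set g : ℝ → ℝ := fun s => ‖T n ζ (log (f s)) - τ n ζ‖ with hg
    have hgc : ContinuousOn g (Icc 0 s₁) := by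
      have h1 : ContinuousOn (fun s => log (f s)) (Icc 0 s₁) := by
        apply hfcont.continuousOn.clog
        intro s hs
        rw [mem_slitPlane_iff]
        exact Or.inr (hneg s hs).ne
      exact (((T_continuous n ζ).comp_continuousOn h1).sub continuousOn_const).norm
    have hg0 : g 0 = 0 := by
      simp only [hg]
      rw [hf0, hζ, T_aPar h, sub_self, norm_zero]
    have hpos : (0 : ℝ) < 1 / (25 * k) := by positivity
    obtain ⟨s, hs, hgs⟩ := intermediate_value_Icc hs₁.1 hgc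
      (show 1 / (25 * (k : ℝ)) ∈ Icc (g 0) (g s₁) from ⟨by rw [hg0]; exact hpos.le, hcon.le⟩)
    have h1 : ‖T n ζ (log (f s)) - τ n ζ‖ ≤ 1 / (25 * k) := le_of_eq hgs
    have h2 := h.small h1 (hccle s) (hkey s h1)
    have h3 : ‖T n ζ (log (f s)) - τ n ζ‖ = 1 / (25 * k) := hgs
    rw [h3, div_le_div_iff₀ (by positivity) (by positivity)] at h2
    linarith
  have hlog : ∀ s, (f s).im < 0 → -Real.pi < (log (f s)).im ∧ (log (f s)).im ≤ 0 := by
    intro s hs
    rw [log_im]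
    exact ⟨neg_pi_lt_arg _, (arg_neg_iff.2 hs).le⟩
  by_cases hall : ∀ s ∈ Icc (0 : ℝ) 1, (f s).im < 0
  · have h1 : (1 : ℝ) ∈ Icc (0 : ℝ) 1 := ⟨zero_le_one, le_rfl⟩
    have h2 := hA 1 h1 hall
    have h3 := hlog 1 (hall 1 h1)
    have h4 := h.re_T_ge h3.1 h3.2 h2
    have h5 := hkey 1 h2
    have h6 : cc 1 = I / 100 := by
      simp only [hcc]
      rw [projIcc_right]; simp
    rw [h6] at h5
    exact h.no_end h2 h5 h4
  · push Not at hall
    obtain ⟨s', hs', hs'0⟩ := hall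
    have hcomp : IsCompact (Icc (0 : ℝ) 1 ∩ {s | 0 ≤ (f s).im}) :=
      isCompact_Icc.inter_right (isClosed_le continuous_const (continuous_im.comp hfcont))
    obtain ⟨s₁, ⟨hs₁, hs₁0⟩, hleast⟩ := hcomp.exists_isLeast ⟨s', hs', hs'0⟩
    change 0 ≤ (f s₁).im at hs₁0
    have hs₁pos : 0 < s₁ := by
      rcases hs₁.1.eq_or_lt with h1 | h1
      · rw [← h1] at hs₁0; linarith
      · exact h1
    have hneg : ∀ s ∈ Ico 0 s₁, (f s).im < 0 := by
      intro s hs
      by_contra hcon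
      have := hleast ⟨⟨hs.1, hs.2.le.trans hs₁.2⟩, not_lt.1 hcon⟩
      linarith [hs.2]
    have hev : ∀ᶠ s in 𝓝[<] s₁, s ∈ Ioo 0 s₁ := Ioo_mem_nhdsLT hs₁pos
    have hlim : Tendsto f (𝓝[<] s₁) (𝓝 (f s₁)) := (hfcont.tendsto s₁).mono_left nhdsWithin_le_nhds
    have hIm : (f s₁).im = 0 := by
      apply le_antisymm _ hs₁0
      have h1 : Tendsto (fun s => (f s).im) (𝓝[<] s₁) (𝓝 (f s₁).im) :=
        (continuous_im.tendsto _).comp hlim
      refine le_of_tendsto h1 ?_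
      filter_upwards [hev] with s hs
      exact (hneg s ⟨hs.1.le, hs.2⟩).le
    have hclose : ∀ s ∈ Ioo 0 s₁, ‖T n ζ (log (f s)) - τ n ζ‖ ≤ 1 / (25 * k) := by
      intro s hs
      exact hA s ⟨hs.1.le, hs.2.le.trans hs₁.2⟩ fun s' hs' =>
        hneg s' ⟨hs'.1, lt_of_le_of_lt hs'.2 hs.2⟩
    -- limits
    have hlimits : ∀ ℓ : ℂ, Tendsto (fun s => log (f s)) (𝓝[<] s₁) (𝓝 ℓ) →
        ‖T n ζ ℓ - τ n ζ‖ ≤ 1 / (25 * k) ∧
        ‖4 * T n ζ ℓ * (T n ζ ℓ - τ n ζ) - cc s₁‖ ≤ ‖cc s₁‖ / 10 := by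
      intro ℓ hℓ
      have h1 : Tendsto (fun s => T n ζ (log (f s))) (𝓝[<] s₁) (𝓝 (T n ζ ℓ)) :=
        ((T_continuous n ζ).tendsto ℓ).comp hℓ
      have h2 : Tendsto cc (𝓝[<] s₁) (𝓝 (cc s₁)) :=
        (hcccont.tendsto s₁).mono_left nhdsWithin_le_nhds
      constructor
      · refine le_of_tendsto (h1.sub_const _).norm ?_
        filter_upwards [hev] with s hs
        exact hclose s hs
      · refine le_of_tendsto_of_tendsto
          (((h1.const_mul 4).mul (h1.sub_const _)).sub h2).norm (h2.norm.div_const 10) ?_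
        filter_upwards [hev] with s hs
        exact hkey s (hclose s hs)
    rcases lt_trichotomy (f s₁).re 0 with hre | hre | hre
    · -- negative real axis
      have h1 : Tendsto f (𝓝[<] s₁) (𝓝[{z : ℂ | z.im < 0}] f s₁) := by
        rw [tendsto_nhdsWithin_iff]
        refine ⟨hlim, ?_⟩
        filter_upwards [hev] with s hs
        exact hneg s ⟨hs.1.le, hs.2⟩
      have h2 := (Complex.tendsto_log_nhdsWithin_im_neg_of_re_neg_of_im_zero hre hIm).comp h1
      set ℓ : ℂ := Real.log ‖f s₁‖ - Real.pi * I with hℓ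
      obtain ⟨h3, h4⟩ := hlimits ℓ h2
      have h5 : conj (log (f s₁)) = ℓ := by
        have e1 : arg (f s₁) = Real.pi := arg_eq_pi_iff.2 ⟨hre, hIm⟩
        rw [hℓ]
        apply Complex.ext
        · rw [conj_re, log_re, sub_re, ofReal_re, re_ofReal_mul, I_re]; ring
        · rw [conj_im, log_im, sub_im, ofReal_im, im_ofReal_mul, I_im, e1]; ring
      obtain ⟨z₀, α, e1, e2, e3, e4⟩ := hdata s₁
      obtain ⟨b1, b2, -, -⟩ := h.t_bounds h3
      have h6 := key h.hK hng hζn b1 b2 h3 (z₀ := conj z₀) (α := conj α) (c := conj (cc s₁))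
        (by
          have e5 := ((continuous_conj.tendsto z₀).comp e1)
          refine e5.congr fun m => ?_
          rw [Function.comp_apply, ← iterate_conj, h5])
        (by rw [← h5, R'_conj, e2, map_mul, Complex.conj_ofNat])
        (by rw [← e3]; simp)
        (by simpa using e4)
        (by simpa using hccle s₁)
      have h7 : ‖cc s₁ - conj (cc s₁)‖ ≤ ‖cc s₁‖ / 5 := by
        have e5 : cc s₁ - conj (cc s₁) =
            (4 * T n ζ ℓ * (T n ζ ℓ - τ n ζ) - conj (cc s₁)) -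
            (4 * T n ζ ℓ * (T n ζ ℓ - τ n ζ) - cc s₁) := by ring
        rw [e5]
        refine (norm_sub_le _ _).trans ?_
        have e6 : ‖conj (cc s₁)‖ = ‖cc s₁‖ := norm_conj _
        rw [e6] at h6
        linarith
      have h8 : cc s₁ - conj (cc s₁) = 2 * cc s₁ := by
        simp only [hcc]
        rw [map_div₀, map_mul, conj_I, conj_ofReal]
        rw [show (100 : ℂ) = ((100 : ℝ) : ℂ) by push_cast; rfl, conj_ofReal]
        ring
      rw [h8, norm_mul] at h7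
      have h9 : ‖(2 : ℂ)‖ = 2 := by norm_num
      have h10 : ‖cc s₁‖ = s₁ / 100 := by
        rw [hccn, projIcc_of_mem _ hs₁]
      rw [h9, h10] at h7
      linarith
    · exact hne s₁ (Complex.ext hre hIm)
    · -- positive real axis
      have h1 : Tendsto (fun s => log (f s)) (𝓝[<] s₁) (𝓝 (log (f s₁))) := by
        have : ContinuousAt log (f s₁) := continuousAt_clog (mem_slitPlane_iff.2 (Or.inl hre))
        exact this.tendsto.comp hlim
      obtain ⟨h3, -⟩ := hlimits _ h1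
      refine h.no_pos ?_ h3
      rw [log_im, arg_eq_zero_iff]
      exact ⟨hre.le, hIm⟩

end Pool.Agent.LibH66.McM
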